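import Pool.Agent.N892.MA.Stm

/-! Project MA (helper892): one point, with forbidden intervals of radii (`S_A`), by helper323. -/

set_option autoImplicit false

namespace Pool.Agent.N892.MA.A

open H974 H12S Pool.Agent.N892.MA

theorem okh : Ok (fun _ : Edg => (1/2:ℝ)) := fun _ => ⟨by norm_num, by norm_num⟩

theorem blk_mono (c : ℤ × ℤ) {a b : ℕ} (h : a ≤ b) : blk c a ⊆ blk c b := by
  unfold blk
  apply RE_subset <;> omega

/-- the events of an annulus depend only on the edges near the annulus -/
theorem loc_iff {σ C : ℝ} {A : ℤ × ℤ → ℕ → ℕ → Set Edg → Prop} (h : IsArm σ C A) (c : ℤ × ℤ)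
    {s t : ℕ} (hs : 1 ≤ s) (hst : s ≤ t) (F T : Finset Edg)
    (hT : ∀ e ∈ F, e ∈ blk c (t + 1) → e ∉ blk c (s - 1) → e ∈ T) :
    A c s t (↑F : Set Edg) ↔ A c s t (↑(F ∩ T) : Set Edg) := by
  have e : (↑F : Set Edg) ∩ ↑(blk c (t + 1) \ blk c (s - 1)) =
      (↑(F ∩ T) : Set Edg) ∩ ↑(blk c (t + 1) \ blk c (s - 1)) := by
    ext x
    simp only [Set.mem_inter_iff, Finset.mem_coe, Finset.mem_sdiff, Finset.mem_inter]
    constructor
    · rintro ⟨h1, h2, h3⟩
      exact ⟨⟨h1, hT x h1 h2 h3⟩, h2, h3⟩
    · rintro ⟨⟨h1, _⟩, h2⟩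
      exact ⟨h1, h2⟩
  exact ⟨h.loc c s t hs hst _ _ e, h.loc c s t hs hst _ _ e.symm⟩

/-- locality of the events `HoleA` -/
theorem hole_iff {σ C : ℝ} {A : ℤ × ℤ → ℕ → ℕ → Set Edg → Prop} (h : IsArm σ C A) (c : ℤ × ℤ)
    {d K : ℕ} (hd : 1 ≤ d) (I : List (ℕ × ℕ)) (F T : Finset Edg)
    (hT : ∀ s t : ℕ, d ≤ s → s ≤ t → t ≤ K → (∀ p ∈ I, t < p.1 ∨ p.2 < s) →
      ∀ e ∈ F, e ∈ blk c (t + 1) → e ∉ blk c (s - 1) → e ∈ T) :
    HoleA A c d K I (↑F : Set Edg) ↔ HoleA A c d K I (↑(F ∩ T) : Set Edg) := by
  constructor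
  · intro H s t h1 h2 h3 h4
    exact (loc_iff h c (hd.trans h1) h2 F T (hT s t h1 h2 h3 h4)).1 (H s t h1 h2 h3 h4)
  · intro H s t h1 h2 h3 h4
    exact (loc_iff h c (hd.trans h1) h2 F T (hT s t h1 h2 h3 h4)).2 (H s t h1 h2 h3 h4)

theorem rp_le {σ : ℝ} (hσ : 0 < σ) {x y k : ℝ} (hx : 0 ≤ x) (hk : 0 ≤ k) (hy : 0 ≤ y)
    (h : x ≤ k * y) : x ^ σ ≤ k ^ σ * y ^ σ := by
  rw [← Real.mul_rpow hk hy]
  exact Real.rpow_le_rpow hx h hσ.le

theorem t : S_A := by
  intro σ C hσ hC m
  suffices H : ∃ C' : ℝ, 1 ≤ C' ∧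
      ∀ A : ℤ × ℤ → ℕ → ℕ → Set Edg → Prop, IsArm σ C A → ∀ (c : ℤ × ℤ) (I : List (ℕ × ℕ)),
      I.length ≤ m → (∀ p ∈ I, p.1 ≤ p.2 ∧ p.2 ≤ 3 * p.1) → ∀ d K : ℕ, 1 ≤ d → d ≤ K →
      ∀ S : Finset Edg, blk c (K + 1) ⊆ S →
        PQ (1/2) S (fun F => HoleA A c d K I ↑F) ≤ C' * ((d : ℝ) / K) ^ σ by
    obtain ⟨C', h1, h2⟩ := H
    exact ⟨C', by linarith, h2⟩
  induction m with
  | zero =>
    refine ⟨max C 1, le_max_right _ _, ?_⟩
    intro A h c I hI _ d K hd hdK S hS
    have hI0 : I = [] := List.length_eq_zero_iff.1 (Nat.le_zero.1 hI)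
    subst hI0
    calc PQ (1/2) S (fun F => HoleA A c d K [] ↑F)
        ≤ PQ (1/2) S (fun F => A c d K ↑F) :=
          Pr_mono okh (fun F _ hF => hF d K le_rfl hdK le_rfl (by simp))
      _ ≤ C * ((d : ℝ) / K) ^ σ := h.bd c d K hd hdK S hS
      _ ≤ max C 1 * ((d : ℝ) / K) ^ σ :=
          mul_le_mul_of_nonneg_right (le_max_left _ _) (by positivity)
  | succ m ih =>
    obtain ⟨Cm, hCm, ih⟩ := ih
    have h71 : (1 : ℝ) ≤ (7 : ℝ) ^ σ := Real.one_le_rpow (by norm_num) hσ.le
    have hCC : Cm ≤ Cm ^ 2 := by nlinarith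
    have h1C : (1 : ℝ) ≤ Cm ^ 2 := by nlinarith
    refine ⟨Cm ^ 2 * 7 ^ σ, by nlinarith, ?_⟩
    intro A h c I hI hI3 d K hd hdK S hS
    have hK : (0 : ℝ) < K := by exact_mod_cast (hd.trans hdK)
    have hd0 : (0 : ℝ) < d := by exact_mod_cast hd
    have hq : (0 : ℝ) ≤ ((d : ℝ) / K) ^ σ := by positivity
    have hfin : Cm * ((d : ℝ) / K) ^ σ ≤ Cm ^ 2 * 7 ^ σ * ((d : ℝ) / K) ^ σ := by
      apply mul_le_mul_of_nonneg_right _ hq
      nlinarith
    match I, hI, hI3 with
    | [], hI, hI3 => exact (ih A h c [] (by simp) hI3 d K hd hdK S hS).trans hfin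
    | (al, be) :: I', hI, hI3 =>
      have hI' : I'.length ≤ m := by simpa using hI
      have hI3' : ∀ p ∈ I', p.1 ≤ p.2 ∧ p.2 ≤ 3 * p.1 := fun p hp => hI3 p (by simp [hp])
      obtain ⟨hab, hab3⟩ := hI3 (al, be) (by simp)
      simp only at hab hab3
      by_cases hcase : be < d ∨ K < al
      · refine le_trans (Pr_mono okh (fun F _ hF => ?_))
          ((ih A h c I' hI' hI3' d K hd hdK S hS).trans hfin)
        intro s t h1 h2 h3 h4
        apply hF s t h1 h2 h3
        intro p hp
        rcases List.mem_cons.1 hp with rfl | hp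
        · simp only
          omega
        · exact h4 p hp
      · push Not at hcase
        obtain ⟨hbd, haK⟩ := hcase
        by_cases had : al ≤ d
        · by_cases hbK : be + 1 ≤ K
          · have h5 : PQ (1/2) S (fun F => HoleA A c d K ((al, be) :: I') ↑F) ≤
                Cm * (((be + 1 : ℕ) : ℝ) / K) ^ σ := by
              refine le_trans (Pr_mono okh (fun F _ hF => ?_))
                (ih A h c I' hI' hI3' (be + 1) K (by omega) hbK S hS)
              intro s t h1 h2 h3 h4
              apply hF s t (by omega) h2 h3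
              intro p hp
              rcases List.mem_cons.1 hp with rfl | hp
              · simp only
                omega
              · exact h4 p hp
            have h6 : (((be + 1 : ℕ) : ℝ) / K) ^ σ ≤ 7 ^ σ * ((d : ℝ) / K) ^ σ := by
              apply rp_le hσ (by positivity) (by norm_num) (by positivity)
              rw [← mul_div_assoc]
              apply div_le_div_of_nonneg_right _ hK.le
              have : be + 1 ≤ 7 * d := by omega
              exact_mod_cast this
            calc PQ (1/2) S (fun F => HoleA A c d K ((al, be) :: I') ↑F)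
                ≤ Cm * (((be + 1 : ℕ) : ℝ) / K) ^ σ := h5
              _ ≤ Cm ^ 2 * (7 ^ σ * ((d : ℝ) / K) ^ σ) :=
                  mul_le_mul hCC h6 (by positivity) (by positivity)
              _ = _ := by ring
          · have h6 : (1 : ℝ) ^ σ ≤ 7 ^ σ * ((d : ℝ) / K) ^ σ := by
              apply rp_le hσ (by norm_num) (by norm_num) (by positivity)
              rw [← mul_div_assoc, le_div_iff₀ hK, one_mul]
              have : K ≤ 7 * d := by omega
              exact_mod_cast this
            rw [Real.one_rpow] at h6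
            calc PQ (1/2) S (fun F => HoleA A c d K ((al, be) :: I') ↑F)
                ≤ 1 := Pr_le_one okh _ _
              _ ≤ Cm ^ 2 * (7 ^ σ * ((d : ℝ) / K) ^ σ) := by nlinarith
              _ = _ := by ring
        · push Not at had
          have hal : (0 : ℝ) < ((al - 1 : ℕ) : ℝ) := by
            have : 0 < al - 1 := by omega
            exact_mod_cast this
          have hG1 : PQ (1/2) S (fun F => HoleA A c d (al - 1) I' ↑F) ≤
              Cm * ((d : ℝ) / ((al - 1 : ℕ) : ℝ)) ^ σ :=
            ih A h c I' hI' hI3' d (al - 1) hd (by omega) S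
              ((blk_mono c (by omega)).trans hS)
          have hsub1 : ∀ F : Finset Edg, HoleA A c d K ((al, be) :: I') ↑F →
              HoleA A c d (al - 1) I' ↑F := by
            intro F hF s t h1 h2 h3 h4
            apply hF s t h1 h2 (by omega)
            intro p hp
            rcases List.mem_cons.1 hp with rfl | hp
            · simp only
              omega
            · exact h4 p hp
          by_cases hbK : be + 1 ≤ K
          · have hG2 : PQ (1/2) S (fun F => HoleA A c (be + 1) K I' ↑F) ≤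
                Cm * (((be + 1 : ℕ) : ℝ) / K) ^ σ :=
              ih A h c I' hI' hI3' (be + 1) K (by omega) hbK S hS
            have hsub2 : ∀ F : Finset Edg, HoleA A c d K ((al, be) :: I') ↑F →
                HoleA A c (be + 1) K I' ↑F := by
              intro F hF s t h1 h2 h3 h4
              apply hF s t (by omega) h2 (by omega)
              intro p hp
              rcases List.mem_cons.1 hp with rfl | hp
              · simp only
                omega
              · exact h4 p hp
            have hind : Pr (fun _ => (1/2 : ℝ)) S (fun F => HoleA A c d (al - 1) I' ↑F ∧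
                HoleA A c (be + 1) K I' ↑F) =
                Pr (fun _ => (1/2 : ℝ)) S (fun F => HoleA A c d (al - 1) I' ↑F) *
                Pr (fun _ => (1/2 : ℝ)) S (fun F => HoleA A c (be + 1) K I' ↑F) := by
              apply Pr_indep (S := blk c al) (T := S \ blk c be)
                ((blk_mono c (by omega)).trans hS) Finset.sdiff_subset
              · rw [Finset.disjoint_left]
                intro e he he'
                exact (Finset.mem_sdiff.1 he').2 (blk_mono c hab he)
              · intro F _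
                apply hole_iff h c hd
                intro s t _ _ h3 _ e _ he _
                exact blk_mono c (by omega) he
              · intro F hF
                apply hole_iff h c (by omega)
                intro s t h1 _ _ _ e he _ he2
                exact Finset.mem_sdiff.2 ⟨hF he, fun h' => he2 (blk_mono c (by omega) h')⟩
            have h6 : ((d : ℝ) / ((al - 1 : ℕ) : ℝ) * (((be + 1 : ℕ) : ℝ) / K)) ^ σ ≤
                7 ^ σ * ((d : ℝ) / K) ^ σ := by
              apply rp_le hσ (by positivity) (by norm_num) (by positivity)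
              have h7 : ((be + 1 : ℕ) : ℝ) ≤ 7 * ((al - 1 : ℕ) : ℝ) := by
                have : be + 1 ≤ 7 * (al - 1) := by omega
                exact_mod_cast this
              rw [div_mul_div_comm, mul_div_assoc', div_le_div_iff₀ (by positivity) hK]
              calc (d : ℝ) * ((be + 1 : ℕ) : ℝ) * K
                  ≤ (d : ℝ) * (7 * ((al - 1 : ℕ) : ℝ)) * K := by
                    apply mul_le_mul_of_nonneg_right _ hK.le
                    exact mul_le_mul_of_nonneg_left h7 hd0.le
                _ = 7 * (d : ℝ) * (((al - 1 : ℕ) : ℝ) * K) := by ring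
            calc PQ (1/2) S (fun F => HoleA A c d K ((al, be) :: I') ↑F)
                ≤ Pr (fun _ => (1/2 : ℝ)) S (fun F => HoleA A c d (al - 1) I' ↑F ∧
                    HoleA A c (be + 1) K I' ↑F) :=
                  Pr_mono okh (fun F _ hF => ⟨hsub1 F hF, hsub2 F hF⟩)
              _ = _ := hind
              _ ≤ (Cm * ((d : ℝ) / ((al - 1 : ℕ) : ℝ)) ^ σ) *
                    (Cm * (((be + 1 : ℕ) : ℝ) / K) ^ σ) :=
                  mul_le_mul hG1 hG2 (Pr_nonneg okh _ _) (by positivity)
              _ = Cm ^ 2 * ((d : ℝ) / ((al - 1 : ℕ) : ℝ) * (((be + 1 : ℕ) : ℝ) / K)) ^ σ := by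
                  rw [Real.mul_rpow (by positivity) (by positivity)]
                  ring
              _ ≤ Cm ^ 2 * (7 ^ σ * ((d : ℝ) / K) ^ σ) :=
                  mul_le_mul_of_nonneg_left h6 (by positivity)
              _ = _ := by ring
          · have h6 : ((d : ℝ) / ((al - 1 : ℕ) : ℝ)) ^ σ ≤ 7 ^ σ * ((d : ℝ) / K) ^ σ := by
              apply rp_le hσ (by positivity) (by norm_num) (by positivity)
              rw [mul_div_assoc', div_le_div_iff₀ hal hK]
              have h7 : (K : ℝ) ≤ 7 * ((al - 1 : ℕ) : ℝ) := by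
                have : K ≤ 7 * (al - 1) := by omega
                exact_mod_cast this
              nlinarith
            calc PQ (1/2) S (fun F => HoleA A c d K ((al, be) :: I') ↑F)
                ≤ PQ (1/2) S (fun F => HoleA A c d (al - 1) I' ↑F) :=
                  Pr_mono okh (fun F _ hF => hsub1 F hF)
              _ ≤ Cm * ((d : ℝ) / ((al - 1 : ℕ) : ℝ)) ^ σ := hG1
              _ ≤ Cm ^ 2 * (7 ^ σ * ((d : ℝ) / K) ^ σ) :=
                  mul_le_mul hCC h6 (by positivity) (by positivity)
              _ = _ := by ring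

end Pool.Agent.N892.MA.A
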