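import Pool.Agent.N892.MA.Stm
import Pool.Agent.W347.DPAA
import Pool.Agent.W571.DPad
import Pool.Agent.W462.DPL.C
import Pool.Agent.TH990.FU.Dual

/-!
The arm events: four arms (double points) and three arms (boundary points).
-/

set_option autoImplicit false

namespace Pool.Agent.N892.MA

open H974 H12S H389NS H984P H984N MeasureTheory Filter Topology
open Pool.Agent.W92.DP Pool.Agent.W424.OD
open Pool.Agent.W571.DPad (dls_mem A4a_congr)

/-- Four arms. -/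
def Arm4 (c : ℤ × ℤ) (s t : ℕ) (F : Set Edg) : Prop := A4a c s t F ∨ A4d c s t F

/-- Three arms. -/
def Arm3 (c : ℤ × ℤ) (s t : ℕ) (F : Set Edg) : Prop := A3v c s t F ∨ A3v c s t (dl '' Fᶜ)

theorem dl_mem {c : ℤ × ℤ} {k : ℕ} {e : Edg} (he : e ∈ blk c k) : dl e ∈ blk c (k + 1) := by
  obtain ⟨x, y, _ | _⟩ := e
  · unfold blk at he ⊢
    rw [dl_f]
    simp only [mem_RE_false, mem_RE_true] at he ⊢
    push_cast
    omega
  · unfold blk at he ⊢
    rw [dl_t]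
    simp only [mem_RE_false, mem_RE_true] at he ⊢
    push_cast
    omega

theorem blk_mono {c : ℤ × ℤ} {k l : ℕ} (h : k ≤ l) : blk c k ⊆ blk c l := by
  unfold blk
  apply RE_subset <;> omega

theorem dual_loc {c : ℤ × ℤ} {s t : ℕ} (hs : 1 ≤ s) {F G : Set Edg}
    (h : F ∩ ↑(blk c (t + 1) \ blk c (s - 1)) = G ∩ ↑(blk c (t + 1) \ blk c (s - 1))) :
    (dl '' Fᶜ) ∩ ↑(blk c t \ blk c s) = (dl '' Gᶜ) ∩ ↑(blk c t \ blk c s) := by
  have key : ∀ g : Edg, dl g ∈ blk c t \ blk c s → (g ∈ F ↔ g ∈ G) := by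
    intro g hg
    rw [Finset.mem_sdiff] at hg
    have h1 : g ∈ blk c (t + 1) := by
      have := dls_mem hg.1
      rwa [Equiv.symm_apply_apply] at this
    have h2 : g ∉ blk c (s - 1) := by
      intro h3
      have h4 := dl_mem h3
      rw [Nat.sub_add_cancel hs] at h4
      exact hg.2 h4
    have h3 : g ∈ (↑(blk c (t + 1) \ blk c (s - 1)) : Set Edg) :=
      Finset.mem_coe.2 (Finset.mem_sdiff.2 ⟨h1, h2⟩)
    constructor
    · intro h4
      have : g ∈ F ∩ ↑(blk c (t + 1) \ blk c (s - 1)) := ⟨h4, h3⟩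
      rw [h] at this
      exact this.1
    · intro h4
      have : g ∈ G ∩ ↑(blk c (t + 1) \ blk c (s - 1)) := ⟨h4, h3⟩
      rw [← h] at this
      exact this.1
  ext e
  constructor
  · rintro ⟨⟨g, hg, rfl⟩, he⟩
    exact ⟨⟨g, fun h4 => hg ((key g (Finset.mem_coe.1 he)).2 h4), rfl⟩, he⟩
  · rintro ⟨⟨g, hg, rfl⟩, he⟩
    exact ⟨⟨g, fun h4 => hg ((key g (Finset.mem_coe.1 he)).1 h4), rfl⟩, he⟩

theorem prim_loc {c : ℤ × ℤ} {s t : ℕ} {F G : Set Edg}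
    (h : F ∩ ↑(blk c (t + 1) \ blk c (s - 1)) = G ∩ ↑(blk c (t + 1) \ blk c (s - 1))) :
    F ∩ ↑(blk c t \ blk c s) = G ∩ ↑(blk c t \ blk c s) := by
  have hsub : (↑(blk c t \ blk c s) : Set Edg) ⊆ ↑(blk c (t + 1) \ blk c (s - 1)) := by
    intro e he
    rw [Finset.mem_coe, Finset.mem_sdiff] at he ⊢
    exact ⟨blk_mono (Nat.le_succ t) he.1, fun h1 => he.2 (blk_mono (Nat.sub_le s 1) h1)⟩
  have e : ∀ H : Set Edg, H ∩ ↑(blk c t \ blk c s) =
      (H ∩ ↑(blk c (t + 1) \ blk c (s - 1))) ∩ ↑(blk c t \ blk c s) := by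
    intro H
    rw [Set.inter_assoc, Set.inter_eq_right.2 hsub]
  rw [e F, e G, h]

theorem A4a_loc {c : ℤ × ℤ} {s t : ℕ} {F G : Set Edg}
    (h : F ∩ ↑(blk c t \ blk c s) = G ∩ ↑(blk c t \ blk c s)) (hF : A4a c s t F) :
    A4a c s t G := by
  unfold A4a at hF ⊢
  rwa [← h]

theorem A3v_loc {c : ℤ × ℤ} {s t : ℕ} {F G : Set Edg}
    (h : F ∩ ↑(blk c t \ blk c s) = G ∩ ↑(blk c t \ blk c s)) (hF : A3v c s t F) :
    A3v c s t G := by
  unfold A3v Pool.Agent.W424.OD.Cl AE at hF ⊢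
  rwa [← h]

theorem isArm4 : ∃ C : ℝ, 0 < C ∧ IsArm (5/4) C Arm4 := by
  obtain ⟨Ca, hCa, hA⟩ := Pool.Agent.W347.DPAA.aa
  obtain ⟨Cd, hCd, hD⟩ := Pool.Agent.W571.DPad.ad Pool.Agent.W347.DPAA.aa
  refine ⟨Ca + Cd, by positivity, ?_, ?_⟩
  · intro c s t hs _ F G h hF
    rcases hF with hF | hF
    · exact Or.inl (A4a_loc (prim_loc h) hF)
    · exact Or.inr (A4a_loc (dual_loc hs h) hF)
  · intro c s t hs hst S hS
    have h1 := hA c s t hs hst S ((blk_mono (Nat.le_succ t)).trans hS)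
    have h2 := hD c s t hs hst S hS
    have hor := Pr_or_le Pool.Agent.W462.DPL.okh S (fun F => A4a c s t ↑F) (fun F => A4d c s t ↑F)
    have h3 : PQ (1/2) S (fun F => Arm4 c s t ↑F) ≤
        PQ (1/2) S (fun F => A4a c s t ↑F) + PQ (1/2) S (fun F => A4d c s t ↑F) := hor
    rw [add_mul]
    exact h3.trans (add_le_add h1 h2)

theorem isArm3 (hU : U3) : ∃ C : ℝ, 0 < C ∧ IsArm (2/3) C Arm3 := by
  obtain ⟨Ca, hCa, hA⟩ := hU
  obtain ⟨Cd, hCd, hD⟩ := Pool.Agent.TH990.FU.u3d ⟨Ca, hCa, hA⟩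
  refine ⟨Ca + Cd, by positivity, ?_, ?_⟩
  · intro c s t hs _ F G h hF
    rcases hF with hF | hF
    · exact Or.inl (A3v_loc (prim_loc h) hF)
    · exact Or.inr (A3v_loc (dual_loc hs h) hF)
  · intro c s t hs hst S hS
    have h1 := hA c s t hs hst S ((blk_mono (Nat.le_succ t)).trans hS)
    have h2 := hD c s t hs hst S hS
    have hor := Pr_or_le Pool.Agent.W462.DPL.okh S (fun F => A3v c s t ↑F)
      (fun F => A3v c s t (dl '' (↑F : Set Edg)ᶜ))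
    have h3 : PQ (1/2) S (fun F => Arm3 c s t ↑F) ≤
        PQ (1/2) S (fun F => A3v c s t ↑F) +
          PQ (1/2) S (fun F => A3v c s t (dl '' (↑F : Set Edg)ᶜ)) := hor
    rw [add_mul]
    exact h3.trans (add_le_add h1 h2)

end Pool.Agent.N892.MA
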