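import Pool.Agent.N892.MA.Stm

/-!
Project MA (helper892), MA/B: several points (helper273).
-/

set_option autoImplicit false

namespace Pool.Agent.N892.MA.B

open H974 H12S Pool.Agent.N892.MA

theorem okq : Ok (fun _ : Edg => (1 / 2 : ℝ)) := fun _ => by constructor <;> norm_num

theorem nd_comm (c b : ℤ × ℤ) : nd c b = nd b c := by
  unfold nd
  omega

/-- the forbidden intervals -/
def II (J : List ((ℤ × ℤ) × ℕ)) (c : ℤ × ℤ) : List (ℕ × ℕ) :=
  J.map fun p => (nd c p.1 - p.2 - 3, nd c p.1 + p.2 + 3)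

theorem exQ {α : Type} (K : ℕ) (g : α → ℕ) (l : List α) :
    ∃ q, q ≤ K ∧ (∀ b ∈ l, q ≤ g b) ∧ (q = K ∨ ∃ b ∈ l, q = g b) := by
  induction l with
  | nil => exact ⟨K, le_rfl, by simp, Or.inl rfl⟩
  | cons a l ih =>
    obtain ⟨q, h1, h2, h3⟩ := ih
    by_cases h : q ≤ g a
    · refine ⟨q, h1, ?_, ?_⟩
      · intro b hb
        rcases List.mem_cons.1 hb with rfl | hb
        · exact h
        · exact h2 b hb
      · rcases h3 with h3 | ⟨b, hb, h3⟩
        · exact Or.inl h3
        · exact Or.inr ⟨b, List.mem_cons_of_mem _ hb, h3⟩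
    · refine ⟨g a, by omega, ?_, Or.inr ⟨a, List.mem_cons_self, rfl⟩⟩
      intro b hb
      rcases List.mem_cons.1 hb with rfl | hb
      · exact le_rfl
      · have := h2 b hb
        omega

theorem sum_ge {α : Type} (g : α → ℝ) (hg : ∀ a, 0 ≤ g a) (l : List α) {b : α} (hb : b ∈ l) :
    g b ≤ (l.map g).sum := by
  induction l with
  | nil => simp at hb
  | cons a l ih =>
    have h0 : 0 ≤ (l.map g).sum := List.sum_nonneg (by
      intro x hx
      obtain ⟨y, -, rfl⟩ := List.mem_map.1 hx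
      exact hg y)
    rw [List.map_cons, List.sum_cons]
    rcases List.mem_cons.1 hb with rfl | hb
    · linarith
    · have := ih hb
      linarith [hg a]

theorem sum_nn {α : Type} (g : α → ℝ) (hg : ∀ a, 0 ≤ g a) (l : List α) :
    0 ≤ (l.map g).sum := List.sum_nonneg (by
      intro x hx
      obtain ⟨y, -, rfl⟩ := List.mem_map.1 hx
      exact hg y)

theorem wt_nn (σ : ℝ) (d K : ℕ) (l : List (ℤ × ℤ)) : 0 ≤ wt σ d K l := by
  induction l with
  | nil => exact zero_le_one
  | cons c l ih =>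
    unfold wt
    refine mul_nonneg (add_nonneg (by positivity) (sum_nn _ (fun b => ?_) l)) ih
    positivity

theorem blk_mono (c : ℤ × ℤ) {a b : ℕ} (h : a ≤ b) : blk c a ⊆ blk c b := by
  unfold blk
  apply RE_subset <;> omega

/-- disjoint blocks -/
theorem blk_disj {c c' : ℤ × ℤ} {a b : ℕ} (h : a + b < nd c' c) {e : Edg} (he : e ∈ blk c' a) :
    e ∉ blk c b := by
  intro he'
  unfold nd at h
  obtain ⟨x, y, _ | _⟩ := e
  · unfold blk at he he'
    rw [mem_RE_false] at he he'
    omega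
  · unfold blk at he he'
    rw [mem_RE_true] at he he'
    omega

theorem blk_sub {c c' : ℤ × ℤ} {a b : ℕ} (h : nd c' c + b ≤ a) : blk c b ⊆ blk c' a := by
  unfold nd at h
  unfold blk
  apply RE_subset <;> omega

/-- the event of one point depends on the edges of the large block -/
theorem loc1 {σ C : ℝ} {A : ℤ × ℤ → ℕ → ℕ → Set Edg → Prop} (hA : IsArm σ C A) (c : ℤ × ℤ)
    {d ρ : ℕ} (hd : 1 ≤ d) (I : List (ℕ × ℕ)) (F : Finset Edg) :
    HoleA A c d ρ I ↑F ↔ HoleA A c d ρ I ↑(F ∩ blk c (ρ + 1)) := by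
  have key : ∀ s t : ℕ, t ≤ ρ → (↑F : Set Edg) ∩ ↑(blk c (t + 1) \ blk c (s - 1)) =
      (↑(F ∩ blk c (ρ + 1)) : Set Edg) ∩ ↑(blk c (t + 1) \ blk c (s - 1)) := by
    intro s t ht
    have hsub : blk c (t + 1) ⊆ blk c (ρ + 1) := blk_mono c (by omega)
    ext e
    simp only [Set.mem_inter_iff, Finset.mem_coe, Finset.mem_inter, Finset.mem_sdiff]
    constructor
    · rintro ⟨h1, h2, h3⟩
      exact ⟨⟨h1, hsub h2⟩, h2, h3⟩
    · rintro ⟨⟨h1, -⟩, h2, h3⟩
      exact ⟨h1, h2, h3⟩
  constructor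
  · intro h s t h1 h2 h3 h4
    exact hA.loc c s t (hd.trans h1) h2 _ _ (key s t h3) (h s t h1 h2 h3 h4)
  · intro h s t h1 h2 h3 h4
    exact hA.loc c s t (hd.trans h1) h2 _ _ (key s t h3).symm (h s t h1 h2 h3 h4)

/-- the event of another point, outside of the box of radius `ρ + 1` -/
theorem loc2 {σ C : ℝ} {A : ℤ × ℤ → ℕ → ℕ → Set Edg → Prop} (hA : IsArm σ C A) (c c' : ℤ × ℤ)
    {d K ρ : ℕ} (hd : 1 ≤ d) (J : List ((ℤ × ℤ) × ℕ)) {S F : Finset Edg} (hF : F ⊆ S) :
    HoleA A c' d K (II ((c, ρ) :: J) c') ↑F ↔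
      HoleA A c' d K (II ((c, ρ) :: J) c') ↑(F ∩ (S \ blk c (ρ + 1))) := by
  have key : ∀ s t : ℕ, (∀ p ∈ II ((c, ρ) :: J) c', t < p.1 ∨ p.2 < s) →
      (↑F : Set Edg) ∩ ↑(blk c' (t + 1) \ blk c' (s - 1)) =
      (↑(F ∩ (S \ blk c (ρ + 1))) : Set Edg) ∩ ↑(blk c' (t + 1) \ blk c' (s - 1)) := by
    intro s t h
    have h0 := h (nd c' c - ρ - 3, nd c' c + ρ + 3) (by
      unfold II
      rw [List.map_cons]
      exact List.mem_cons_self)
    simp only at h0
    ext e
    simp only [Set.mem_inter_iff, Finset.mem_coe, Finset.mem_inter, Finset.mem_sdiff]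
    constructor
    · rintro ⟨h1, h2, h3⟩
      refine ⟨⟨h1, hF h1, ?_⟩, h2, h3⟩
      rcases h0 with h0 | h0
      · exact blk_disj (by omega) h2
      · intro h4
        exact h3 (blk_sub (a := s - 1) (by omega) h4)
    · rintro ⟨⟨h1, -⟩, h2, h3⟩
      exact ⟨h1, h2, h3⟩
  constructor
  · intro h s t h1 h2 h3 h4
    exact hA.loc c' s t (hd.trans h1) h2 _ _ (key s t h4) (h s t h1 h2 h3 h4)
  · intro h s t h1 h2 h3 h4
    exact hA.loc c' s t (hd.trans h1) h2 _ _ (key s t h4).symm (h s t h1 h2 h3 h4)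

theorem gen (h : S_A) (σ C : ℝ) (hσ : 0 < σ) (hC : 0 < C) : ∀ k j : ℕ, ∃ C' : ℝ, 0 < C' ∧
    ∀ A : ℤ × ℤ → ℕ → ℕ → Set Edg → Prop, IsArm σ C A → ∀ l : List (ℤ × ℤ), l.length = k →
    ∀ J : List ((ℤ × ℤ) × ℕ), J.length ≤ j → (∀ c ∈ l, ∀ p ∈ J, 4 * (p.2 + 3) ≤ nd c p.1) →
    ∀ d K : ℕ, 1 ≤ d → d ≤ K → ∀ S : Finset Edg, (∀ c ∈ l, blk c (K + 1) ⊆ S) →
      PQ (1/2) S (fun F => ∀ c ∈ l, HoleA A c d K (II J c) ↑F) ≤ C' * wt σ d K l := by
  intro k
  induction k with
  | zero =>
    intro j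
    refine ⟨1, one_pos, ?_⟩
    intro A _ l hl J _ _ d K _ _ S _
    rw [List.length_eq_zero_iff.1 hl]
    have : wt σ d K [] = 1 := rfl
    rw [this, mul_one]
    exact Pr_le_one okq S _
  | succ k ih =>
    intro j
    obtain ⟨C0, hC0, H0⟩ := ih j
    obtain ⟨C1, hC1, H1⟩ := ih (j + 1)
    obtain ⟨CA, hCA, HA⟩ := h σ C hσ hC j
    refine ⟨C0 * 16 ^ σ + CA * 20 ^ σ * C1, by positivity, ?_⟩
    intro A hA l hl J hJ hJ2 d K hd hdK S hS
    obtain ⟨c, l', rfl⟩ : ∃ c l', l = c :: l' := by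
      cases l with
      | nil => simp at hl
      | cons c l' => exact ⟨c, l', rfl⟩
    have hl' : l'.length = k := by simpa using hl
    have hdR : (0 : ℝ) < d := by exact_mod_cast hd
    have hKR : (0 : ℝ) < K := by exact_mod_cast hd.trans hdK
    obtain ⟨Q, hQ1, hQ2, hQ3⟩ := exQ K (nd c) l'
    set f : ℝ := ((d : ℝ) / K) ^ σ + (l'.map fun b => ((d : ℝ) / (max d (nd c b) : ℕ)) ^ σ).sum
      with hf
    have hwt : wt σ d K (c :: l') = f * wt σ d K l' := rfl
    have hgn : ∀ b : ℤ × ℤ, 0 ≤ ((d : ℝ) / (max d (nd c b) : ℕ)) ^ σ := fun b => by positivity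
    have hf0 : 0 ≤ f := add_nonneg (by positivity) (sum_nn _ hgn l')
    have hw0 := wt_nn σ d K l'
    rw [hwt]
    by_cases hQd : Q < 16 * d
    · -- the point is close to another one, or the scale is small
      have hf16 : (1 / 16 : ℝ) ^ σ ≤ f := by
        rcases hQ3 with hQ3 | ⟨b, hb, hQ3⟩
        · have h1 : (1 / 16 : ℝ) ≤ (d : ℝ) / K := by
            rw [div_le_div_iff₀ (by norm_num) hKR]
            have : (K : ℝ) ≤ 16 * d := by
              have : K ≤ 16 * d := by omega
              exact_mod_cast this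
            linarith
          have h2 := Real.rpow_le_rpow (by norm_num) h1 hσ.le
          have h3 := sum_nn _ hgn l'
          rw [hf]
          linarith
        · have hmR : (0 : ℝ) < ((max d (nd c b) : ℕ) : ℝ) := by
            have : 0 < max d (nd c b) := by omega
            exact_mod_cast this
          have h1 : (1 / 16 : ℝ) ≤ (d : ℝ) / (max d (nd c b) : ℕ) := by
            rw [div_le_div_iff₀ (by norm_num) hmR]
            have : (((max d (nd c b) : ℕ)) : ℝ) ≤ 16 * d := by
              have : max d (nd c b) ≤ 16 * d := by omega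
              exact_mod_cast this
            linarith
          have h2 := Real.rpow_le_rpow (by norm_num) h1 hσ.le
          have h3 := sum_ge _ hgn l' hb
          have h4 : 0 ≤ ((d : ℝ) / K) ^ σ := by positivity
          rw [hf]
          linarith
      have h1 : PQ (1/2) S (fun F => ∀ c' ∈ c :: l', HoleA A c' d K (II J c') ↑F) ≤
          PQ (1/2) S (fun F => ∀ c' ∈ l', HoleA A c' d K (II J c') ↑F) :=
        Pr_mono okq fun F _ hF c' hc' => hF c' (List.mem_cons_of_mem _ hc')
      have h2 := H0 A hA l' hl' J hJ (fun c' hc' => hJ2 c' (List.mem_cons_of_mem _ hc')) d K hd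
        hdK S (fun c' hc' => hS c' (List.mem_cons_of_mem _ hc'))
      have h3 : (1 : ℝ) ≤ 16 ^ σ * f := by
        have h4 : (16 : ℝ) ^ σ * (1 / 16 : ℝ) ^ σ = 1 := by
          rw [← Real.mul_rpow (by norm_num) (by norm_num)]
          norm_num
        calc (1 : ℝ) = (16 : ℝ) ^ σ * (1 / 16 : ℝ) ^ σ := h4.symm
          _ ≤ 16 ^ σ * f := by gcongr
      refine (h1.trans h2).trans ?_
      have h5 : C0 * wt σ d K l' * 1 ≤ C0 * wt σ d K l' * (16 ^ σ * f) :=
        mul_le_mul_of_nonneg_left h3 (by positivity)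
      have h6 : 0 ≤ CA * 20 ^ σ * C1 * (f * wt σ d K l') := by positivity
      nlinarith
    · -- the point is far from the other ones
      push Not at hQd
      obtain ⟨ρ, hρ⟩ : ∃ ρ : ℕ, ρ = Q / 4 - 3 := ⟨_, rfl⟩
      have r1 : d ≤ ρ := by omega
      have r2 : ρ ≤ K := by omega
      have r3 : Q ≤ 20 * ρ := by omega
      have r4 : 4 * (ρ + 3) ≤ Q := by omega
      have hρR : (0 : ℝ) < ρ := by
        have : 0 < ρ := by omega
        exact_mod_cast this
      have hQR : (0 : ℝ) < Q := by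
        have : 0 < Q := by omega
        exact_mod_cast this
      have hbS : blk c (ρ + 1) ⊆ S :=
        (blk_mono c (by omega)).trans (hS c List.mem_cons_self)
      -- one point
      have e1 : PQ (1/2) S (fun F => HoleA A c d ρ (II J c) ↑F) ≤ CA * ((d : ℝ) / ρ) ^ σ := by
        refine HA A hA c (II J c) ?_ ?_ d ρ hd r1 S hbS
        · unfold II
          rw [List.length_map]
          exact hJ
        · intro p hp
          unfold II at hp
          obtain ⟨q, hq, rfl⟩ := List.mem_map.1 hp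
          have := hJ2 c List.mem_cons_self q hq
          simp only
          omega
      have e2 : ((d : ℝ) / ρ) ^ σ ≤ 20 ^ σ * f := by
        have h1 : (d : ℝ) / ρ ≤ 20 * ((d : ℝ) / Q) := by
          rw [← mul_div_assoc, div_le_div_iff₀ hρR hQR]
          have : (Q : ℝ) ≤ 20 * ρ := by exact_mod_cast r3
          nlinarith
        have h2 : ((d : ℝ) / ρ) ^ σ ≤ (20 * ((d : ℝ) / Q)) ^ σ :=
          Real.rpow_le_rpow (by positivity) h1 hσ.le
        rw [Real.mul_rpow (by norm_num) (by positivity)] at h2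
        have h3 : ((d : ℝ) / Q) ^ σ ≤ f := by
          rcases hQ3 with hQ3 | ⟨b, hb, hQ3⟩
          · have := sum_nn _ hgn l'
            rw [hf, hQ3]
            linarith
          · have h4 := sum_ge _ hgn l' hb
            have h5 : max d (nd c b) = Q := by omega
            rw [h5] at h4
            have h6 : 0 ≤ ((d : ℝ) / K) ^ σ := by positivity
            rw [hf]
            linarith
        refine h2.trans ?_
        gcongr
      -- the other points
      have e3 : PQ (1/2) S (fun F => ∀ c' ∈ l', HoleA A c' d K (II ((c, ρ) :: J) c') ↑F) ≤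
          C1 * wt σ d K l' := by
        refine H1 A hA l' hl' ((c, ρ) :: J) (by simpa using hJ) ?_ d K hd hdK S
          (fun c' hc' => hS c' (List.mem_cons_of_mem _ hc'))
        intro c' hc' p hp
        rcases List.mem_cons.1 hp with rfl | hp
        · show 4 * (ρ + 3) ≤ nd c' c
          rw [nd_comm]
          exact r4.trans (hQ2 c' hc')
        · exact hJ2 c' (List.mem_cons_of_mem _ hc') p hp
      have e4 : PQ (1/2) S (fun F => ∀ c' ∈ c :: l', HoleA A c' d K (II J c') ↑F) ≤
          PQ (1/2) S (fun F => HoleA A c d ρ (II J c) ↑F ∧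
            ∀ c' ∈ l', HoleA A c' d K (II ((c, ρ) :: J) c') ↑F) := by
        refine Pr_mono okq fun F _ hF => ⟨?_, ?_⟩
        · intro s t h1 h2 h3 h4
          exact hF c List.mem_cons_self s t h1 h2 (h3.trans r2) h4
        · intro c' hc' s t h1 h2 h3 h4
          refine hF c' (List.mem_cons_of_mem _ hc') s t h1 h2 h3 fun p hp => h4 p ?_
          unfold II at hp ⊢
          rw [List.map_cons]
          exact List.mem_cons_of_mem _ hp
      have e5 : PQ (1/2) S (fun F => HoleA A c d ρ (II J c) ↑F ∧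
            ∀ c' ∈ l', HoleA A c' d K (II ((c, ρ) :: J) c') ↑F) =
          PQ (1/2) S (fun F => HoleA A c d ρ (II J c) ↑F) *
          PQ (1/2) S (fun F => ∀ c' ∈ l', HoleA A c' d K (II ((c, ρ) :: J) c') ↑F) := by
        refine Pr_indep hbS (Finset.sdiff_subset (s := S) (t := blk c (ρ + 1)))
          Finset.disjoint_sdiff ?_ ?_
        · intro F _
          exact loc1 hA c hd _ F
        · intro F hF
          constructor
          · intro hh c' hc'
            exact (loc2 hA c c' hd J hF).1 (hh c' hc')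
          · intro hh c' hc'
            exact (loc2 hA c c' hd J hF).2 (hh c' hc')
      rw [e5] at e4
      refine e4.trans ?_
      have n1 : 0 ≤ PQ (1/2) S (fun F => ∀ c' ∈ l', HoleA A c' d K (II ((c, ρ) :: J) c') ↑F) :=
        Pr_nonneg okq S _
      calc PQ (1/2) S (fun F => HoleA A c d ρ (II J c) ↑F) *
          PQ (1/2) S (fun F => ∀ c' ∈ l', HoleA A c' d K (II ((c, ρ) :: J) c') ↑F)
          ≤ (CA * (20 ^ σ * f)) * (C1 * wt σ d K l') := by
            refine mul_le_mul (e1.trans (mul_le_mul_of_nonneg_left e2 hCA.le)) e3 n1 (by positivity)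
        _ = CA * 20 ^ σ * C1 * (f * wt σ d K l') := by ring
        _ ≤ (C0 * 16 ^ σ + CA * 20 ^ σ * C1) * (f * wt σ d K l') := by
            apply mul_le_mul_of_nonneg_right _ (by positivity)
            have : 0 ≤ C0 * 16 ^ σ := by positivity
            linarith

theorem t (h : S_A) : S_B := by
  intro σ C hσ hC k
  obtain ⟨C', hC', H⟩ := gen h σ C hσ hC k 0
  refine ⟨C', hC', ?_⟩
  intro A hA l hl d K hd hdK S hS
  exact H A hA l hl [] (by simp) (by simp) d K hd hdK S hS

end Pool.Agent.N892.MA.B
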