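import Pool.Agent.N892.MA.Stm

/-!
# MA/C: moment inequality for a sum of indicators
-/

set_option autoImplicit false

namespace Pool.Agent.N892.MA.C

open MeasureTheory Filter Topology
open Pool.Agent.N892.MA

/-- Sums over the lists of length `k` of elements of `Y`. -/
noncomputable def Sk {ι R : Type} [AddCommMonoid R] (Y : Finset ι) : ℕ → (List ι → R) → R
  | 0, G => G []
  | k + 1, G => ∑ y ∈ Y, Sk Y k (fun l => G (y :: l))

lemma Sk_mul {ι R : Type} [CommSemiring R] (Y : Finset ι) (k : ℕ) :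
    ∀ (G : List ι → R) (c : R), Sk Y k (fun l => c * G l) = c * Sk Y k G := by
  induction k with
  | zero => intro G c; rfl
  | succ k ih =>
    intro G c
    rw [Sk, Sk, Finset.mul_sum]
    exact Finset.sum_congr rfl fun y _ => ih _ _

lemma Sk_sum {ι κ R : Type} [AddCommMonoid R] (Y : Finset ι) (Z : Finset κ) (k : ℕ) :
    ∀ (G : κ → List ι → R), Sk Y k (fun l => ∑ z ∈ Z, G z l) = ∑ z ∈ Z, Sk Y k (G z) := by
  induction k with
  | zero => intro G; rfl
  | succ k ih =>
    intro G
    rw [Sk]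
    have h : ∀ z, Sk Y (k + 1) (G z) = ∑ y ∈ Y, Sk Y k (fun l => G z (y :: l)) := fun z => rfl
    simp only [h]
    rw [Finset.sum_comm]
    exact Finset.sum_congr rfl fun y _ => ih _

lemma Sk_mono {ι R : Type} [AddCommMonoid R] [PartialOrder R] [IsOrderedAddMonoid R]
    (Y : Finset ι) (k : ℕ) : ∀ (G H : List ι → R),
    (∀ l : List ι, l.length = k → (∀ y ∈ l, y ∈ Y) → G l ≤ H l) → Sk Y k G ≤ Sk Y k H := by
  induction k with
  | zero => intro G H h; exact h [] rfl (by simp)
  | succ k ih =>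
    intro G H h
    rw [Sk, Sk]
    refine Finset.sum_le_sum fun y hy => ih _ _ fun l hl hY => h _ (by simp [hl]) ?_
    intro z hz
    rcases List.mem_cons.1 hz with rfl | hz
    · exact hy
    · exact hY z hz

lemma Sk_map {ι R R' : Type} [AddCommMonoid R] [AddCommMonoid R'] (Y : Finset ι)
    (f : R → R') (k : ℕ) (P : R → Prop) (hf : ∀ s : Finset ι, ∀ g : ι → R, (∀ y ∈ s, P (g y)) →
      f (∑ y ∈ s, g y) = ∑ y ∈ s, f (g y))
    (hP : ∀ s : Finset ι, ∀ g : ι → R, (∀ y ∈ s, P (g y)) → P (∑ y ∈ s, g y)) :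
    ∀ G : List ι → R, (∀ l, P (G l)) → P (Sk Y k G) ∧ f (Sk Y k G) = Sk Y k (fun l => f (G l)) := by
  induction k with
  | zero => intro G hG; exact ⟨hG [], rfl⟩
  | succ k ih =>
    intro G hG
    refine ⟨hP _ _ fun y _ => (ih _ fun l => hG _).1, ?_⟩
    rw [Sk, hf _ _ fun y _ => (ih _ fun l => hG _).1]
    exact Finset.sum_congr rfl fun y _ => (ih _ fun l => hG _).2

/-- The total weight. -/
lemma Sk_wl {ι : Type} (Y : Finset ι) (α M : ℝ) (m : ι → ι → ℝ) (hα : 0 ≤ α) (hM : 0 < M)
    (hm : ∀ y u, 0 ≤ m y u) (h1 : ∀ u ∈ Y, ∑ y ∈ Y, m y u ≤ M) (h2 : Y.card * α ≤ M) :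
    ∀ j : ℕ, Sk Y j (wl α m) ≤ ((j : ℝ) + 1) ^ j * M ^ j := by
  have hw : ∀ l : List ι, 0 ≤ wl α m l := by
    intro l
    induction l with
    | nil => exact zero_le_one
    | cons y l ih =>
      rw [wl]
      refine mul_nonneg (add_nonneg hα (List.sum_nonneg ?_)) ih
      intro x hx
      obtain ⟨b, _, rfl⟩ := List.mem_map.1 hx
      exact hm _ _
  have hs : ∀ l : List ι, (∀ y ∈ l, y ∈ Y) →
      ∑ y ∈ Y, (α + (l.map (m y)).sum) ≤ M + l.length * M := by
    intro l
    induction l with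
    | nil =>
      intro _
      simpa using h2
    | cons b l ih =>
      intro hl
      have h3 := ih fun y hy => hl y (List.mem_cons_of_mem _ hy)
      have h4 := h1 b (hl b (List.mem_cons_self ..))
      have h5 : ∑ y ∈ Y, (α + ((b :: l).map (m y)).sum) =
          ∑ y ∈ Y, (α + (l.map (m y)).sum) + ∑ y ∈ Y, m y b := by
        rw [← Finset.sum_add_distrib]
        refine Finset.sum_congr rfl fun y _ => ?_
        rw [List.map_cons, List.sum_cons]
        ring
      rw [h5, List.length_cons]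
      push_cast
      linarith
  have key : ∀ j : ℕ, Sk Y (j + 1) (wl α m) ≤ ((j : ℝ) + 1) * M * Sk Y j (wl α m) := by
    intro j
    have e1 : Sk Y (j + 1) (wl α m) =
        Sk Y j (fun l => ∑ y ∈ Y, ((α + (l.map (m y)).sum) * wl α m l)) := by
      rw [Sk_sum, Sk]
      rfl
    rw [e1, ← Sk_mul]
    refine Sk_mono _ _ _ _ fun l hl hY => ?_
    rw [← Finset.sum_mul]
    refine mul_le_mul_of_nonneg_right ?_ (hw l)
    have := hs l hY
    rw [hl] at this
    linarith
  have hpos : ∀ j : ℕ, 0 ≤ Sk Y j (wl α m) := by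
    intro j
    have h3 := Sk_mono Y j (fun _ => (0 : ℝ)) (wl α m) fun l _ _ => hw l
    have h4 : Sk Y j (fun _ => (0 : ℝ)) = 0 := by
      have := Sk_mul Y j (fun _ => (0 : ℝ)) 0
      simpa using this
    linarith
  have key2 : ∀ k j : ℕ, j ≤ k → Sk Y j (wl α m) ≤ ((k : ℝ) + 1) ^ j * M ^ j := by
    intro k j
    induction j with
    | zero => intro _; simp [Sk, wl]
    | succ j ih =>
      intro hj
      have h3 := ih (by omega)
      have h4 := key j
      have h5 : (j : ℝ) + 1 ≤ k := by exact_mod_cast hj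
      have h6 : ((j : ℝ) + 1) * M * Sk Y j (wl α m) ≤ ((k : ℝ) + 1) * M *
          (((k : ℝ) + 1) ^ j * M ^ j) := by
        refine mul_le_mul (mul_le_mul_of_nonneg_right (by linarith) hM.le) h3 (hpos j) ?_
        positivity
      calc _ ≤ _ := h4
        _ ≤ _ := h6
        _ = _ := by ring
  intro j
  exact key2 j j le_rfl

open Classical in
/-- The power of the number of points. -/
lemma pow_card {ι Ω : Type} (Y : Finset ι) (E : ι → Set Ω) (ω : Ω) (k : ℕ) :
    (((Y.filter fun y => ω ∈ E y).card : ENNReal)) ^ k =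
      Sk Y k (fun l => if ∀ y ∈ l, ω ∈ E y then (1 : ENNReal) else 0) := by
  induction k with
  | zero => simp [Sk]
  | succ k ih =>
    rw [pow_succ, mul_comm, ih, Sk]
    have h1 : ((Y.filter fun y => ω ∈ E y).card : ENNReal) =
        ∑ y ∈ Y, if ω ∈ E y then (1 : ENNReal) else 0 := by
      rw [Finset.sum_boole]
    rw [h1, Finset.sum_mul]
    refine Finset.sum_congr rfl fun y _ => ?_
    rw [← Sk_mul]
    congr 1
    funext l
    by_cases h2 : ω ∈ E y
    · by_cases h3 : ∀ y ∈ l, ω ∈ E y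
      · rw [if_pos h2, if_pos h3, if_pos (by simpa using ⟨h2, h3⟩), one_mul]
      · rw [if_neg h3, mul_zero, if_neg (fun h => h3 (by
          intro z hz; exact h z (List.mem_cons_of_mem _ hz)))]
    · rw [if_neg h2, zero_mul, if_neg (fun h => h2 (h y (List.mem_cons_self ..)))]

/-- **MA/C**: moments. -/
theorem t : S_C := by
  classical
  intro Ω _ μ _ ι Y E k C α M m hE hC hα hM hm hk h1 h2 t ht
  have hmE : ∀ l : List ι, MeasurableSet {ω | ∀ y ∈ l, ω ∈ E y} := by
    intro l
    induction l with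
    | nil => simp
    | cons y l ih =>
      have : {ω | ∀ z ∈ y :: l, ω ∈ E z} = E y ∩ {ω | ∀ z ∈ l, ω ∈ E z} := by
        ext ω
        simp
      rw [this]
      exact (hE y).inter ih
  let N : Ω → ENNReal := fun ω => ((Y.filter fun y => ω ∈ E y).card : ENNReal) ^ k
  have hN : ∀ ω, N ω = Sk Y k (fun l => if ∀ y ∈ l, ω ∈ E y then (1 : ENNReal) else 0) :=
    fun ω => pow_card Y E ω k
  let G : List ι → Ω → ENNReal := fun l ω => if ∀ y ∈ l, ω ∈ E y then 1 else 0
  have hG : ∀ l, Measurable (G l) := fun l =>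
    Measurable.ite (hmE l) measurable_const measurable_const
  have hSk : ∀ (j : ℕ) (H : List ι → Ω → ENNReal) (ω : Ω), (Sk Y j H) ω =
      Sk Y j (fun l => H l ω) := by
    intro j
    induction j with
    | zero => intro H ω; rfl
    | succ j ih =>
      intro H ω
      rw [Sk, Sk, Finset.sum_apply]
      exact Finset.sum_congr rfl fun y _ => ih _ _
  have hNG : N = Sk Y k G := by
    funext ω
    rw [hN, hSk]
  have hint := Sk_map Y (fun f : Ω → ENNReal => ∫⁻ ω, f ω ∂μ) k Measurable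
    (fun s g hg => by
      have := lintegral_finsetSum (μ := μ) s (f := g) hg
      simpa [Finset.sum_apply] using this)
    (fun s g hg => by
      convert Finset.measurable_sum s hg using 1
      funext a
      rw [Finset.sum_apply]) G hG
  have hGint : ∀ l, ∫⁻ ω, G l ω ∂μ = μ {ω | ∀ y ∈ l, ω ∈ E y} := by
    intro l
    have : G l = Set.indicator {ω | ∀ y ∈ l, ω ∈ E y} 1 := by
      funext ω
      rw [Set.indicator_apply]
      rfl
    rw [this, lintegral_indicator_one (hmE l)]
  have hb : ∫⁻ ω, N ω ∂μ ≤ ENNReal.ofReal (C * (((k : ℝ) + 1) ^ k * M ^ k)) := by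
    rw [hNG]
    have h3 := hint.2
    simp only [hGint] at h3
    rw [h3]
    have hw : ∀ l : List ι, 0 ≤ C * wl α m l := by
      intro l
      refine mul_nonneg hC ?_
      induction l with
      | nil => exact zero_le_one
      | cons y l ih =>
        rw [wl]
        refine mul_nonneg (add_nonneg hα (List.sum_nonneg ?_)) ih
        intro x hx
        obtain ⟨b, _, rfl⟩ := List.mem_map.1 hx
        exact hm _ _
    have h4 := Sk_mono Y k (fun l => μ {ω | ∀ y ∈ l, ω ∈ E y})
      (fun l => ENNReal.ofReal (C * wl α m l)) (fun l hl hY => hk l hl hY)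
    refine h4.trans ?_
    have h5 := (Sk_map Y ENNReal.ofReal k (fun x : ℝ => 0 ≤ x)
      (fun s g hg => ENNReal.ofReal_sum_of_nonneg hg)
      (fun s g hg => Finset.sum_nonneg hg) (fun l => C * wl α m l) hw).2
    rw [← h5, Sk_mul]
    exact ENNReal.ofReal_le_ofReal (mul_le_mul_of_nonneg_left
      (Sk_wl Y α M m hα hM hm h1 h2 k) hC)
  have htM : 0 < t * M := mul_pos ht hM
  have hsub : {ω | t * M < ((Y.filter fun y => ω ∈ E y).card : ℝ)} ⊆
      {ω | ENNReal.ofReal ((t * M) ^ k) ≤ N ω} := by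
    intro ω hω
    change ENNReal.ofReal ((t * M) ^ k) ≤ ((Y.filter fun y => ω ∈ E y).card : ENNReal) ^ k
    have h3 : ((Y.filter fun y => ω ∈ E y).card : ENNReal) =
        ENNReal.ofReal ((Y.filter fun y => ω ∈ E y).card : ℝ) := by
      rw [ENNReal.ofReal_natCast]
    rw [h3, ← ENNReal.ofReal_pow (Nat.cast_nonneg _)]
    refine ENNReal.ofReal_le_ofReal (pow_le_pow_left₀ htM.le ?_ k)
    have h4 : t * M < ((Y.filter fun y => ω ∈ E y).card : ℝ) := hω
    exact h4.le
  have hmark : μ {ω | ENNReal.ofReal ((t * M) ^ k) ≤ N ω} ≤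
      (∫⁻ ω, N ω ∂μ) / ENNReal.ofReal ((t * M) ^ k) := by
    refine meas_ge_le_lintegral_div ?_ ?_ ENNReal.ofReal_ne_top
    · rw [hNG]
      exact hint.1.aemeasurable
    · rw [ne_eq, ENNReal.ofReal_eq_zero, not_le]
      positivity
  have hfin : ENNReal.ofReal (C * (((k : ℝ) + 1) ^ k * M ^ k)) / ENNReal.ofReal ((t * M) ^ k) =
      ENNReal.ofReal (C * (k + 1) ^ k * (1 / t) ^ k) := by
    rw [← ENNReal.ofReal_div_of_pos (by positivity)]
    congr 1
    have : (t * M) ^ k = t ^ k * M ^ k := mul_pow _ _ _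
    rw [this, one_div, inv_pow]
    field_simp
  calc μ {ω | t * M < ((Y.filter fun y => ω ∈ E y).card : ℝ)}
      ≤ μ {ω | ENNReal.ofReal ((t * M) ^ k) ≤ N ω} := measure_mono hsub
    _ ≤ _ := hmark
    _ ≤ _ := ENNReal.div_le_div_right hb _
    _ = _ := hfin

end Pool.Agent.N892.MA.C
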