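import Mathlib

/-!
Functions of class `C^(1,α)`: Taylor estimates.
-/

set_option autoImplicit false

namespace Pool.Agent.N892.MA

open Metric Set Filter Topology

/-- `g` is of class `C^(1,α)` near every point of `U`, for some `α > 0` (which may depend on the
point): it is differentiable near the point with Hölder continuous derivative. -/
def HolderC1 {E F : Type} [NormedAddCommGroup E] [NormedSpace ℝ E] [NormedAddCommGroup F]
    [NormedSpace ℝ F] (g : E → F) (U : Set E) : Prop :=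
  ∀ x ∈ U, ∃ V ∈ 𝓝 x, ∃ α C : ℝ, 0 < α ∧ (∀ y ∈ V, DifferentiableAt ℝ g y) ∧
    ∀ y ∈ V, ∀ z ∈ V, ‖fderiv ℝ g y - fderiv ℝ g z‖ ≤ C * ‖y - z‖ ^ α

section
variable {E F : Type} [NormedAddCommGroup E] [NormedSpace ℝ E] [NormedAddCommGroup F]
    [NormedSpace ℝ F]

theorem taylor {g : E → F} {U : Set E} (h : HolderC1 g U) {x : E} (hx : x ∈ U) :
    ∃ ρ α C : ℝ, 0 < ρ ∧ ρ ≤ 1/2 ∧ 0 < α ∧ α ≤ 1 ∧ 0 ≤ C ∧
      (∀ y ∈ ball x ρ, DifferentiableAt ℝ g y) ∧
      (∀ y ∈ ball x ρ, ∀ z ∈ ball x ρ, ‖fderiv ℝ g y - fderiv ℝ g z‖ ≤ C * ‖y - z‖ ^ α) ∧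
      (∀ y ∈ ball x ρ, ∀ z ∈ ball x ρ,
        ‖g z - g y - fderiv ℝ g y (z - y)‖ ≤ C * ‖z - y‖ ^ (1 + α)) := by
  obtain ⟨V, hV, α, C, hα, hd, hH⟩ := h x hx
  obtain ⟨ρ0, hρ0, hsub⟩ := Metric.mem_nhds_iff.1 hV
  set ρ : ℝ := min ρ0 (1/2) with hρ
  have hρ' : 0 < ρ := by positivity
  have hsub' : ball x ρ ⊆ V := (ball_subset_ball (min_le_left _ _)).trans hsub
  set α' : ℝ := min α 1 with hα'
  have hα'0 : 0 < α' := by positivity
  set C' : ℝ := max C 0 with hC'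
  have hC'0 : 0 ≤ C' := le_max_right _ _
  have hH' : ∀ y ∈ ball x ρ, ∀ z ∈ ball x ρ,
      ‖fderiv ℝ g y - fderiv ℝ g z‖ ≤ C' * ‖y - z‖ ^ α' := by
    intro y hy z hz
    refine (hH y (hsub' hy) z (hsub' hz)).trans ?_
    have hn : ‖y - z‖ ≤ 1 := by
      rw [← dist_eq_norm]
      have h1 := dist_triangle_right y z x
      rw [mem_ball] at hy hz
      have := min_le_right ρ0 (1/2)
      linarith
    rcases eq_or_lt_of_le (norm_nonneg (y - z)) with h0 | h0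
    · rw [← h0, Real.zero_rpow hα.ne', Real.zero_rpow hα'0.ne']
      simp
    · calc C * ‖y - z‖ ^ α ≤ C' * ‖y - z‖ ^ α :=
            mul_le_mul_of_nonneg_right (le_max_left _ _) (by positivity)
        _ ≤ C' * ‖y - z‖ ^ α' := by
            apply mul_le_mul_of_nonneg_left _ hC'0
            exact Real.rpow_le_rpow_of_exponent_ge h0 hn (min_le_left _ _)
  refine ⟨ρ, α', C', hρ', min_le_right _ _, hα'0, min_le_right _ _, hC'0,
    fun y hy => hd y (hsub' hy), hH', ?_⟩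
  intro y hy z hz
  have hseg : segment ℝ y z ⊆ ball x ρ := (convex_ball x ρ).segment_subset hy hz
  have h1 := (convex_segment (𝕜 := ℝ) y z).norm_image_sub_le_of_norm_hasFDerivWithin_le'
    (f := g) (f' := fun w => fderiv ℝ g w) (φ := fderiv ℝ g y) (C := C' * ‖z - y‖ ^ α')
    (fun w hw => (hd w (hsub' (hseg hw))).hasFDerivAt.hasFDerivWithinAt) ?_
    (left_mem_segment ℝ y z) (right_mem_segment ℝ y z)
  · refine h1.trans (le_of_eq ?_)
    rcases eq_or_lt_of_le (norm_nonneg (z - y)) with h0 | h0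
    · rw [← h0, Real.zero_rpow (show (1 + α') ≠ 0 by positivity), mul_zero, mul_zero]
    · rw [Real.rpow_add h0, Real.rpow_one]; ring
  · intro w hw
    refine (hH' w (hseg hw) y hy).trans ?_
    apply mul_le_mul_of_nonneg_left _ hC'0
    apply Real.rpow_le_rpow (norm_nonneg _) _ hα'0.le
    obtain ⟨a, b, ha, hb, hab, rfl⟩ := hw
    have e : a • y + b • z - y = b • (z - y) := by
      have ha' : a = 1 - b := by linarith
      rw [ha']
      module
    rw [e, norm_smul, Real.norm_eq_abs, abs_of_nonneg hb]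
    have : b ≤ 1 := by linarith
    nlinarith [norm_nonneg (z - y)]

end

/-- The coordinate in the direction `u`. -/
noncomputable def coo (u z : ℂ) : ℝ := ((starRingEnd ℂ) u * z).re

theorem lin_rep (L : ℂ →L[ℝ] ℝ) (hL : L ≠ 0) : ∃ u : ℂ, ‖u‖ = 1 ∧ ∃ lam : ℝ, ‖L‖ ≤ lam ∧
    ∀ v, L v = lam * coo u v := by
  set w : ℂ := ⟨L 1, L Complex.I⟩ with hw
  have h1 : ∀ v : ℂ, L v = coo w v := by
    intro v
    have e : v = v.re • (1:ℂ) + v.im • Complex.I := by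
      apply Complex.ext <;> simp
    conv_lhs => rw [e]
    rw [map_add, map_smul, map_smul]
    simp only [coo, hw, smul_eq_mul, Complex.mul_re, Complex.conj_re, Complex.conj_im]
    ring
  have hco : ∀ u v : ℂ, |coo u v| ≤ ‖u‖ * ‖v‖ := by
    intro u v
    unfold coo
    refine (Complex.abs_re_le_norm _).trans ?_
    rw [norm_mul, RCLike.norm_conj]
  have hw0 : 0 < ‖w‖ := by
    rw [norm_pos_iff]
    intro h0
    apply hL
    refine ContinuousLinearMap.ext fun v => ?_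
    rw [h1 v, h0]
    simp [coo]
  refine ⟨((‖w‖⁻¹ : ℝ) : ℂ) * w, ?_, ‖w‖, ?_, ?_⟩
  · rw [norm_mul, Complex.norm_real, Real.norm_eq_abs, abs_of_pos (by positivity)]
    field_simp
  · apply L.opNorm_le_bound hw0.le
    intro v
    rw [h1, Real.norm_eq_abs]
    exact hco _ _
  · intro v
    rw [h1]
    unfold coo
    rw [map_mul, Complex.conj_ofReal, mul_assoc, Complex.re_ofReal_mul]
    field_simp

/-- **Level sets are close to lines.** -/
theorem near_line {g : ℂ → ℝ} {U : Set ℂ} (h : HolderC1 g U) {x0 : ℂ} (hx : x0 ∈ U)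
    (hreg : fderiv ℝ g x0 ≠ 0) :
    ∃ ρ α M : ℝ, 0 < ρ ∧ ρ ≤ 1/2 ∧ 0 < α ∧ α ≤ 1 ∧ 0 < M ∧
      ∀ x ∈ ball x0 ρ, ∀ (c h : ℝ), 0 < h → ∃ (u : ℂ) (t : ℝ), ‖u‖ = 1 ∧
        ∀ z ∈ ball x0 ρ, dist z x ≤ h → |g z - c| ≤ h ^ (1 + α) →
          |coo u z - t| ≤ M * h ^ (1 + α) := by
  obtain ⟨ρ0, α, C, hρ0, hρ1, hα, hα1, hC, hd, hH, hT⟩ := taylor h hx
  set N : ℝ := ‖fderiv ℝ g x0‖ with hN
  have hN0 : 0 < N := norm_pos_iff.2 hreg
  -- a smaller ball
  obtain ⟨ρ, hρ, hρρ0, hρN⟩ : ∃ ρ : ℝ, 0 < ρ ∧ ρ ≤ ρ0 ∧ C * ρ ^ α ≤ N / 2 := by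
    have h1 : Tendsto (fun ρ : ℝ => C * ρ ^ α) (𝓝[>] 0) (𝓝 (C * 0 ^ α)) :=
      ((Real.continuousAt_rpow_const 0 α (Or.inr hα.le)).tendsto.const_mul C).mono_left
        nhdsWithin_le_nhds
    rw [Real.zero_rpow hα.ne', mul_zero] at h1
    have h2 := h1.eventually (gt_mem_nhds (show 0 < N / 2 by positivity))
    have h3 : ∀ᶠ ρ in 𝓝[>] (0:ℝ), ρ ∈ Ioo 0 ρ0 := Ioo_mem_nhdsGT hρ0
    obtain ⟨ρ, k1, k2⟩ := (h2.and h3).exists
    exact ⟨ρ, k2.1, k2.2.le, k1.le⟩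
  have hsub : ball x0 ρ ⊆ ball x0 ρ0 := ball_subset_ball hρρ0
  refine ⟨ρ, α, (1 + C) / (N / 2), hρ, hρρ0.trans hρ1, hα, hα1, by positivity, ?_⟩
  intro x hx c h hh
  set L := fderiv ℝ g x with hL
  have hLn : N / 2 ≤ ‖L‖ := by
    have h1 := hH x0 (mem_ball_self hρ0) x (hsub hx)
    have h2 : ‖x0 - x‖ ^ α ≤ ρ ^ α := by
      apply Real.rpow_le_rpow (norm_nonneg _) _ hα.le
      rw [← dist_eq_norm, dist_comm]
      exact (mem_ball.1 hx).le
    have h3 : ‖fderiv ℝ g x0‖ - ‖L‖ ≤ ‖fderiv ℝ g x0 - L‖ := norm_sub_norm_le _ _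
    have h4 := mul_le_mul_of_nonneg_left h2 hC
    linarith
  have hL0 : L ≠ 0 := by
    rw [← norm_pos_iff]; linarith
  obtain ⟨u, hu, lam, hlam, hrep⟩ := lin_rep L hL0
  have hlam0 : N / 2 ≤ lam := hLn.trans hlam
  have hlam1 : 0 < lam := by linarith
  refine ⟨u, coo u x + (c - g x) / lam, hu, ?_⟩
  intro z hz hzx hgz
  have h1 := hT x (hsub hx) z (hsub hz)
  have h2 : ‖z - x‖ ^ (1 + α) ≤ h ^ (1 + α) := by
    apply Real.rpow_le_rpow (norm_nonneg _) _ (by positivity)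
    rwa [← dist_eq_norm]
  have h3 : |g z - g x - L (z - x)| ≤ C * h ^ (1 + α) := by
    rw [← Real.norm_eq_abs]
    exact h1.trans (mul_le_mul_of_nonneg_left h2 hC)
  have h4 : L (z - x) = lam * (coo u z - coo u x) := by
    rw [hrep]
    congr 1
    unfold coo
    rw [mul_sub, Complex.sub_re]
  rw [h4] at h3
  have h5 : lam * (coo u z - (coo u x + (c - g x) / lam)) =
      -(g z - g x - lam * (coo u z - coo u x)) + (g z - c) := by
    field_simp
    ring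
  have h6 : lam * |coo u z - (coo u x + (c - g x) / lam)| ≤ (1 + C) * h ^ (1 + α) := by
    rw [← abs_of_pos hlam1, ← abs_mul, abs_of_pos hlam1, h5]
    refine (abs_add_le _ _).trans ?_
    rw [abs_neg]
    linarith
  have h7 : 0 ≤ |coo u z - (coo u x + (c - g x) / lam)| := abs_nonneg _
  rw [div_mul_eq_mul_div, le_div_iff₀ (by positivity)]
  nlinarith

end Pool.Agent.N892.MA
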