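import Pool.Agent.N892.MA.Fun
import Pool.Agent.N892.AC.Aff

/-!
Intersections with all the images of a set under maps of class `C^(1,α)`.
-/

set_option autoImplicit false

namespace Pool.Agent.N892.MA

open MeasureTheory Metric Set Filter Topology
open Pool.Agent.N892.UP (packDim upperBoxDim CovBy)
open Pool.Agent.N892.AC (Cop aff aff_sub aff_up aff_low)
open scoped ENNReal NNReal

/-- The coefficients of a linear map of the plane. -/
noncomputable def ca (L : ℂ →L[ℝ] ℂ) : ℂ := (L 1 - Complex.I * L Complex.I) / 2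

/-- The coefficients of a linear map of the plane. -/
noncomputable def cb (L : ℂ →L[ℝ] ℂ) : ℂ := (L 1 + Complex.I * L Complex.I) / 2

theorem lin_eq (L : ℂ →L[ℝ] ℂ) (v : ℂ) : L v = ca L * v + cb L * (starRingEnd ℂ) v := by
  have e : v = v.re • (1:ℂ) + v.im • Complex.I := by
    apply Complex.ext <;> simp
  have h1 : L v = v.re • L 1 + v.im • L Complex.I := by
    conv_lhs => rw [e]
    rw [map_add, map_smul, map_smul]
  have h2 : v = (v.re : ℂ) + v.im * Complex.I := (Complex.re_add_im v).symm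
  have h3 : (starRingEnd ℂ) v = (v.re : ℂ) - v.im * Complex.I := by
    apply Complex.ext <;> simp
  rw [h1, h3]
  conv_rhs => rw [h2]
  simp only [ca, cb, Complex.real_smul]
  simp only [Complex.add_re, Complex.ofReal_re, Complex.mul_re, Complex.ofReal_im, Complex.I_re,
    Complex.I_im, mul_zero, mul_one, sub_zero, add_zero, Complex.add_im, Complex.mul_im, zero_add]
  have hI : Complex.I * Complex.I = -1 := Complex.I_mul_I
  linear_combination ((v.im : ℂ) * L Complex.I) * hI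

theorem ca_norm (L : ℂ →L[ℝ] ℂ) : ‖ca L‖ ≤ ‖L‖ := by
  unfold ca
  rw [norm_div]
  have h1 : ‖L 1‖ ≤ ‖L‖ := by simpa using L.le_opNorm 1
  have h2 : ‖L Complex.I‖ ≤ ‖L‖ := by simpa using L.le_opNorm Complex.I
  have h3 := norm_sub_le (L 1) (Complex.I * L Complex.I)
  rw [norm_mul, Complex.norm_I, one_mul] at h3
  rw [show ‖(2:ℂ)‖ = 2 by simp, div_le_iff₀ (by norm_num)]
  linarith

theorem cb_norm (L : ℂ →L[ℝ] ℂ) : ‖cb L‖ ≤ ‖L‖ := by
  unfold cb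
  rw [norm_div]
  have h1 : ‖L 1‖ ≤ ‖L‖ := by simpa using L.le_opNorm 1
  have h2 : ‖L Complex.I‖ ≤ ‖L‖ := by simpa using L.le_opNorm Complex.I
  have h3 := norm_add_le (L 1) (Complex.I * L Complex.I)
  rw [norm_mul, Complex.norm_I, one_mul] at h3
  rw [show ‖(2:ℂ)‖ = 2 by simp, div_le_iff₀ (by norm_num)]
  linarith

theorem ca_sub (L L' : ℂ →L[ℝ] ℂ) : ca (L - L') = ca L - ca L' := by
  have h1 : (L - L') 1 = L 1 - L' 1 := rfl
  have h2 : (L - L') Complex.I = L Complex.I - L' Complex.I := rfl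
  simp only [ca, h1, h2]; ring

theorem cb_sub (L L' : ℂ →L[ℝ] ℂ) : cb (L - L') = cb L - cb L' := by
  have h1 : (L - L') 1 = L 1 - L' 1 := rfl
  have h2 : (L - L') Complex.I = L Complex.I - L' Complex.I := rfl
  simp only [cb, h1, h2]; ring

theorem inj_ne (L : ℂ →L[ℝ] ℂ) (h : Function.Injective L) : ‖ca L‖ ≠ ‖cb L‖ := by
  intro he
  have hker : ∀ z : ℂ, (starRingEnd ℂ) (ca L) * z - cb L * (starRingEnd ℂ) z = 0 := by
    intro z
    apply h
    rw [map_zero, lin_eq, map_sub, map_mul, map_mul, Complex.conj_conj, Complex.conj_conj]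
    have h1 : ca L * (starRingEnd ℂ) (ca L) = cb L * (starRingEnd ℂ) (cb L) := by
      rw [Complex.mul_conj, Complex.mul_conj, Complex.normSq_eq_norm_sq,
        Complex.normSq_eq_norm_sq, he]
    linear_combination z * h1
  have h1 := hker 1
  have h2 := hker Complex.I
  rw [map_one, mul_one, mul_one] at h1
  rw [Complex.conj_I] at h2
  have h3 : (starRingEnd ℂ) (ca L) + cb L = 0 := by
    have h4 : Complex.I * ((starRingEnd ℂ) (ca L) + cb L) = 0 := by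
      linear_combination h2
    rcases mul_eq_zero.1 h4 with h5 | h5
    · exact absurd h5 Complex.I_ne_zero
    · exact h5
  have h4 : cb L = 0 := by linear_combination (h3 - h1) / 2
  have h5 : ca L = 0 := by
    have : (starRingEnd ℂ) (ca L) = 0 := by rw [h4] at h3; simpa using h3
    simpa using this
  have h6 : L 1 = L 0 := by rw [lin_eq, h4, h5]; simp
  exact one_ne_zero (h h6)

/-- **Maps of class `C^(1,α)` are close to affine maps.** -/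
theorem near_aff {φ : ℂ → ℂ} {U : Set ℂ} (h : HolderC1 φ U) {x0 : ℂ} (hx : x0 ∈ U)
    (hinj : Function.Injective (fderiv ℝ φ x0)) :
    ∃ ρ α M : ℝ, 0 < ρ ∧ ρ ≤ 1/2 ∧ 0 < α ∧ α ≤ 1 ∧ 1 ≤ M ∧
      (∀ y ∈ ball x0 ρ, ∀ z ∈ ball x0 ρ, dist y z ≤ M * dist (φ y) (φ z)) ∧
      (∀ y ∈ ball x0 ρ, ∃ a c β : ℂ, ‖a‖ ≤ M ∧ ‖c‖ ≤ M ∧ ‖β‖ ≤ M ∧ 1 / M ≤ |‖a‖ - ‖c‖| ∧
        ∀ z ∈ ball x0 ρ, dist (φ z) (aff a c β z) ≤ M * dist z y ^ (1 + α)) ∧
      (∀ y ∈ ball x0 ρ, dist (φ y) (φ x0) ≤ M * dist y x0) := by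
  obtain ⟨ρ0, α, C, hρ0, hρ1, hα, hα1, hC, hd, hH, hT⟩ := taylor h hx
  set L0 := fderiv ℝ φ x0 with hL0
  set δ : ℝ := |‖ca L0‖ - ‖cb L0‖| with hδ
  have hδ0 : 0 < δ := abs_pos.2 (sub_ne_zero.2 (inj_ne L0 hinj))
  -- a smaller ball
  obtain ⟨ρ, hρ, hρρ0, hρN⟩ : ∃ ρ : ℝ, 0 < ρ ∧ ρ ≤ ρ0 ∧ C * (2 * ρ) ^ α ≤ δ / 4 := by
    have h1 : Tendsto (fun ρ : ℝ => C * (2 * ρ) ^ α) (𝓝[>] 0) (𝓝 (C * (2 * 0) ^ α)) := by
      have h0 : Tendsto (fun ρ : ℝ => 2 * ρ) (𝓝 0) (𝓝 (2 * 0)) := tendsto_id.const_mul 2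
      exact (((Real.continuousAt_rpow_const (2 * 0) α (Or.inr hα.le)).tendsto.comp h0).const_mul
        C).mono_left nhdsWithin_le_nhds
    rw [mul_zero, Real.zero_rpow hα.ne', mul_zero] at h1
    have h2 := h1.eventually (gt_mem_nhds (show 0 < δ / 4 by positivity))
    have h3 : ∀ᶠ ρ in 𝓝[>] (0:ℝ), ρ ∈ Ioo 0 ρ0 := Ioo_mem_nhdsGT hρ0
    obtain ⟨ρ, k1, k2⟩ := (h2.and h3).exists
    exact ⟨ρ, k2.1, k2.2.le, k1.le⟩
  have hsub : ball x0 ρ ⊆ ball x0 ρ0 := ball_subset_ball hρρ0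
  have hdist : ∀ y ∈ ball x0 ρ, ∀ z ∈ ball x0 ρ, ‖z - y‖ ≤ 2 * ρ := by
    intro y hy z hz
    rw [← dist_eq_norm]
    have := dist_triangle_right z y x0
    have h1 := mem_ball.1 hy
    have h2 := mem_ball.1 hz
    linarith
  have hpw : ∀ y ∈ ball x0 ρ, ∀ z ∈ ball x0 ρ, C * ‖z - y‖ ^ α ≤ δ / 4 := by
    intro y hy z hz
    refine le_trans ?_ hρN
    apply mul_le_mul_of_nonneg_left _ hC
    exact Real.rpow_le_rpow (norm_nonneg _) (hdist y hy z hz) hα.le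
  -- the derivative near the point
  have hLb : ∀ y ∈ ball x0 ρ, ‖fderiv ℝ φ y - L0‖ ≤ δ / 4 := by
    intro y hy
    exact (hH y (hsub hy) x0 (mem_ball_self hρ0)).trans (hpw x0 (mem_ball_self hρ) y hy)
  have hlow : ∀ y ∈ ball x0 ρ, δ / 2 ≤ |‖ca (fderiv ℝ φ y)‖ - ‖cb (fderiv ℝ φ y)‖| := by
    intro y hy
    have h1 := hLb y hy
    have h2 : |‖ca (fderiv ℝ φ y)‖ - ‖ca L0‖| ≤ δ / 4 := by
      refine (abs_norm_sub_norm_le _ _).trans ?_
      rw [← ca_sub]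
      exact (ca_norm _).trans h1
    have h3 : |‖cb (fderiv ℝ φ y)‖ - ‖cb L0‖| ≤ δ / 4 := by
      refine (abs_norm_sub_norm_le _ _).trans ?_
      rw [← cb_sub]
      exact (cb_norm _).trans h1
    have h4 : δ ≤ |‖ca (fderiv ℝ φ y)‖ - ‖cb (fderiv ℝ φ y)‖| +
        |‖ca (fderiv ℝ φ y)‖ - ‖ca L0‖| + |‖cb (fderiv ℝ φ y)‖ - ‖cb L0‖| := by
      rw [hδ]
      have h5 := abs_sub_abs_le_abs_sub (‖ca L0‖ - ‖cb L0‖)
        (‖ca (fderiv ℝ φ y)‖ - ‖cb (fderiv ℝ φ y)‖)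
      have h6 : |‖ca L0‖ - ‖cb L0‖ - (‖ca (fderiv ℝ φ y)‖ - ‖cb (fderiv ℝ φ y)‖)| ≤
          |‖ca (fderiv ℝ φ y)‖ - ‖ca L0‖| + |‖cb (fderiv ℝ φ y)‖ - ‖cb L0‖| := by
        have e : ‖ca L0‖ - ‖cb L0‖ - (‖ca (fderiv ℝ φ y)‖ - ‖cb (fderiv ℝ φ y)‖) =
          -(‖ca (fderiv ℝ φ y)‖ - ‖ca L0‖) + (‖cb (fderiv ℝ φ y)‖ - ‖cb L0‖) := by ring
        rw [e]
        refine (abs_add_le _ _).trans ?_
        rw [abs_neg]
      linarith
    linarith
  have hLn : ∀ y ∈ ball x0 ρ, ‖fderiv ℝ φ y‖ ≤ ‖L0‖ + δ / 4 := by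
    intro y hy
    have := norm_add_le L0 (fderiv ℝ φ y - L0)
    rw [add_sub_cancel] at this
    have := hLb y hy
    linarith
  -- increments
  have hinc : ∀ y ∈ ball x0 ρ, ∀ z ∈ ball x0 ρ,
      ‖φ z - φ y - fderiv ℝ φ y (z - y)‖ ≤ δ / 4 * ‖z - y‖ := by
    intro y hy z hz
    refine (hT y (hsub hy) z (hsub hz)).trans ?_
    rcases eq_or_lt_of_le (norm_nonneg (z - y)) with h0 | h0
    · rw [← h0, Real.zero_rpow (by positivity)]; simp
    · rw [Real.rpow_add h0, Real.rpow_one]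
      have := hpw y hy z hz
      nlinarith
  set M : ℝ := max (max (max C 1) (4 / δ)) (max (‖L0‖ + δ / 2)
    (‖φ x0‖ + (‖L0‖ + δ / 2) + (‖L0‖ + δ / 4) * (‖x0‖ + 1))) with hM
  have hM1 : 1 ≤ M := ((le_max_right C 1).trans (le_max_left _ _)).trans (le_max_left _ _)
  have hMC : C ≤ M := ((le_max_left C 1).trans (le_max_left _ _)).trans (le_max_left _ _)
  have hMδ : 4 / δ ≤ M := (le_max_right _ _).trans (le_max_left _ _)
  have hML : ‖L0‖ + δ / 2 ≤ M := (le_max_left _ _).trans (le_max_right _ _)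
  have hMβ : ‖φ x0‖ + (‖L0‖ + δ / 2) + (‖L0‖ + δ / 4) * (‖x0‖ + 1) ≤ M :=
    (le_max_right _ _).trans (le_max_right _ _)
  have hM0 : 0 < M := by linarith
  have hup : ∀ y ∈ ball x0 ρ, dist (φ y) (φ x0) ≤ (‖L0‖ + δ / 2) * dist y x0 := by
    intro y hy
    rw [dist_eq_norm, dist_eq_norm]
    have h1 := hinc x0 (mem_ball_self hρ) y hy
    have h2 : ‖L0 (y - x0)‖ ≤ ‖L0‖ * ‖y - x0‖ := L0.le_opNorm _
    have h3 := norm_add_le (φ y - φ x0 - L0 (y - x0)) (L0 (y - x0))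
    rw [sub_add_cancel] at h3
    have h4 := norm_nonneg (y - x0)
    nlinarith
  refine ⟨ρ, α, M, hρ, hρρ0.trans hρ1, hα, hα1, hM1, ?_, ?_, ?_⟩
  · intro y hy z hz
    rw [dist_comm y z, dist_comm (φ y), dist_eq_norm, dist_eq_norm]
    have h1 := hinc y hy z hz
    have h2 : δ / 2 * ‖z - y‖ ≤ ‖fderiv ℝ φ y (z - y)‖ := by
      have h3 := aff_low (α := ca (fderiv ℝ φ y)) (γ := cb (fderiv ℝ φ y)) (β := 0) (z := z - y)
        (w := 0) (hlow y hy)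
      rw [dist_eq_norm, dist_eq_norm, aff_sub, sub_zero, ← lin_eq] at h3
      exact h3
    have h3 := norm_sub_norm_le (fderiv ℝ φ y (z - y)) (fderiv ℝ φ y (z - y) - (φ z - φ y))
    rw [sub_sub_cancel, norm_sub_rev (fderiv ℝ φ y (z - y))] at h3
    have h4 : δ / 4 * ‖z - y‖ ≤ ‖φ z - φ y‖ := by linarith
    calc ‖z - y‖ = 4 / δ * (δ / 4 * ‖z - y‖) := by field_simp
      _ ≤ M * ‖φ z - φ y‖ := by gcongr
  · intro y hy
    refine ⟨ca (fderiv ℝ φ y), cb (fderiv ℝ φ y), φ y - fderiv ℝ φ y y, ?_, ?_, ?_, ?_, ?_⟩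
    · have := (ca_norm (fderiv ℝ φ y)).trans (hLn y hy)
      linarith
    · have := (cb_norm (fderiv ℝ φ y)).trans (hLn y hy)
      linarith
    · have h1 : ‖φ y‖ ≤ ‖φ x0‖ + (‖L0‖ + δ / 2) := by
        have h2 := hup y hy
        have h3 : dist y x0 ≤ 1 := by
          have := mem_ball.1 hy
          linarith
        have h4 := norm_sub_norm_le (φ y) (φ x0)
        rw [← dist_eq_norm] at h4
        have h5 : (‖L0‖ + δ / 2) * dist y x0 ≤ (‖L0‖ + δ / 2) * 1 :=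
          mul_le_mul_of_nonneg_left h3 (by positivity)
        linarith
      have h2 : ‖fderiv ℝ φ y y‖ ≤ (‖L0‖ + δ / 4) * (‖x0‖ + 1) := by
        refine ((fderiv ℝ φ y).le_opNorm y).trans ?_
        apply mul_le_mul (hLn y hy) _ (norm_nonneg _) (by positivity)
        have h3 := norm_sub_norm_le y x0
        rw [← dist_eq_norm] at h3
        have := mem_ball.1 hy
        linarith
      exact (norm_sub_le _ _).trans (by linarith)
    · refine le_trans ?_ (hlow y hy)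
      rw [div_le_iff₀ hM0]
      have h2 : δ / 2 * (4 / δ) ≤ δ / 2 * M := by gcongr
      have h3 : δ / 2 * (4 / δ) = 2 := by field_simp; norm_num
      linarith
    · intro z hz
      have e : φ z - aff (ca (fderiv ℝ φ y)) (cb (fderiv ℝ φ y)) (φ y - fderiv ℝ φ y y) z =
          φ z - φ y - fderiv ℝ φ y (z - y) := by
        unfold aff
        rw [map_sub, lin_eq (fderiv ℝ φ y) z]
        ring
      rw [dist_eq_norm, dist_eq_norm, e]
      refine (hT y (hsub hy) z (hsub hz)).trans ?_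
      gcongr
  · intro y hy
    refine (hup y hy).trans ?_
    gcongr

/-- Local coverings for images. -/
theorem cop_cov {T D S : Set ℂ} {b : ℝ} (hb : 0 ≤ b) (h : ∀ n : ℕ, CntP T D (Cop S ((n:ℝ) + 1)) b)
    (hD : IsOpen D) {φ : ℂ → ℂ} {U : Set ℂ} (hφ : HolderC1 φ U) {x0 : ℂ} (hx0 : x0 ∈ U)
    (hx0D : φ x0 ∈ D) (hinj : Function.Injective (fderiv ℝ φ x0)) :
    ∃ ρ : ℝ, 0 < ρ ∧ ∀ ε' : ℝ, 0 < ε' → ∃ C : ℝ, 0 < C ∧ ∀ r : ℝ, 0 < r → r ≤ 1 →
      CovB (T ∩ φ '' (S ∩ ball x0 ρ)) r (C * r ^ (-(b + ε'))) := by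
  obtain ⟨ρ0, α, M, hρ0, hρ1, hα, hα1, hM, hbi, haff, hlip⟩ := near_aff hφ hx0 hinj
  obtain ⟨ρ2, hρ2, hsub⟩ := Metric.isOpen_iff.1 hD (φ x0) hx0D
  have hM0 : 0 < M := by linarith
  obtain ⟨ρ3, hρ3def⟩ : ∃ ρ3 : ℝ, ρ3 = min 1 (ρ2 / 4) := ⟨_, rfl⟩
  have hρ3 : 0 < ρ3 := by rw [hρ3def]; positivity
  have hρ31 : ρ3 ≤ 1 := by rw [hρ3def]; exact min_le_left _ _
  have hρ32 : ρ3 ≤ ρ2 / 4 := by rw [hρ3def]; exact min_le_right _ _
  obtain ⟨ρ, hρdef⟩ : ∃ ρ : ℝ, ρ = min ρ0 (ρ3 / M) := ⟨_, rfl⟩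
  have hρ : 0 < ρ := by rw [hρdef]; positivity
  have hρρ0 : ρ ≤ ρ0 := by rw [hρdef]; exact min_le_left _ _
  have hρρ3 : ρ ≤ ρ3 / M := by rw [hρdef]; exact min_le_right _ _
  refine ⟨ρ, hρ, fun ε' hε' => ?_⟩
  have hm : 1 < 1 + α := by linarith
  have hin : ∀ z ∈ closedBall (φ x0) ρ3, ∀ w, dist z w ≤ ρ3 → w ∈ D := by
    intro z hz w hw
    apply hsub
    rw [mem_closedBall] at hz
    rw [mem_ball]
    have h2 := dist_triangle_left w (φ x0) z
    linarith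
  obtain ⟨n, hn⟩ := exists_nat_ge M
  obtain ⟨M2, hM2⟩ : ∃ M2 : ℝ, M2 = 1 + M * (4 * M) ^ (1 + α) := ⟨_, rfl⟩
  have hM20 : 0 < M2 := by rw [hM2]; positivity
  obtain ⟨C, hC, hcov⟩ := loc_cov hb (h n) (κ := ρ3) hρ3 (K := T ∩ closedBall (φ x0) ρ3)
    inter_subset_left (x0 := φ x0) (by
      rintro z ⟨-, hz⟩ w hw
      exact hin z hz w (by rw [dist_comm]; exact mem_closedBall.1 hw)) (by
      rintro z ⟨-, hz⟩
      exact closedBall_subset_closedBall hρ31 hz)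
    (L := fun (_ : Unit) r => {z | z ∈ T ∩ closedBall (φ x0) ρ3 ∧
      ∃ s ∈ S ∩ ball x0 ρ, dist z (φ s) ≤ r})
    (by
      rintro c r h' hrh z ⟨hz, s, hs, hzs⟩
      exact ⟨hz, s, hs, hzs.trans hrh⟩)
    (by
      rintro c r z ⟨hz, -⟩
      exact hz) (m := 1 + α) (M := M2) (q0 := min 1 (ρ3 / M2)) hm hM20 (by positivity) (by
      rintro - p r hr hrq ⟨z0, ⟨hz0T, s0, hs0, hz0s⟩, hz0p⟩
      have e1 : r ≤ 1 := hrq.trans (min_le_left _ _)
      have e2 : r ≤ ρ3 / M2 := hrq.trans (min_le_right _ _)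
      have hh0 : 0 < r ^ (1 / (1 + α)) := by positivity
      have hrh : r ≤ r ^ (1 / (1 + α)) := by
        calc r = r ^ (1:ℝ) := (Real.rpow_one r).symm
          _ ≤ r ^ (1 / (1 + α)) := Real.rpow_le_rpow_of_exponent_ge hr e1 (by
              rw [div_le_one (by positivity)]; linarith)
      have hhm : (r ^ (1 / (1 + α))) ^ (1 + α) = r := by
        rw [← Real.rpow_mul hr.le, one_div_mul_cancel (by positivity), Real.rpow_one]
      obtain ⟨a, c, β, ha, hc, hβ, hac, hap⟩ := haff s0 (ball_subset_ball hρρ0 hs0.2)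
      refine ⟨aff a c β '' S, ⟨a, c, β, by linarith, by linarith, by linarith, ?_, rfl⟩, ?_⟩
      · refine le_trans ?_ hac
        apply one_div_le_one_div_of_le hM0
        linarith
      · rintro z ⟨⟨hzT, s, hs, hzs⟩, hzp⟩
        have k1 : dist (φ s) (φ s0) ≤ 4 * r ^ (1 / (1 + α)) := by
          have h1 := dist_triangle4 (φ s) z z0 (φ s0)
          have h2 := dist_triangle_right z z0 p
          have h3 := mem_closedBall.1 hz0p
          have h4 := mem_closedBall.1 hzp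
          rw [dist_comm (φ s) z] at h1
          linarith
        have k2 : dist s s0 ≤ 4 * M * r ^ (1 / (1 + α)) := by
          refine (hbi s (ball_subset_ball hρρ0 hs.2) s0 (ball_subset_ball hρρ0 hs0.2)).trans ?_
          calc M * dist (φ s) (φ s0) ≤ M * (4 * r ^ (1 / (1 + α))) := by gcongr
            _ = _ := by ring
        have k3 := hap s (ball_subset_ball hρρ0 hs.2)
        have k4 : dist s s0 ^ (1 + α) ≤ (4 * M) ^ (1 + α) * r := by
          calc dist s s0 ^ (1 + α) ≤ (4 * M * r ^ (1 / (1 + α))) ^ (1 + α) :=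
                Real.rpow_le_rpow dist_nonneg k2 (by positivity)
            _ = (4 * M) ^ (1 + α) * r := by
                rw [Real.mul_rpow (by positivity) hh0.le, hhm]
        have k5 : dist z (aff a c β s) ≤ M2 * r := by
          have h1 := dist_triangle z (φ s) (aff a c β s)
          have h2 : M * dist s s0 ^ (1 + α) ≤ M * ((4 * M) ^ (1 + α) * r) := by gcongr
          rw [hM2]
          nlinarith
        refine ⟨aff a c β s, ⟨mem_image_of_mem _ hs.1, hin z hzT.2 _ (k5.trans ?_)⟩, k5⟩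
        rw [le_div_iff₀ hM20] at e2
        linarith) hε'
  refine ⟨C, hC, fun r hr hr1 => (hcov r hr hr1 ()).mono ?_ le_rfl⟩
  rintro z ⟨hzT, s, hs, rfl⟩
  refine ⟨⟨hzT, ?_⟩, s, hs, by rw [dist_self]; exact hr.le⟩
  rw [mem_closedBall]
  refine (hlip s (ball_subset_ball hρρ0 hs.2)).trans ?_
  have := mem_ball.1 hs.2
  calc M * dist s x0 ≤ M * (ρ3 / M) := by gcongr; linarith
    _ = ρ3 := by field_simp

/-- The bounds for the intersections with the images of `S` under all maps of class `C^(1,α)` with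
invertible derivative. -/
def CopBd (T D S : Set ℂ) (b : ℝ) : Prop :=
  ∀ (U : Set ℂ) (φ : ℂ → ℂ), HolderC1 φ U → (∀ x ∈ U, Function.Injective (fderiv ℝ φ x)) →
    dimH (T ∩ D ∩ φ '' (S ∩ U)) ≤ ENNReal.ofReal b ∧
    packDim (T ∩ D ∩ φ '' (S ∩ U)) ≤ ENNReal.ofReal b

theorem hausd_of_cov {A : Set ℂ} {b : ℝ} (hb : 0 ≤ b)
    (h : ∀ ε : ℝ, 0 < ε → ∃ C : ℝ, 0 < C ∧ ∀ r : ℝ, 0 < r → r ≤ 1 →
      CovB A r (C * r ^ (-(b + ε)))) : dimH A ≤ ENNReal.ofReal b := by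
  have h1 := dim_of_cov (g := fun _ => 0) (K := A) hb (fun ε hε => by
    obtain ⟨C, hC, hcov⟩ := h ε hε
    exact ⟨C, hC, fun r hr hr1 c => (hcov r hr hr1).mono (fun z hz => hz.1) le_rfl⟩)
    (E := A) (Subset.refl _)
  have h0 : dimH ((fun _ : ℂ => (0:ℝ)) '' A) = 0 := by
    have hsub : ((fun _ : ℂ => (0:ℝ)) '' A) ⊆ {0} := by
      rintro _ ⟨s, -, rfl⟩; exact mem_singleton _
    exact le_antisymm ((dimH_mono hsub).trans (dimH_singleton (0:ℝ)).le) zero_le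
  rwa [h0, zero_add] at h1

theorem copBd_of {T D S : Set ℂ} {b : ℝ} (hb : 0 ≤ b)
    (h : ∀ n : ℕ, CntP T D (Cop S ((n:ℝ) + 1)) b) (hD : IsOpen D) : CopBd T D S b := by
  intro U φ hφ hinj
  set E : Set ℂ := {s | s ∈ S ∩ U ∧ φ s ∈ D} with hE
  have hloc : ∀ x ∈ E, ∃ ρ : ℝ, 0 < ρ ∧ ∀ ε' : ℝ, 0 < ε' → ∃ C : ℝ, 0 < C ∧ ∀ r : ℝ, 0 < r →
      r ≤ 1 → CovB (T ∩ φ '' (S ∩ ball x ρ)) r (C * r ^ (-(b + ε'))) := by
    intro x hx
    exact cop_cov hb h hD hφ hx.1.2 hx.2 (hinj x hx.1.2)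
  choose! ρ hρ hcov using hloc
  obtain ⟨t, htE, htc, ht⟩ := TopologicalSpace.countable_cover_nhdsWithin
    (f := fun x => ball x (ρ x)) (s := E)
    (fun x hx => mem_nhdsWithin_of_mem_nhds (ball_mem_nhds x (hρ x hx)))
  have hsub : T ∩ D ∩ φ '' (S ∩ U) ⊆ ⋃ x ∈ t, T ∩ φ '' (S ∩ ball x (ρ x)) := by
    rintro _ ⟨⟨hzT, hzD⟩, s, hs, rfl⟩
    obtain ⟨x, hx, hsx⟩ := mem_iUnion₂.1 (ht ⟨hs, hzD⟩)
    exact mem_iUnion₂.2 ⟨x, hx, hzT, s, ⟨hs.1, hsx⟩, rfl⟩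
  constructor
  · refine (dimH_mono hsub).trans ?_
    rw [dimH_bUnion htc]
    exact iSup₂_le fun x hx => hausd_of_cov hb (hcov x (htE hx))
  · refine packDim_of_countable htc hsub fun x hx => ?_
    refine (packDim_mono inter_subset_right).trans ?_
    exact (packDim_le_box _).trans (box_of_cov hb (hcov x (htE hx)))

end Pool.Agent.N892.MA
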