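import Pool.Agent.N892.MA.Stm
import Pool.Agent.N892.AC.Inv
import Pool.Agent.N892.UP.Defs

/-!
Coverings by discs: elementary facts.
-/

set_option autoImplicit false

namespace Pool.Agent.N892.MA

open MeasureTheory Metric Set Filter Topology
open scoped ENNReal NNReal

theorem CovB.mono {A B : Set ℂ} {r N N' : ℝ} (h : CovB A r N) (hB : B ⊆ A) (hN : N ≤ N') :
    CovB B r N' := by
  obtain ⟨P, h1, h2⟩ := h
  exact ⟨P, h1.trans hN, hB.trans h2⟩

theorem CovB.empty {r N : ℝ} (hN : 0 ≤ N) : CovB ∅ r N :=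
  ⟨∅, by rw [Finset.card_empty, Nat.cast_zero]; exact hN, empty_subset _⟩

theorem CovB.nonneg {A : Set ℂ} {r N : ℝ} (h : CovB A r N) : 0 ≤ N := by
  obtain ⟨P, h1, -⟩ := h
  exact (Nat.cast_nonneg _).trans h1

open Classical in
/-- Refinement of a covering. -/
theorem CovB.trans {A : Set ℂ} {h r N M : ℝ} (hA : CovB A h N) (hM : 0 ≤ M)
    (hB : ∀ p, CovB (A ∩ closedBall p h) r M) : CovB A r (N * M) := by
  obtain ⟨P, h1, h2⟩ := hA
  choose Q q1 q2 using hB
  refine ⟨P.biUnion Q, ?_, ?_⟩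
  · calc ((P.biUnion Q).card : ℝ) ≤ ∑ p ∈ P, ((Q p).card : ℝ) := by
          exact_mod_cast Finset.card_biUnion_le
      _ ≤ ∑ _p ∈ P, M := Finset.sum_le_sum fun p _ => q1 p
      _ = P.card * M := by rw [Finset.sum_const, nsmul_eq_mul]
      _ ≤ N * M := mul_le_mul_of_nonneg_right h1 hM
  · intro x hx
    obtain ⟨p, hp, hxp⟩ := mem_iUnion₂.1 (h2 hx)
    obtain ⟨y, hy, hxy⟩ := mem_iUnion₂.1 (q2 p ⟨hx, hxp⟩)
    exact mem_iUnion₂.2 ⟨y, Finset.mem_biUnion.2 ⟨p, hp, hy⟩, hxy⟩

open Classical in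
/-- A disc of radius `h` is covered by `16 (h / r) ^ 2` discs of radius `r`. -/
theorem covB_ball (p : ℂ) {h r : ℝ} (hr : 0 < r) (hrh : r ≤ h) :
    CovB (closedBall p h) r (16 * (h / r) ^ 2) := by
  have hh : 0 < h := hr.trans_le hrh
  -- grid of mesh r
  set m : ℕ := ⌈h / r⌉₊ with hm
  have hm1 : h / r ≤ m := Nat.le_ceil _
  have hm2 : (m : ℝ) < h / r + 1 := Nat.ceil_lt_add_one (by positivity)
  have hq : 1 ≤ h / r := by rwa [le_div_iff₀ hr, one_mul]
  let G : ℕ × ℕ → ℂ := fun k => ⟨p.re - h + (k.1 + 1/2) * r, p.im - h + (k.2 + 1/2) * r⟩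
  refine ⟨(Finset.range (2 * m) ×ˢ Finset.range (2 * m)).image G, ?_, ?_⟩
  · have h1 : ((Finset.range (2 * m) ×ˢ Finset.range (2 * m)).image G).card ≤ (2 * m) * (2 * m) := by
      refine Finset.card_image_le.trans ?_
      rw [Finset.card_product, Finset.card_range]
    have h2 : (((Finset.range (2 * m) ×ˢ Finset.range (2 * m)).image G).card : ℝ) ≤
        (2 * m) * (2 * m) := by exact_mod_cast h1
    refine h2.trans ?_
    have h3 : (m : ℝ) ≤ 2 * (h / r) := by linarith
    have h4 : (0:ℝ) ≤ m := Nat.cast_nonneg _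
    nlinarith
  · intro z hz
    rw [mem_closedBall, dist_eq_norm] at hz
    have h1 := (Complex.abs_re_le_norm (z - p)).trans hz
    have h2 := (Complex.abs_im_le_norm (z - p)).trans hz
    rw [Complex.sub_re, abs_le] at h1
    rw [Complex.sub_im, abs_le] at h2
    -- one coordinate
    have key : ∀ a c : ℝ, -h ≤ a - c → a - c ≤ h → ∃ k : ℕ, k < 2 * m ∧
        |a - (c - h + (k + 1/2) * r)| ≤ r / 2 := by
      intro a c k1 k2
      set x : ℝ := (a - c + h) / r with hx
      have hx0 : 0 ≤ x := div_nonneg (by linarith) hr.le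
      have hxr : x * r = a - c + h := by rw [hx]; field_simp
      have hx2 : x ≤ 2 * m := by
        have : x ≤ 2 * (h / r) := by
          rw [hx, ← mul_div_assoc]
          exact div_le_div_of_nonneg_right (by linarith) hr.le
        linarith
      by_cases hlt : ⌊x⌋₊ < 2 * m
      · refine ⟨⌊x⌋₊, hlt, ?_⟩
        have f1 := Nat.floor_le hx0
        have f2 := Nat.lt_floor_add_one x
        have e : a - (c - h + ((⌊x⌋₊ : ℝ) + 1/2) * r) = (x - (⌊x⌋₊ + 1/2)) * r := by
          rw [sub_mul, hxr]; ring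
        rw [e, abs_mul, abs_of_pos hr]
        have : |x - ((⌊x⌋₊ : ℝ) + 1/2)| ≤ 1/2 := by rw [abs_le]; constructor <;> linarith
        nlinarith
      · push Not at hlt
        have f1 := Nat.floor_le hx0
        have f3 : ((2 * m : ℕ) : ℝ) ≤ ⌊x⌋₊ := by exact_mod_cast hlt
        push_cast at f3
        have hxe : x = 2 * m := le_antisymm hx2 (f3.trans f1)
        have hm0 : 1 ≤ m := by
          have : (0:ℝ) < m := by linarith
          exact_mod_cast this
        refine ⟨2 * m - 1, by omega, ?_⟩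
        have e : a - (c - h + (((2 * m - 1 : ℕ) : ℝ) + 1/2) * r) = 1/2 * r := by
          rw [Nat.cast_sub (by omega)]
          push_cast
          have : a - (c - h + (2 * (m:ℝ) - 1 + 1/2) * r) = (a - c + h) - (2 * m) * r + 1/2 * r := by
            ring
          rw [this, ← hxr, hxe]; ring
        rw [e, abs_of_pos (by positivity)]
        linarith
    obtain ⟨i, hi, hi2⟩ := key z.re p.re (by linarith) (by linarith)
    obtain ⟨j, hj, hj2⟩ := key z.im p.im (by linarith) (by linarith)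
    refine mem_iUnion₂.2 ⟨G (i, j), Finset.mem_image.2 ⟨(i, j), ?_, rfl⟩, ?_⟩
    · rw [Finset.mem_product, Finset.mem_range, Finset.mem_range]; exact ⟨hi, hj⟩
    · rw [mem_closedBall, dist_eq_norm]
      refine (Complex.norm_le_abs_re_add_abs_im _).trans ?_
      rw [Complex.sub_re, Complex.sub_im]
      have e1 : z.re - (G (i, j)).re = z.re - (p.re - h + (i + 1/2) * r) := rfl
      have e2 : z.im - (G (i, j)).im = z.im - (p.im - h + (j + 1/2) * r) := rfl
      rw [e1, e2]
      linarith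

/-- Change of the radius. -/
theorem CovB.radius {A : Set ℂ} {h r N : ℝ} (hA : CovB A h N) (hr : 0 < r) (hrh : r ≤ h) :
    CovB A r (N * (16 * (h / r) ^ 2)) :=
  hA.trans (by positivity) fun p => (covB_ball p hr hrh).mono inter_subset_right le_rfl

theorem CovB.cv {A : Set ℂ} {r N : ℝ} (h : CovB A r N) (hr : 0 ≤ r) :
    AC.Cv A (2 * r) N := by
  classical
  obtain ⟨P, h1, h2⟩ := h
  obtain ⟨e⟩ : Nonempty (P ≃ Fin P.card) := ⟨P.equivFin⟩
  refine ⟨(Finset.range P.card).map Nat.castEmbedding,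
    fun i => if h : i.toNat < P.card then closedBall ((e.symm ⟨i.toNat, h⟩ : P) : ℂ) r else ∅,
    ?_, ?_, ?_⟩
  · intro x hx
    obtain ⟨p, hp, hxp⟩ := mem_iUnion₂.1 (h2 hx)
    refine mem_iUnion₂.2 ⟨((e ⟨p, hp⟩ : Fin P.card) : ℕ), ?_, ?_⟩
    · rw [Finset.mem_map]
      exact ⟨(e ⟨p, hp⟩ : Fin P.card), Finset.mem_range.2 (e ⟨p, hp⟩).2, rfl⟩
    · have h3 : ((((e ⟨p, hp⟩ : Fin P.card) : ℕ) : ℤ)).toNat < P.card := by
        rw [Int.toNat_natCast]; exact (e ⟨p, hp⟩).2
      simp only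
      rw [dif_pos h3]
      have h4 : (⟨((((e ⟨p, hp⟩ : Fin P.card) : ℕ) : ℤ)).toNat, h3⟩ : Fin P.card) = e ⟨p, hp⟩ := by
        apply Fin.ext
        simp
      rw [h4, Equiv.symm_apply_apply]
      exact hxp
  · intro i _
    simp only
    split_ifs with h
    · rw [← Metric.closedEBall_ofReal hr]
      refine ediam_closedEBall_le.trans (le_of_eq ?_)
      rw [ENNReal.ofReal_mul (by norm_num)]
      norm_num
    · simp
  · rw [Finset.card_map, Finset.card_range]
    exact h1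

theorem CovB.covBy {A : Set ℂ} {r N : ℝ} (h : CovB A r N) : UP.CovBy A r N := by
  obtain ⟨P, h1, h2⟩ := h
  exact ⟨P, h2, h1⟩

end Pool.Agent.N892.MA
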