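import Pool.Agent.N892.MA.Gen

/-!
Intersections with all curves of class `C^(1,α)`.
-/

set_option autoImplicit false

namespace Pool.Agent.N892.MA

open MeasureTheory Metric Set Filter Topology
open Pool.Agent.N892.UP (packDim upperBoxDim CovBy)
open Pool.Agent.N892.AC (ln)
open scoped ENNReal NNReal

/-- The bounds for the intersections with all curves of class `C^(1,α)` with non-vanishing
derivative. -/
def CrvBd (T D : Set ℂ) (b : ℝ) : Prop :=
  ∀ (J : Set ℝ) (γ : ℝ → ℂ), HolderC1 γ J → (∀ t ∈ J, deriv γ t ≠ 0) →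
    dimH (T ∩ D ∩ γ '' J) ≤ ENNReal.ofReal b ∧ packDim (T ∩ D ∩ γ '' J) ≤ ENNReal.ofReal b

/-- The extension of a curve to the plane. -/
noncomputable def ext (γ : ℝ → ℂ) (v : ℂ) (z : ℂ) : ℂ := γ z.im + z.re • v

theorem ext_fderiv {γ : ℝ → ℂ} {z : ℂ} (h : DifferentiableAt ℝ γ z.im) (v : ℂ) :
    HasFDerivAt (ext γ v) ((fderiv ℝ γ z.im).comp Complex.imCLM + Complex.reCLM.smulRight v) z := by
  have h1 : HasFDerivAt (fun z : ℂ => γ z.im) ((fderiv ℝ γ z.im).comp Complex.imCLM) z :=
    h.hasFDerivAt.comp z Complex.imCLM.hasFDerivAt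
  have h2 : HasFDerivAt (fun z : ℂ => z.re • v) (Complex.reCLM.smulRight v) z :=
    Complex.reCLM.hasFDerivAt.smul_const v
  exact h1.add h2

theorem crvBd_of {T D : Set ℂ} {b : ℝ} (h : CopBd T D (ln 1 0) b) : CrvBd T D b := by
  intro J γ hγ hreg
  have hloc : ∀ t ∈ J, ∃ ρ : ℝ, 0 < ρ ∧ dimH (T ∩ D ∩ γ '' (J ∩ ball t ρ)) ≤ ENNReal.ofReal b ∧
      packDim (T ∩ D ∩ γ '' (J ∩ ball t ρ)) ≤ ENNReal.ofReal b := by
    intro t ht
    obtain ⟨ρ0, α, C, hρ0, hρ1, hα, hα1, hC, hd, hH, -⟩ := taylor hγ ht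
    set w : ℂ := deriv γ t with hw
    have hw0 : 0 < ‖w‖ := norm_pos_iff.2 (hreg t ht)
    obtain ⟨ρ, hρ, hρρ0, hρN⟩ : ∃ ρ : ℝ, 0 < ρ ∧ ρ ≤ ρ0 ∧ C * ρ ^ α < ‖w‖ := by
      have h1 : Tendsto (fun ρ : ℝ => C * ρ ^ α) (𝓝[>] 0) (𝓝 (C * 0 ^ α)) :=
        ((Real.continuousAt_rpow_const 0 α (Or.inr hα.le)).tendsto.const_mul C).mono_left
          nhdsWithin_le_nhds
      rw [Real.zero_rpow hα.ne', mul_zero] at h1
      have h2 := h1.eventually (gt_mem_nhds hw0)
      have h3 : ∀ᶠ ρ in 𝓝[>] (0:ℝ), ρ ∈ Ioo 0 ρ0 := Ioo_mem_nhdsGT hρ0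
      obtain ⟨ρ, k1, k2⟩ := (h2.and h3).exists
      exact ⟨ρ, k2.1, k2.2.le, k1⟩
    set v : ℂ := Complex.I * w with hv
    set U : Set ℂ := {z | z.im ∈ ball t ρ} with hU
    have hUo : IsOpen U := isOpen_ball.preimage Complex.continuous_im
    have hsub : ball t ρ ⊆ ball t ρ0 := ball_subset_ball hρρ0
    have hφ : HolderC1 (ext γ v) U := by
      intro z hz
      refine ⟨U, hUo.mem_nhds hz, α, C, hα, ?_, ?_⟩
      · intro y hy
        exact (ext_fderiv (hd _ (hsub hy)) v).differentiableAt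
      · intro y hy z hz
        rw [(ext_fderiv (hd _ (hsub hy)) v).fderiv, (ext_fderiv (hd _ (hsub hz)) v).fderiv]
        have e : (fderiv ℝ γ y.im).comp Complex.imCLM + Complex.reCLM.smulRight v -
            ((fderiv ℝ γ z.im).comp Complex.imCLM + Complex.reCLM.smulRight v) =
            (fderiv ℝ γ y.im - fderiv ℝ γ z.im).comp Complex.imCLM := by
          rw [ContinuousLinearMap.sub_comp]; abel
        rw [e]
        refine (ContinuousLinearMap.opNorm_comp_le _ _).trans ?_
        rw [Complex.imCLM_norm, mul_one]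
        refine (hH y.im (hsub hy) z.im (hsub hz)).trans ?_
        apply mul_le_mul_of_nonneg_left _ hC
        apply Real.rpow_le_rpow (norm_nonneg _) _ hα.le
        rw [Real.norm_eq_abs, ← Complex.sub_im]
        exact Complex.abs_im_le_norm _
    have hinj : ∀ z ∈ U, Function.Injective (fderiv ℝ (ext γ v) z) := by
      intro z hz
      rw [injective_iff_map_eq_zero]
      intro u hu
      rw [(ext_fderiv (hd _ (hsub hz)) v).fderiv] at hu
      have hu' : u.im • deriv γ z.im + u.re • v = 0 := by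
        have e : ((fderiv ℝ γ z.im).comp Complex.imCLM + Complex.reCLM.smulRight v) u =
            (fderiv ℝ γ z.im) u.im + u.re • v := rfl
        rw [e] at hu
        have e2 : (fderiv ℝ γ z.im) u.im = u.im • deriv γ z.im := by
          rw [← fderiv_apply_one_eq_deriv, ← map_smul, smul_eq_mul, mul_one]
        rwa [e2] at hu
      -- the derivative is close to `w`
      have hclose : ‖deriv γ z.im - w‖ < ‖w‖ := by
        refine lt_of_le_of_lt ?_ hρN
        have h1 := hH z.im (hsub hz) t (mem_ball_self hρ0)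
        have h2 : deriv γ z.im - w = (fderiv ℝ γ z.im - fderiv ℝ γ t) 1 := by
          show deriv γ z.im - w = fderiv ℝ γ z.im 1 - fderiv ℝ γ t 1
          rw [fderiv_apply_one_eq_deriv, fderiv_apply_one_eq_deriv]
        rw [h2]
        refine ((fderiv ℝ γ z.im - fderiv ℝ γ t).le_opNorm 1).trans ?_
        rw [norm_one, mul_one]
        refine h1.trans ?_
        apply mul_le_mul_of_nonneg_left _ hC
        apply Real.rpow_le_rpow (norm_nonneg _) _ hα.le
        rw [← dist_eq_norm]
        exact (mem_ball.1 hz).le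
      set x : ℂ := deriv γ z.im with hx
      -- multiply by the conjugate of `w`
      have h3 : 0 < ((starRingEnd ℂ) w * x).re := by
        have h4 : (starRingEnd ℂ) w * x = (starRingEnd ℂ) w * w + (starRingEnd ℂ) w * (x - w) := by
          ring
        have h5 : ((starRingEnd ℂ) w * w).re = ‖w‖ ^ 2 := by
          rw [← Complex.normSq_eq_conj_mul_self, Complex.ofReal_re, Complex.normSq_eq_norm_sq]
        have h6 : |((starRingEnd ℂ) w * (x - w)).re| ≤ ‖w‖ * ‖x - w‖ := by
          refine (Complex.abs_re_le_norm _).trans ?_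
          rw [norm_mul, RCLike.norm_conj]
        rw [h4, Complex.add_re, h5]
        rw [abs_le] at h6
        nlinarith [h6.1]
      have h7 : u.im * ((starRingEnd ℂ) w * x).re = 0 := by
        have h8 : (starRingEnd ℂ) w * (u.im • x + u.re • v) = 0 := by rw [hu', mul_zero]
        have h9 : ((starRingEnd ℂ) w * (u.im • x + u.re • v)).re =
            u.im * ((starRingEnd ℂ) w * x).re + u.re * ((starRingEnd ℂ) w * v).re := by
          rw [mul_add, Complex.add_re, mul_smul_comm, mul_smul_comm, Complex.smul_re,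
            Complex.smul_re, smul_eq_mul, smul_eq_mul]
        have h10 : ((starRingEnd ℂ) w * v).re = 0 := by
          rw [hv]
          have : (starRingEnd ℂ) w * (Complex.I * w) = Complex.I * ((starRingEnd ℂ) w * w) := by
            ring
          rw [this, ← Complex.normSq_eq_conj_mul_self]
          simp
        rw [h8, h10, mul_zero, add_zero, Complex.zero_re] at h9
        exact h9.symm
      have h11 : u.im = 0 := by
        rcases mul_eq_zero.1 h7 with h | h
        · exact h
        · exact absurd h h3.ne'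
      have h12 : u.re = 0 := by
        rw [h11, zero_smul, zero_add] at hu'
        rcases smul_eq_zero.1 hu' with h | h
        · exact h
        · exfalso
          rw [hv] at h
          rcases mul_eq_zero.1 h with h | h
          · exact Complex.I_ne_zero h
          · rw [h, norm_zero] at hw0; exact lt_irrefl _ hw0
      exact Complex.ext h12 h11
    obtain ⟨k1, k2⟩ := h U (ext γ v) hφ hinj
    have hs : T ∩ D ∩ γ '' (J ∩ ball t ρ) ⊆ T ∩ D ∩ ext γ v '' (ln 1 0 ∩ U) := by
      rintro _ ⟨hz, s, ⟨-, hs⟩, rfl⟩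
      refine ⟨hz, (s:ℂ) * Complex.I, ⟨?_, ?_⟩, ?_⟩
      · show ((starRingEnd ℂ) 1 * ((s:ℂ) * Complex.I)).re = 0
        simp
      · show ((s:ℂ) * Complex.I).im ∈ ball t ρ
        have : ((s:ℂ) * Complex.I).im = s := by simp
        rw [this]; exact hs
      · unfold ext
        have e1 : ((s:ℂ) * Complex.I).im = s := by simp
        have e2 : ((s:ℂ) * Complex.I).re = 0 := by simp
        rw [e1, e2, zero_smul, add_zero]
    exact ⟨ρ, hρ, (dimH_mono hs).trans k1, (packDim_mono hs).trans k2⟩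
  choose! ρ hρ hb1 hb2 using hloc
  obtain ⟨t, htJ, htc, ht⟩ := TopologicalSpace.countable_cover_nhdsWithin
    (f := fun x => ball x (ρ x)) (s := J)
    (fun x hx => mem_nhdsWithin_of_mem_nhds (ball_mem_nhds x (hρ x hx)))
  have hsub : T ∩ D ∩ γ '' J ⊆ ⋃ x ∈ t, T ∩ D ∩ γ '' (J ∩ ball x (ρ x)) := by
    rintro _ ⟨hz, s, hs, rfl⟩
    obtain ⟨x, hx, hsx⟩ := mem_iUnion₂.1 (ht hs)
    exact mem_iUnion₂.2 ⟨x, hx, hz, s, ⟨hs, hsx⟩, rfl⟩
  constructor
  · refine (dimH_mono hsub).trans ?_
    rw [dimH_bUnion htc]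
    exact iSup₂_le fun x hx => hb1 x (htJ hx)
  · exact packDim_of_countable htc hsub fun x hx =>
      (packDim_mono inter_subset_right).trans (hb2 x (htJ hx))

end Pool.Agent.N892.MA
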