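import Pool.Agent.N892.MA.Rp
import Pool.Agent.N892.MA.Crv
import Pool.Agent.Y997.OB.Main
import Pool.Agent.W500.PD.UO

/-!
The perimeters of the largest clusters: double points and accessible points.
-/

set_option autoImplicit false

namespace Pool.Agent.N892.MA

open H974 H12S H389NS H984P H984N H342P H342L H342T MeasureTheory Filter Topology
open Pool.Agent.W92.DP Pool.Agent.W424.OD Pool.Agent.W462.DPL Pool.Agent.W822.PD
open Pool.Agent.W978.PDUL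
open Pool.Agent.TH990.FU (Ev3 Ev3_anti E3U E3U_of Acc)
open Pool.Agent.Y997.OB (CE CE_open detP)
open Pool.Agent.N892.AC (Lines Cop Reg cop_ent lines_ent)
open scoped ENNReal NNReal

/-- A rectangle which contains the unit square. -/
noncomputable def bigR : Rect := ⟨1, 2, 2, 0, by norm_num, by norm_num, by norm_num, by norm_num,
  by norm_num⟩

theorem Sq_sub : Sq ⊆ bigR.D := by
  rintro z ⟨h1, h2, h3, h4⟩
  refine ⟨?_, ?_, h3, ?_⟩
  · show -(1:ℝ) < z.re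
    linarith
  · show z.re < (2:ℝ)
    linarith
  · show z.im < (2:ℝ)
    linarith

theorem EntD.mono {D D' : Set ℂ} {𝓢 : Set (Set ℂ)} {a : ℝ} (h : EntD D 𝓢 a) (hD : D' ⊆ D) :
    EntD D' 𝓢 a := by
  intro ε hε
  obtain ⟨K, c, hK⟩ := h ε hε
  refine ⟨K, c, fun r hr hr1 => ?_⟩
  obtain ⟨𝒜, h1, h2, h3⟩ := hK r hr hr1
  refine ⟨𝒜, h1, h2, fun S hS => ?_⟩
  obtain ⟨A, hA, hA'⟩ := h3 S hS
  exact ⟨A, hA, fun z hz => hA' z ⟨hz.1, hD hz.2⟩⟩

theorem box_sq {z : ℂ} {d : ℝ} {n : ℕ} (hn : 0 < n) (hd : 64 * (1 / (n : ℝ)) ≤ d)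
    (hball : Metric.ball z d ⊆ Sq) :
    blk (cn 0 (1 / (n:ℝ)) z) ⌊d / (8 * (1 / (n : ℝ)))⌋₊ ⊆ RE 0 n 0 n := by
  obtain ⟨b1, b2, b3, b4⟩ := dom_boxC hn hd hball
  have e : cn 0 (1 / (n:ℝ)) z = ctc (1 / n) z := by
    unfold cn ctc
    rw [sub_zero]
  rw [e]
  exact RE_subset b1.le b2.le b3.le b4.le

theorem cn_ctc (δ : ℝ) (z : ℂ) : cn 0 δ z = ctc δ z := by
  unfold cn ctc
  rw [sub_zero]

theorem law_sq {n : ℕ} (f : Finset Plain.Edge → Curve) {U : Set Curve} (hU : IsOpen U) :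
    (lawOf n f : Measure Curve) U ≤ ENNReal.ofReal (PQ (1/2) (RE 0 n 0 n) (fun F => f F ∈ U)) := by
  rw [lawOf_apply _ _ hU.measurableSet, Plain.prob_eq]

/-- The events for double points. -/
def EvCD (_ : ℕ) (z : ℂ) (r d : ℝ) : Set Curve := {c | 0 < d → c ∈ EvC z r (d / 2)}

/-- The events for accessible points. -/
def EvCA (j : ℕ) (z : ℂ) (r d : ℝ) : Set Curve :=
  {c | 0 < d → c ∈ CE z r (d / 2) (1 / ((j:ℝ) + 1))}

theorem inv_tendsto {k : ℕ → ℕ} (hk : Tendsto k atTop atTop) :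
    Tendsto (fun i => 1 / (k i : ℝ)) atTop (𝓝 0) :=
  tendsto_one_div_atTop_nhds_zero_nat.comp hk

section
variable {sel : (n : ℕ) → Finset Plain.Edge → ℤ × ℤ} {γ : (n : ℕ) → Finset Plain.Edge → Curve}
  (hT : Tr sel γ) {k : ℕ → ℕ} (hk : Tendsto k atTop atTop) (hk1 : ∀ i, 0 < k i)
include hT hk hk1

theorem latC4 : Lat 0 (fun i => 1 / (k i : ℝ)) (fun i => RE 0 (k i) 0 (k i))
    (fun i F => γ (k i) F) (fun i => lawOf (k i) (γ (k i))) Sq EvCD Arm4 := by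
  have hpos : ∀ i, (0:ℝ) < 1 / (k i : ℝ) := fun i => by
    have : (0:ℝ) < k i := by exact_mod_cast hk1 i
    positivity
  refine ⟨hpos, inv_tendsto hk, fun i U hU => law_sq _ hU, ?_, ?_, ?_, ?_, ?_⟩
  · intro j z r d
    by_cases hd : 0 < d
    · have : EvCD j z r d = EvC z r (d / 2) := by
        ext p; exact ⟨fun h => h hd, fun h _ => h⟩
      rw [this]
      exact EvC_open _ _ _
    · have : EvCD j z r d = Set.univ := by
        ext p; exact ⟨fun _ => Set.mem_univ _, fun _ h => absurd h hd⟩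
      rw [this]
      exact isOpen_univ
  · intro j j' z r d _
    exact le_rfl
  · intro j z r r' d d' hr hd p hp hd'
    obtain ⟨s, t, h1, h2, h3, ⟨u, hu, h4⟩, v, hv, h5⟩ := hp (hd'.trans_le hd)
    exact ⟨s, t, h1, h2.trans_le hr, h3.trans_le hr, ⟨u, hu, by linarith⟩, v, hv, by linarith⟩
  · exact Eventually.of_forall fun i z d hd hball => box_sq (hk1 i) hd hball
  · intro j
    refine Eventually.of_forall fun i z r d hr hd hball F hF hE => ?_
    have hδi := hpos i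
    have hr0 : 0 < r := hδi.trans_le hr
    rw [cn_ctc]
    exact detC Pool.Agent.W500.PD.uo (hk1 i) hr hd
      (hT.2 (k i) F (hk1 i) (by rw [Plain.edges_eq]; exact hF)) (hE (by linarith))

theorem latC3 : Lat 0 (fun i => 1 / (k i : ℝ)) (fun i => RE 0 (k i) 0 (k i))
    (fun i F => γ (k i) F) (fun i => lawOf (k i) (γ (k i))) Sq EvCA Arm3 := by
  have hpos : ∀ i, (0:ℝ) < 1 / (k i : ℝ) := fun i => by
    have : (0:ℝ) < k i := by exact_mod_cast hk1 i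
    positivity
  refine ⟨hpos, inv_tendsto hk, fun i U hU => law_sq _ hU, ?_, ?_, ?_, ?_, ?_⟩
  · intro j z r d
    by_cases hd : 0 < d
    · have : EvCA j z r d = CE z r (d / 2) (1 / ((j:ℝ) + 1)) := by
        ext p; exact ⟨fun h => h hd, fun h _ => h⟩
      rw [this]
      exact CE_open _ _ _ _
    · have : EvCA j z r d = Set.univ := by
        ext p; exact ⟨fun _ => Set.mem_univ _, fun _ h => absurd h hd⟩
      rw [this]
      exact isOpen_univ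
  · intro j j' z r d hj p hp hd
    exact Ev3_anti (Nat.one_div_le_one_div hj) (hp hd)
  · intro j z r r' d d' hr hd p hp hd'
    obtain ⟨⟨s, hs⟩, ⟨s', hs'⟩, g, h1, h2, h3⟩ := hp (hd'.trans_le hd)
    exact ⟨⟨s, hs.trans_le hr⟩, ⟨s', by linarith⟩, g, h1.trans_le hr, by linarith, h3⟩
  · exact Eventually.of_forall fun i z d hd hball => box_sq (hk1 i) hd hball
  · intro j
    have h8 : (0:ℝ) < 1 / ((j:ℝ) + 1) / 8 := by positivity
    filter_upwards [(inv_tendsto hk).eventually (gt_mem_nhds h8)] with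
      i hi z r d hr hd hball F hF hE
    have hδi := hpos i
    have hr0 : 0 < r := hδi.trans_le hr
    rw [cn_ctc]
    exact detP (hk1 i) hr hd (by linarith)
      (hT.2 (k i) F (hk1 i) (by rw [Plain.edges_eq]; exact hF)) (hE (by linarith))

theorem kpC4 {μ : ProbabilityMeasure Curve}
    (hμ : Tendsto (fun i => lawOf (k i) (γ (k i))) atTop (𝓝 μ)) :
    KP (μ : Measure Curve) Sq (5/4) (fun z r d => ⋃ j, EvCD j z r d) := by
  obtain ⟨C, hC, hA⟩ := isArm4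
  exact E.t (B.t A.t) Curve 0 (fun i => 1 / (k i : ℝ)) _ _ _ μ Sq EvCD Arm4 (5/4) C (by norm_num)
    hC hA (latC4 hT hk hk1) hμ

theorem kpC3 {μ : ProbabilityMeasure Curve}
    (hμ : Tendsto (fun i => lawOf (k i) (γ (k i))) atTop (𝓝 μ)) (hU : U3) :
    KP (μ : Measure Curve) Sq (2/3) (fun z r d => ⋃ j, EvCA j z r d) := by
  obtain ⟨C, hC, hA⟩ := isArm3 hU
  exact E.t (B.t A.t) Curve 0 (fun i => 1 / (k i : ℝ)) _ _ _ μ Sq EvCA Arm3 (2/3) C (by norm_num)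
    hC hA (latC3 hT hk hk1) hμ

end

/-- Shift of the sequence. -/
theorem shift {γ : (n : ℕ) → Finset Plain.Edge → Curve} {k : ℕ → ℕ} (hk : Tendsto k atTop atTop)
    {μ : ProbabilityMeasure Curve}
    (hμ : Tendsto (fun i => lawOf (k i) (γ (k i))) atTop (𝓝 μ)) :
    ∃ k' : ℕ → ℕ, Tendsto k' atTop atTop ∧ (∀ i, 0 < k' i) ∧
      Tendsto (fun i => lawOf (k' i) (γ (k' i))) atTop (𝓝 μ) := by
  obtain ⟨N, hN⟩ := eventually_atTop.1 (tendsto_atTop.1 hk 1)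
  refine ⟨fun i => k (i + N), hk.comp (tendsto_add_atTop_nat N), fun i => ?_,
    hμ.comp (tendsto_add_atTop_nat N)⟩
  exact hN (i + N) (by omega)

section
variable {sel : (n : ℕ) → Finset Plain.Edge → ℤ × ℤ} {γ : (n : ℕ) → Finset Plain.Edge → Curve}
  (hT : Tr sel γ) {k : ℕ → ℕ} (hk : Tendsto k atTop atTop) {μ : ProbabilityMeasure Curve}
  (hμ : Tendsto (fun i => lawOf (k i) (γ (k i))) atTop (𝓝 μ))
include hT hk hμ

/-- Double points. -/
theorem allC4 :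
    (∀ᵐ c ∂(μ : Measure Curve), FunBd (⋃ n : ℕ, DPc (1 / ((n:ℝ) + 1)) c.path) Sq 0) ∧
    (∀ (S : Set ℂ) (a : ℝ), 0 < a → a ≤ 2 → Reg S a →
      ∀ᵐ c ∂(μ : Measure Curve), CopBd (⋃ n : ℕ, DPc (1 / ((n:ℝ) + 1)) c.path) Sq S
        (max (a - 5/4) 0)) ∧
    (∀ᵐ c ∂(μ : Measure Curve), ∀ n k : ℕ,
      Reg (DPc (1 / ((n:ℝ) + 1)) c.path ∩ DepD Sq (1 / ((k:ℝ) + 1))) (3/4)) := by
  obtain ⟨k', hk', hk1, hμ'⟩ := shift hk hμ
  have h := all_ae D.t C.t ((D_bounded bigR).subset Sq_sub) Sq_open (by norm_num)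
    (by norm_num) (kpC4 hT hk' hk1 hμ') (T := fun n (c : Curve) => DPc (1 / ((n:ℝ) + 1)) c.path) (by
      intro n p w z r d hw hwz hrd
      refine Set.mem_iUnion.2 ⟨0, fun hd => ?_⟩
      exact EvC_of_DPc hw hwz (by linarith)) (EntD.mono (lines_ent bigR) Sq_sub)
    (fun S a m hS hm => EntD.mono (cop_ent bigR hS hm) Sq_sub)
  have e1 : max ((1:ℝ) - 5/4) 0 = 0 := by norm_num
  have e2 : (2:ℝ) - 5/4 = 3/4 := by norm_num
  rw [e1, e2] at h
  exact h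

/-- Accessible points. -/
theorem allC3 (hU : U3) :
    (∀ᵐ c ∂(μ : Measure Curve), FunBd (⋃ n : ℕ, Acc (1 / ((n:ℝ) + 1)) c.path) Sq (1/3)) ∧
    (∀ (S : Set ℂ) (a : ℝ), 0 < a → a ≤ 2 → Reg S a →
      ∀ᵐ c ∂(μ : Measure Curve), CopBd (⋃ n : ℕ, Acc (1 / ((n:ℝ) + 1)) c.path) Sq S
        (max (a - 2/3) 0)) ∧
    (∀ᵐ c ∂(μ : Measure Curve), ∀ n k : ℕ,
      Reg (Acc (1 / ((n:ℝ) + 1)) c.path ∩ DepD Sq (1 / ((k:ℝ) + 1))) (4/3)) := by
  obtain ⟨k', hk', hk1, hμ'⟩ := shift hk hμ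
  have h := all_ae D.t C.t ((D_bounded bigR).subset Sq_sub) Sq_open (by norm_num)
    (by norm_num) (kpC3 hT hk' hk1 hμ' hU)
    (T := fun n (c : Curve) => Acc (1 / ((n:ℝ) + 1)) c.path) (by
      intro n p w z r d hw hwz hrd
      by_cases hd : 0 < d
      · have h1 := E3U_of (ρ := d / 2) hw hwz (by linarith)
        unfold E3U at h1
        obtain ⟨j, hj⟩ := Set.mem_iUnion.1 h1
        exact Set.mem_iUnion.2 ⟨j, fun _ => hj⟩
      · exact Set.mem_iUnion.2 ⟨0, fun h1 => absurd h1 hd⟩) (EntD.mono (lines_ent bigR) Sq_sub)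
    (fun S a m hS hm => EntD.mono (cop_ent bigR hS hm) Sq_sub)
  have e1 : max ((1:ℝ) - 2/3) 0 = 1/3 := by norm_num
  have e2 : (2:ℝ) - 2/3 = 4/3 := by norm_num
  rw [e1, e2] at h
  exact h

end

end Pool.Agent.N892.MA
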