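import Pool.Agent.N892.MA.Stm

/-!
Project MA, part D: Borel-Cantelli over nets and scales.
-/

set_option autoImplicit false

namespace Pool.Agent.N892.MA.D

open Finset MeasureTheory Filter Topology
open scoped ENNReal

theorem wtc_eq (σ r d : ℝ) (l : List ℂ) :
    wtc σ r d l = wl ((r / d) ^ σ) (fun y u => (r / max r (dist y u)) ^ σ) l := by
  induction l with
  | nil => rfl
  | cons z l ih => simp only [wtc, wl, ih]

theorem cover (R : ℝ) : ∃ N : ℕ, ∀ (x : ℂ) (r : ℝ), 0 < r → ∃ P : Finset ℂ, P.card ≤ N ∧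
    Metric.closedBall x (R * r) ⊆ ⋃ p ∈ P, Metric.closedBall p r := by
  classical
  obtain ⟨t, -, ht, hc⟩ := (isCompact_closedBall (0:ℂ) R).finite_cover_balls one_pos
  refine ⟨ht.toFinset.card, fun x r hr => ⟨ht.toFinset.image (fun p => x + r * p),
    Finset.card_image_le, ?_⟩⟩
  intro w hw
  have h1 : (w - x) / r ∈ Metric.closedBall (0:ℂ) R := by
    rw [mem_closedBall_zero_iff, norm_div, Complex.norm_real, Real.norm_of_nonneg hr.le,
      div_le_iff₀ hr, ← dist_eq_norm]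
    exact hw
  obtain ⟨p, hp, hd⟩ := Set.mem_iUnion₂.1 (hc h1)
  refine Set.mem_iUnion₂.2 ⟨x + r * p, Finset.mem_image.2 ⟨p, ht.mem_toFinset.2 hp, rfl⟩, ?_⟩
  rw [Metric.mem_closedBall]
  rw [Metric.mem_ball, dist_eq_norm] at hd
  have hr0 : (r : ℂ) ≠ 0 := by exact_mod_cast hr.ne'
  have e : w - (x + r * p) = r * ((w - x) / r - p) := by field_simp; ring
  rw [dist_eq_norm, e, norm_mul, Complex.norm_real, Real.norm_of_nonneg hr.le]
  nlinarith

theorem mpt {ρ σ t : ℝ} (hρ : 0 < ρ) (hσ : 0 < σ) (N : ℕ) (hN : t < ρ * 2 ^ (N + 1)) :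
    (ρ / max ρ t) ^ σ ≤
      ∑ n ∈ range (N + 1), if t ≤ ρ * 2 ^ (n + 1) then ((2:ℝ) ^ n) ^ (-σ) else 0 := by
  set m : ℝ := max ρ t with hm
  have hm0 : 0 < m := lt_max_of_lt_left hρ
  have hρm : ρ ≤ m := le_max_left _ _
  have hmN : m < ρ * 2 ^ (N + 1) := by
    refine max_lt ?_ hN
    have : (1:ℝ) < 2 ^ (N + 1) := one_lt_pow₀ one_lt_two (by omega)
    nlinarith
  obtain ⟨n, hn1, hn2⟩ := exists_nat_pow_near (x := m / ρ) (y := (2:ℝ))
    (by rwa [le_div_iff₀ hρ, one_mul]) one_lt_two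
  rw [le_div_iff₀ hρ] at hn1
  rw [div_lt_iff₀ hρ] at hn2
  have hn : n ∈ range (N + 1) := by
    rw [Finset.mem_range]
    have h2 : (2:ℝ) ^ n < 2 ^ (N + 1) := by
      by_contra hcon
      push Not at hcon
      nlinarith
    exact (pow_lt_pow_iff_right₀ one_lt_two).1 h2
  have hsum : ∀ n ∈ range (N + 1), 0 ≤ (if t ≤ ρ * 2 ^ (n + 1) then ((2:ℝ) ^ n) ^ (-σ) else 0) := by
    intro n _
    split_ifs
    · positivity
    · exact le_rfl
  have h4 := Finset.single_le_sum hsum hn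
  rw [if_pos ((le_max_right _ _).trans (by rw [← hm]; linarith))] at h4
  refine le_trans ?_ h4
  rw [Real.rpow_neg (by positivity), ← Real.inv_rpow (by positivity)]
  apply Real.rpow_le_rpow (by positivity) _ hσ.le
  rw [div_le_iff₀ hm0, inv_mul_eq_div, le_div_iff₀ (by positivity)]
  linarith

open Classical in
theorem msum {r σ a b K1 : ℝ} (hr : 0 < r) (hσ : 0 < σ) (hK : 0 ≤ K1) (hb : a - σ ≤ b)
    (hb0 : 0 ≤ b) (Y : Finset ℂ)
    (hreg : ∀ (z : ℂ) (h : ℝ), r ≤ h →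
      ((Y.filter (fun y => dist y z ≤ h)).card : ℝ) ≤ K1 * (h / r) ^ a)
    (u : ℂ) (N : ℕ) (hN : ∀ y ∈ Y, dist y u < 3 * r * 2 ^ (N + 1)) :
    ∑ y ∈ Y, (3 * r / max (3 * r) (dist y u)) ^ σ ≤
      K1 * (6:ℝ) ^ a * ((N + 1) * ((2:ℝ) ^ N) ^ b) := by
  have h3r : 0 < 3 * r := by positivity
  refine (Finset.sum_le_sum fun y hy => mpt h3r hσ N (hN y hy)).trans ?_
  rw [Finset.sum_comm]
  have h2 : ∀ n ∈ range (N + 1), ∑ y ∈ Y, (if dist y u ≤ 3 * r * 2 ^ (n + 1) then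
      ((2:ℝ) ^ n) ^ (-σ) else 0) ≤ K1 * (6:ℝ) ^ a * ((2:ℝ) ^ N) ^ b := by
    intro n hn
    rw [Finset.mem_range] at hn
    rw [← Finset.sum_filter, Finset.sum_const, nsmul_eq_mul]
    have hp : (0:ℝ) < 2 ^ n := by positivity
    have h2n : (1:ℝ) ≤ 2 ^ n := one_le_pow₀ one_le_two
    have hnr : r ≤ 3 * r * 2 ^ (n + 1) := by
      rw [pow_succ]; nlinarith
    have h5 := hreg u _ hnr
    have h6 : (0:ℝ) ≤ ((2:ℝ) ^ n) ^ (-σ) := by positivity
    refine (mul_le_mul_of_nonneg_right h5 h6).trans ?_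
    have e1 : 3 * r * 2 ^ (n + 1) / r = 6 * 2 ^ n := by
      field_simp; ring
    rw [e1, Real.mul_rpow (by norm_num) hp.le]
    have e2 : K1 * ((6:ℝ) ^ a * ((2:ℝ) ^ n) ^ a) * ((2:ℝ) ^ n) ^ (-σ) =
        K1 * (6:ℝ) ^ a * ((2:ℝ) ^ n) ^ (a - σ) := by
      rw [show a - σ = a + (-σ) by ring, Real.rpow_add hp]; ring
    rw [e2]
    apply mul_le_mul_of_nonneg_left _ (by positivity)
    refine (Real.rpow_le_rpow_of_exponent_le h2n hb).trans ?_
    exact Real.rpow_le_rpow hp.le (pow_le_pow_right₀ one_le_two (by omega)) hb0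
  refine (Finset.sum_le_sum h2).trans (le_of_eq ?_)
  rw [Finset.sum_const, nsmul_eq_mul, Finset.card_range]
  push_cast
  ring

/-- The constant. -/
noncomputable def Gc (a b σ kk : ℝ) : ℝ := (6:ℝ) ^ a * ((3 / kk) ^ σ + (4:ℝ) ^ b)

theorem Gc_pos {a b σ kk : ℝ} (hkk : 0 < kk) : 0 < Gc a b σ kk := by
  unfold Gc; positivity

open Classical in
theorem one_set (hC : S_C) {Ω : Type} [MeasurableSpace Ω] (μ : Measure Ω) [IsProbabilityMeasure μ]
    {D : Set ℂ} {σ : ℝ} {Ev : ℂ → ℝ → ℝ → Set Ω} (hσ : 0 < σ) (hKP : KP μ D σ Ev)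
    {a b kk : ℝ} (hkk : 0 < kk) (hb : a - σ ≤ b) (hb0 : 0 ≤ b) (k : ℕ) :
    ∃ C : ℝ, 0 < C ∧ ∀ (i j : ℕ), i ≤ j → 3 * (1/2 : ℝ) ^ j ≤ kk * (1/2) ^ i →
      ∀ (K1 : ℝ), 0 < K1 → ∀ Y : Finset ℂ, (∀ y ∈ Y, Metric.ball y (kk * (1/2) ^ i) ⊆ D) →
      (Y.card : ℝ) ≤ K1 * (6 * (1/2) ^ i / (1/2) ^ j) ^ a →
      (∀ (z : ℂ) (h : ℝ), (1/2 : ℝ) ^ j ≤ h →
        ((Y.filter (fun y => dist y z ≤ h)).card : ℝ) ≤ K1 * (h / (1/2) ^ j) ^ a) →
      (∀ y ∈ Y, ∀ u ∈ Y, dist y u ≤ 12 * (1/2) ^ i) → ∀ t : ℝ, 0 < t →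
      μ {ω | t * (K1 * Gc a b σ kk * (j + 3) * (2 ^ (j - i) : ℝ) ^ b) <
        ((Y.filter fun y => ω ∈ Ev y (3 * (1/2) ^ j) (kk * (1/2) ^ i)).card : ℝ)} ≤
        ENNReal.ofReal (C * (1 / t) ^ k) := by
  obtain ⟨C, hC0, hbd⟩ := hKP.bd k
  refine ⟨C * (k + 1) ^ k, by positivity, ?_⟩
  intro i j hij hrd K1 hK1 Y hYD hYc hreg hYd t ht
  set r : ℝ := (1/2 : ℝ) ^ j with hr
  set h : ℝ := (1/2 : ℝ) ^ i with hh
  have hr0 : 0 < r := by positivity
  have hh0 : 0 < h := by positivity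
  have hhr : h = 2 ^ (j - i) * r := by
    rw [hh, hr, one_div, inv_pow, inv_pow]
    have : (2:ℝ) ^ j = 2 ^ (j - i) * 2 ^ i := by
      rw [← pow_add]; congr 1; omega
    rw [this]
    field_simp
  set q : ℝ := (2:ℝ) ^ (j - i) with hq
  have hq1 : 1 ≤ q := one_le_pow₀ one_le_two
  have hq0 : 0 < q := by positivity
  have hG := Gc_pos (a := a) (b := b) (σ := σ) hkk
  have hj3 : (1:ℝ) ≤ j + 3 := by
    have : (0:ℝ) ≤ j := Nat.cast_nonneg j
    linarith
  have hqb : 0 < q ^ b := by positivity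
  refine hC Ω μ ℂ Y (fun y => Ev y (3 * r) (kk * h)) k C ((3 * r / (kk * h)) ^ σ)
    (K1 * Gc a b σ kk * (j + 3) * q ^ b)
    (fun y u => (3 * r / max (3 * r) (dist y u)) ^ σ) (fun y => hKP.meas _ _ _) hC0.le
    (by positivity) (by positivity) (fun y u => by positivity) ?_ ?_ ?_ t ht
  · intro l hl hlY
    have h1 := hbd l hl (3 * r) (kk * h) (by positivity) hrd (fun z hz => hYD z (hlY z hz))
    rw [wtc_eq] at h1
    exact h1
  · intro u hu
    have h1 := msum (a := a) (b := b) hr0 hσ hK1.le hb hb0 Y hreg u (j - i + 2) (by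
      intro y hy
      refine (hYd y hy u hu).trans_lt ?_
      rw [hhr, pow_add, pow_add, ← hq]
      have : (0:ℝ) < q * r := by positivity
      nlinarith)
    refine h1.trans ?_
    have e1 : ((2:ℝ) ^ (j - i + 2)) ^ b = (4:ℝ) ^ b * q ^ b := by
      rw [pow_add, ← hq, mul_comm, Real.mul_rpow (by norm_num) hq0.le]; norm_num
    rw [e1]
    have e2 : (((j - i + 2 : ℕ) : ℝ) + 1) ≤ j + 3 := by
      have : j - i + 2 + 1 ≤ j + 3 := by omega
      exact_mod_cast this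
    unfold Gc
    have e3 : 0 ≤ (3 / kk) ^ σ := by positivity
    calc K1 * (6:ℝ) ^ a * ((((j - i + 2 : ℕ) : ℝ) + 1) * ((4:ℝ) ^ b * q ^ b))
        ≤ K1 * (6:ℝ) ^ a * ((j + 3) * (((3 / kk) ^ σ + (4:ℝ) ^ b) * q ^ b)) := by
          gcongr
          linarith
      _ = _ := by ring
  · have e1 : (3 * r / (kk * h)) ^ σ = (3 / kk) ^ σ * q ^ (-σ) := by
      have : 3 * r / (kk * h) = 3 / kk * q⁻¹ := by
        rw [hhr]; field_simp
      rw [this, Real.mul_rpow (by positivity) (by positivity), Real.inv_rpow hq0.le,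
        Real.rpow_neg hq0.le]
    have e2 : (6 * h / r) ^ a = (6:ℝ) ^ a * q ^ a := by
      have : 6 * h / r = 6 * q := by rw [hhr]; field_simp
      rw [this, Real.mul_rpow (by norm_num) hq0.le]
    rw [e1]
    rw [e2] at hYc
    have h3 : (Y.card : ℝ) * ((3 / kk) ^ σ * q ^ (-σ)) ≤
        K1 * ((6:ℝ) ^ a * q ^ a) * ((3 / kk) ^ σ * q ^ (-σ)) :=
      mul_le_mul_of_nonneg_right hYc (by positivity)
    refine h3.trans ?_
    have e4 : q ^ a * q ^ (-σ) ≤ q ^ b := by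
      rw [← Real.rpow_add hq0]
      exact Real.rpow_le_rpow_of_exponent_le hq1 (by linarith)
    unfold Gc
    have e5 : 0 ≤ (4:ℝ) ^ b := by positivity
    calc K1 * ((6:ℝ) ^ a * q ^ a) * ((3 / kk) ^ σ * q ^ (-σ))
        = K1 * (6:ℝ) ^ a * (3 / kk) ^ σ * 1 * (q ^ a * q ^ (-σ)) := by ring
      _ ≤ K1 * (6:ℝ) ^ a * ((3 / kk) ^ σ + (4:ℝ) ^ b) * (j + 3) * q ^ b := by
          gcongr
          linarith
      _ = _ := by ring

theorem card_mul {n : ℕ} {x y : ℝ} (hx : (n : ℝ) ≤ x) :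
    (n : ℝ≥0∞) * ENNReal.ofReal y ≤ ENNReal.ofReal (x * y) := by
  rw [ENNReal.ofReal_mul ((Nat.cast_nonneg n).trans hx), ← ENNReal.ofReal_natCast]
  exact mul_le_mul' (ENNReal.ofReal_le_ofReal hx) le_rfl

open Classical in
/-- The points of a net used at scale `2 ^ (-i)` near `y0`. -/
noncomputable def Yl (D : Set ℂ) (kk : ℝ) (A : Finset ℂ) (y0 : ℂ) (i : ℕ) : Finset ℂ :=
  A.filter (fun y => Metric.ball y (kk * (1/2) ^ i) ⊆ D ∧ dist y y0 ≤ 6 * (1/2) ^ i)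

open Classical in
/-- The good event. -/
def Gd {Ω : Type} (D : Set ℂ) (Ev : ℂ → ℝ → ℝ → Set Ω) (kk : ℝ) (j : ℕ) (A : Finset ℂ) (y0 : ℂ)
    (i : ℕ) (lv : ℝ) : Set Ω :=
  {ω | ((((Yl D kk A y0 i).filter
    fun y => ω ∈ Ev y (3 * (1/2) ^ j) (kk * (1/2) ^ i)).card : ℕ) : ℝ) ≤ lv}

open Classical in
/-- Borel-Cantelli. -/
theorem ev_nets (hC : S_C) {Ω : Type} [MeasurableSpace Ω] (μ : Measure Ω) [IsProbabilityMeasure μ]
    {D : Set ℂ} {σ : ℝ} {Ev : ℂ → ℝ → ℝ → Set Ω} (hσ : 0 < σ) (hKP : KP μ D σ Ev)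
    {K c a b kk ε L : ℝ} (hK : 0 < K) (hkk : 0 < kk) (hb : a - σ ≤ b) (hb0 : 0 ≤ b)
    (hε : 0 < ε) (hL : 1 ≤ L)
    (𝒜 : ℕ → Finset (Finset ℂ)) (h1 : ∀ j, ((𝒜 j).card : ℝ) ≤ K * ((1/2 : ℝ) ^ j) ^ (-c))
    (h2 : ∀ j, ∀ A ∈ 𝒜 j, ∀ (z : ℂ) (h : ℝ), (1/2 : ℝ) ^ j ≤ h →
      ((A.filter (fun y => dist y z ≤ h)).card : ℝ) ≤ K * 2 ^ (ε * j) * (h / (1/2 : ℝ) ^ j) ^ a) :
    ∀ᵐ ω ∂μ, ∀ᶠ j : ℕ in atTop, ∀ A ∈ 𝒜 j, ∀ y0 ∈ A, dist y0 0 ≤ L →
      ∀ i ≤ j, 3 * (1/2 : ℝ) ^ j ≤ kk * (1/2) ^ i →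
        ω ∈ Gd D Ev kk j A y0 i
          (2 ^ (ε * j) * (K * 2 ^ (ε * j) * Gc a b σ kk * (j + 3) * (2 ^ (j - i) : ℝ) ^ b)) := by
  obtain ⟨k, hk⟩ : ∃ k : ℕ, c + a + 2 + ε ≤ ε * k := by
    obtain ⟨k, hk⟩ := exists_nat_ge ((c + a + 2 + ε) / ε)
    exact ⟨k, by rw [div_le_iff₀ hε] at hk; linarith⟩
  obtain ⟨K', hK', H⟩ := one_set hC μ hσ hKP hkk hb hb0 k
  set bad : ℕ → Set Ω := fun j => ⋃ A ∈ 𝒜 j, ⋃ y0 ∈ A.filter (fun y => dist y 0 ≤ L),
    ⋃ i ∈ (range (j + 1)).filter (fun i => 3 * (1/2 : ℝ) ^ j ≤ kk * (1/2) ^ i),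
      (Gd D Ev kk j A y0 i
          (2 ^ (ε * j) * (K * 2 ^ (ε * j) * Gc a b σ kk * (j + 3) * (2 ^ (j - i) : ℝ) ^ b)))ᶜ
    with hbad
  -- one set
  have hone : ∀ j, ∀ A ∈ 𝒜 j, ∀ y0 : ℂ,
      ∀ i ∈ (range (j + 1)).filter (fun i => 3 * (1/2 : ℝ) ^ j ≤ kk * (1/2) ^ i),
      μ (Gd D Ev kk j A y0 i
          (2 ^ (ε * j) * (K * 2 ^ (ε * j) * Gc a b σ kk * (j + 3) * (2 ^ (j - i) : ℝ) ^ b)))ᶜ ≤
        ENNReal.ofReal (K' * (1 / 2 ^ (ε * j)) ^ k) := by
    intro j A hA y0 i hi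
    rw [Finset.mem_filter, Finset.mem_range] at hi
    have hYA : Yl D kk A y0 i ⊆ A.filter (fun y => dist y y0 ≤ 6 * (1/2) ^ i) := by
      intro y hy
      unfold Yl at hy
      rw [Finset.mem_filter] at hy
      exact Finset.mem_filter.2 ⟨hy.1, hy.2.2⟩
    have hr0 : (0:ℝ) < (1/2) ^ j := by positivity
    have hrh : (1/2 : ℝ) ^ j ≤ (1/2) ^ i := pow_le_pow_of_le_one (by norm_num) (by norm_num)
      (by omega)
    have hYc : ((Yl D kk A y0 i).card : ℝ) ≤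
        K * 2 ^ (ε * j) * (6 * (1/2) ^ i / (1/2) ^ j) ^ a := by
      refine le_trans (by exact_mod_cast Finset.card_le_card hYA) (h2 j A hA y0 _ ?_)
      linarith
    have hreg : ∀ (z : ℂ) (h' : ℝ), (1/2 : ℝ) ^ j ≤ h' →
        (((Yl D kk A y0 i).filter (fun y => dist y z ≤ h')).card : ℝ) ≤
          K * 2 ^ (ε * j) * (h' / (1/2) ^ j) ^ a := by
      intro z h' hh'
      refine le_trans ?_ (h2 j A hA z h' hh')
      have : (Yl D kk A y0 i).filter (fun y => dist y z ≤ h') ⊆ A.filter (fun y => dist y z ≤ h') :=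
        Finset.filter_subset_filter _ (hYA.trans (Finset.filter_subset _ _))
      exact_mod_cast Finset.card_le_card this
    have := H i j (by omega) hi.2 (K * 2 ^ (ε * j)) (by positivity) (Yl D kk A y0 i) (by
      intro y hy
      unfold Yl at hy
      rw [Finset.mem_filter] at hy
      exact hy.2.1) hYc hreg (by
      intro y hy u hu
      have e1 := (Finset.mem_filter.1 (hYA hy)).2
      have e2 := (Finset.mem_filter.1 (hYA hu)).2
      have e3 := dist_triangle_right y u y0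
      linarith) (2 ^ (ε * j)) (by positivity)
    refine le_trans (measure_mono ?_) this
    intro ω hω
    unfold Gd at hω
    simp only [Set.mem_compl_iff, Set.mem_ofPred_eq, not_le] at hω
    exact hω
  -- all sets of a level
  have hlev : ∀ j, μ (bad j) ≤ ENNReal.ofReal (K * K * K' * L ^ a * (1/2) ^ j) := by
    intro j
    set r : ℝ := (1/2 : ℝ) ^ j with hr
    have hr0 : 0 < r := by positivity
    have hr1 : r ≤ 1 := pow_le_one₀ (by norm_num) (by norm_num)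
    set q : ℝ := K' * (1 / 2 ^ (ε * j)) ^ k with hq
    have hq0 : 0 ≤ q := by positivity
    have s1 : ∀ A ∈ 𝒜 j, ∀ y0 ∈ A.filter (fun y => dist y 0 ≤ L),
        μ (⋃ i ∈ (range (j + 1)).filter (fun i => 3 * r ≤ kk * (1/2) ^ i),
          (Gd D Ev kk j A y0 i
          (2 ^ (ε * j) * (K * 2 ^ (ε * j) * Gc a b σ kk * (j + 3) * (2 ^ (j - i) : ℝ) ^ b)))ᶜ) ≤
        ENNReal.ofReal ((j + 1) * q) := by
      intro A hA y0 _
      refine (measure_biUnion_finset_le _ _).trans ((Finset.sum_le_sum (hone j A hA y0)).trans ?_)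
      rw [Finset.sum_const, nsmul_eq_mul]
      refine card_mul ?_
      have := Finset.card_filter_le (range (j + 1)) (fun i => 3 * r ≤ kk * (1/2) ^ i)
      rw [Finset.card_range] at this
      exact_mod_cast this
    have s2 : ∀ A ∈ 𝒜 j, μ (⋃ y0 ∈ A.filter (fun y => dist y 0 ≤ L),
        ⋃ i ∈ (range (j + 1)).filter (fun i => 3 * r ≤ kk * (1/2) ^ i), (Gd D Ev kk j A y0 i
          (2 ^ (ε * j) * (K * 2 ^ (ε * j) * Gc a b σ kk * (j + 3) * (2 ^ (j - i) : ℝ) ^ b)))ᶜ) ≤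
        ENNReal.ofReal (K * 2 ^ (ε * j) * (L / r) ^ a * ((j + 1) * q)) := by
      intro A hA
      refine (measure_biUnion_finset_le _ _).trans ((Finset.sum_le_sum (s1 A hA)).trans ?_)
      rw [Finset.sum_const, nsmul_eq_mul]
      exact card_mul (h2 j A hA 0 L (hr1.trans hL))
    have s3 : μ (bad j) ≤
        ENNReal.ofReal (K * r ^ (-c) * (K * 2 ^ (ε * j) * (L / r) ^ a * ((j + 1) * q))) := by
      refine (measure_biUnion_finset_le _ _).trans ((Finset.sum_le_sum s2).trans ?_)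
      rw [Finset.sum_const, nsmul_eq_mul]
      exact card_mul (h1 j)
    refine s3.trans (ENNReal.ofReal_le_ofReal ?_)
    have hr2 : r = 2 ^ (-(j:ℝ)) := by
      rw [hr, Real.rpow_neg (by norm_num), Real.rpow_natCast, one_div, inv_pow]
    have e1 : r ^ (-c) = 2 ^ (c * j) := by
      rw [hr2, ← Real.rpow_mul (by norm_num)]; congr 1; ring
    have e2 : (L / r) ^ a = L ^ a * 2 ^ (a * j) := by
      rw [Real.div_rpow (by positivity) hr0.le, hr2, ← Real.rpow_mul (by norm_num),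
        div_eq_mul_inv, ← Real.rpow_neg (by norm_num)]
      congr 2; ring
    have e3 : (1 / (2:ℝ) ^ (ε * j)) ^ k = 2 ^ (-(ε * k * j)) := by
      rw [one_div, ← Real.rpow_neg (by norm_num), ← Real.rpow_natCast, ← Real.rpow_mul (by norm_num)]
      congr 1; ring
    have e4 : ((j:ℝ) + 1) ≤ 2 ^ (j:ℝ) := by
      rw [Real.rpow_natCast]
      have := Nat.lt_two_pow_self (n := j)
      have h3 : j + 1 ≤ 2 ^ j := this
      exact_mod_cast h3
    rw [hq, e1, e2, e3]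
    calc K * 2 ^ (c * j) * (K * 2 ^ (ε * j) * (L ^ a * 2 ^ (a * j)) *
          ((j + 1) * (K' * 2 ^ (-(ε * k * j)))))
        ≤ K * 2 ^ (c * j) * (K * 2 ^ (ε * j) * (L ^ a * 2 ^ (a * j)) *
          (2 ^ (j:ℝ) * (K' * 2 ^ (-(ε * k * j))))) := by gcongr
      _ = K * K * K' * L ^ a * (2 ^ (c * j) * 2 ^ (ε * j) * 2 ^ (a * j) * 2 ^ (j:ℝ) *
          2 ^ (-(ε * k * j))) := by
          ring
      _ ≤ K * K * K' * L ^ a * r := by
          apply mul_le_mul_of_nonneg_left _ (by positivity)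
          rw [← Real.rpow_add (by norm_num), ← Real.rpow_add (by norm_num),
            ← Real.rpow_add (by norm_num), ← Real.rpow_add (by norm_num), hr2]
          apply Real.rpow_le_rpow_of_exponent_le (by norm_num)
          have hj : (0:ℝ) ≤ j := Nat.cast_nonneg j
          nlinarith
  have hsum : ∑' j, μ (bad j) ≠ ⊤ := by
    refine ne_top_of_le_ne_top ?_ (ENNReal.tsum_le_tsum hlev)
    rw [← ENNReal.ofReal_tsum_of_nonneg (fun j => by positivity)
      ((summable_geometric_of_lt_one (by norm_num) (by norm_num)).mul_left _)]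
    exact ENNReal.ofReal_ne_top
  have hbc := ae_eventually_notMem hsum
  filter_upwards [hbc] with p hp
  filter_upwards [hp] with j hj A hA y0 hy0 hd i hi hi2
  by_contra hcon
  apply hj
  simp only [hbad, Set.mem_iUnion]
  exact ⟨A, hA, y0, Finset.mem_filter.2 ⟨hy0, hd⟩, i, Finset.mem_filter.2
    ⟨Finset.mem_range.2 (by omega), hi2⟩, hcon⟩

theorem dyadic_near {r : ℝ} (hr : 0 < r) (hr1 : r ≤ 1) :
    ∃ j : ℕ, r ≤ (1/2 : ℝ) ^ j ∧ (1/2 : ℝ) ^ j < 2 * r := by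
  obtain ⟨j, h1, h2⟩ := exists_nat_pow_near (x := 1 / r) (y := (2:ℝ))
    (by rwa [le_div_iff₀ hr, one_mul]) one_lt_two
  refine ⟨j, ?_, ?_⟩
  · rw [le_div_iff₀ hr] at h1
    rw [one_div, inv_pow, ← one_div, le_div_iff₀ (by positivity)]
    linarith
  · rw [div_lt_iff₀ hr, pow_succ] at h2
    rw [one_div, inv_pow, ← one_div, div_lt_iff₀ (by positivity)]
    linarith

theorem lin_le {e : ℝ} (he : 0 < e) : ∃ c : ℝ, 0 < c ∧ ∀ j : ℕ, (j:ℝ) + 3 ≤ c * 2 ^ (e * j) := by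
  have hl : 0 < Real.log 2 := Real.log_pos one_lt_two
  refine ⟨1 / (e * Real.log 2) + 3, by positivity, fun j => ?_⟩
  have hj : (0:ℝ) ≤ j := Nat.cast_nonneg j
  have h1 : e * j * Real.log 2 + 1 ≤ (2:ℝ) ^ (e * j) := by
    rw [Real.rpow_def_of_pos (by norm_num : (0:ℝ) < 2), mul_comm (Real.log 2)]
    exact Real.add_one_le_exp _
  have h2 : 0 ≤ e * j * Real.log 2 := by positivity
  have h3 : (j:ℝ) = 1 / (e * Real.log 2) * (e * j * Real.log 2) := by
    field_simp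
  have h4 : 0 < 1 / (e * Real.log 2) := by positivity
  nlinarith

theorem t : Pool.Agent.N892.MA.S_D := by
  classical
  intro hC Ω _ μ _ D σ Ev T η 𝓢 a hD hσ hKP hη hT ha ha2 hE κ hκ ε hε
  set b : ℝ := max (a - σ) 0 with hb
  have hb1 : a - σ ≤ b := le_max_left _ _
  have hb0 : 0 ≤ b := le_max_right _ _
  obtain ⟨kk, hkk, hkκ, hkη, hk1⟩ : ∃ kk : ℝ, 0 < kk ∧ 16 * kk ≤ κ ∧ 16 * kk ≤ η ∧ 16 * kk ≤ 1 := by
    refine ⟨min (min κ η) 1 / 16, by positivity, ?_, ?_, ?_⟩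
    · have := (min_le_left (min κ η) 1).trans (min_le_left κ η)
      linarith
    · have := (min_le_left (min κ η) 1).trans (min_le_right κ η)
      linarith
    · have := min_le_right (min κ η) 1
      linarith
  obtain ⟨K0, c, hKc⟩ := hE (ε / 3) (by positivity)
  have hrpow : ∀ j : ℕ, ((1/2 : ℝ) ^ j) ^ (-(ε / 3)) = 2 ^ (ε / 3 * j) := by
    intro j
    have : (1/2 : ℝ) ^ j = 2 ^ (-(j:ℝ)) := by
      rw [Real.rpow_neg (by norm_num), Real.rpow_natCast, one_div, inv_pow]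
    rw [this, ← Real.rpow_mul (by norm_num)]; congr 1; ring
  set K : ℝ := max K0 1 with hK
  have hK0 : 0 < K := lt_max_of_lt_right one_pos
  have hKK : K0 ≤ K := le_max_left _ _
  have hch : ∀ j : ℕ, ∃ 𝒜 : Finset (Finset ℂ), (𝒜.card : ℝ) ≤ K * ((1/2 : ℝ) ^ j) ^ (-c) ∧
      (∀ A ∈ 𝒜, ∀ (z : ℂ) (h : ℝ), (1/2 : ℝ) ^ j ≤ h →
        ((A.filter (fun y => dist y z ≤ h)).card : ℝ) ≤
          K * 2 ^ (ε / 3 * j) * (h / (1/2 : ℝ) ^ j) ^ a) ∧
      (∀ S ∈ 𝓢, ∃ A ∈ 𝒜, ∀ z ∈ S ∩ D, ∃ y ∈ A, dist z y ≤ (1/2 : ℝ) ^ j) := by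
    intro j
    obtain ⟨𝒜, g1, g2, g3⟩ := hKc ((1/2 : ℝ) ^ j) (by positivity)
      (pow_le_one₀ (by norm_num) (by norm_num))
    refine ⟨𝒜, g1.trans ?_, fun A hA z h hh => (g2 A hA z h hh).trans ?_, g3⟩
    · exact mul_le_mul_of_nonneg_right hKK (by positivity)
    · have : 0 < (1/2 : ℝ) ^ j := by positivity
      have h0 : 0 ≤ h / (1/2 : ℝ) ^ j := div_nonneg (this.le.trans hh) this.le
      rw [hrpow]
      gcongr
  choose 𝒜 g1 g2 g3 using hch
  obtain ⟨L0, hL0⟩ := hD.subset_closedBall (0:ℂ)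
  obtain ⟨c3, hc3, hc3'⟩ := lin_le (e := ε / 3) (by positivity)
  filter_upwards [ev_nets hC μ hσ hKP hK0 hkk hb1 hb0 (by positivity : 0 < ε / 3)
    (by linarith [le_max_right L0 0] : 1 ≤ max L0 0 + 3) 𝒜 g1 g2] with ω hω
  obtain ⟨J, hJ⟩ := Filter.eventually_atTop.1 hω
  obtain ⟨N1, hN1⟩ := cover (6 / kk)
  obtain ⟨N2, hN2⟩ := cover (max L0 0 / (1/2 : ℝ) ^ J)
  obtain ⟨N4, hN4⟩ := cover 4
  have hG := Gc_pos (a := a) (b := b) (σ := σ) hkk
  set Λ1 : ℝ := N4 * (K * Gc a b σ kk * c3 * 2 ^ b) with hΛ1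
  have hΛ10 : 0 ≤ Λ1 := by positivity
  refine ⟨Λ1 + N1 + N2 + 1, by positivity, ?_⟩
  intro S hS x r h hr hrh hh1
  have hh0 : 0 < h := hr.trans_le hrh
  have hr1 : r ≤ 1 := hrh.trans hh1
  have hX1 : 1 ≤ r ^ (-ε) * (h / r) ^ b := by
    have k1 : 1 ≤ r ^ (-ε) := Real.one_le_rpow_of_pos_of_le_one_of_nonpos hr hr1 (by linarith)
    have k2 : 1 ≤ (h / r) ^ b := Real.one_le_rpow (by rwa [le_div_iff₀ hr, one_mul]) hb0
    nlinarith
  have hN1' : (0:ℝ) ≤ N1 := Nat.cast_nonneg _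
  have hN2' : (0:ℝ) ≤ N2 := Nat.cast_nonneg _
  rcases le_or_gt r ((1/2 : ℝ) ^ J) with hrJ | hrJ
  · rcases le_or_gt (6 / kk * r) h with hCr | hCr
    · -- main case
      set W : Set ℂ := {w | w ∈ T ω ∧ w ∈ DepD D κ ∧ dist w x ≤ h ∧ ∃ z ∈ S ∩ D, dist w z ≤ r}
        with hW
      rcases W.eq_empty_or_nonempty with hW0 | ⟨w0, hw0⟩
      · rw [hW0]
        refine ⟨∅, ?_, Set.empty_subset _⟩
        rw [Finset.card_empty, Nat.cast_zero]
        positivity
      obtain ⟨j, hj1, hj2⟩ := dyadic_near hr hr1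
      obtain ⟨i, hi1, hi2⟩ := dyadic_near hh0 hh1
      have hJj : J ≤ j := by
        by_contra hcon
        have h1 : j + 1 ≤ J := by omega
        have h2 : (1/2 : ℝ) ^ J ≤ (1/2) ^ (j + 1) :=
          pow_le_pow_of_le_one (by norm_num) (by norm_num) h1
        rw [pow_succ] at h2
        linarith
      have hij : i ≤ j := by
        by_contra hcon
        have h1 : j + 1 ≤ i := by omega
        have h2 : (1/2 : ℝ) ^ i ≤ (1/2) ^ (j + 1) :=
          pow_le_pow_of_le_one (by norm_num) (by norm_num) h1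
        rw [pow_succ] at h2
        linarith
      have hrd : 3 * (1/2 : ℝ) ^ j ≤ kk * (1/2) ^ i := by
        have e1 : 6 / kk * r = 6 * r / kk := by ring
        rw [e1, div_le_iff₀ hkk] at hCr
        have e2 : kk * h ≤ kk * (1/2) ^ i := mul_le_mul_of_nonneg_left hi1 hkk.le
        linarith
      obtain ⟨A, hA, hcov⟩ := g3 j S hS
      set rj : ℝ := (1/2 : ℝ) ^ j with hrj
      set hi : ℝ := (1/2 : ℝ) ^ i with hhi
      have hrj0 : 0 < rj := by positivity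
      have hhi0 : 0 < hi := by positivity
      have hhi1 : hi ≤ 1 := pow_le_one₀ (by norm_num) (by norm_num)
      have hrj1 : rj ≤ 1 := pow_le_one₀ (by norm_num) (by norm_num)
      have hrjhi : rj ≤ hi := pow_le_pow_of_le_one (by norm_num) (by norm_num) hij
      have hkhi : kk * hi ≤ kk := mul_le_of_le_one_right hkk.le hhi1
      have hnear : ∀ w ∈ W, ∃ y ∈ A, dist w y ≤ 2 * rj := by
        rintro w ⟨-, -, -, z, hz, hwz⟩
        obtain ⟨y, hy, hzy⟩ := hcov z hz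
        refine ⟨y, hy, ?_⟩
        have := dist_triangle w z y
        linarith
      obtain ⟨y0, hy0, hd0⟩ := hnear w0 hw0
      have hy0L : dist y0 0 ≤ max L0 0 + 3 := by
        have e1 : w0 ∈ D := hw0.2.1 (Metric.mem_closedBall_self hκ.le)
        have e2 : dist w0 0 ≤ L0 := hL0 e1
        have e3 := dist_triangle_left y0 0 w0
        have e4 := le_max_left L0 0
        linarith
      set Y : Finset ℂ := (Yl D kk A y0 i).filter (fun y => ω ∈ Ev y (3 * rj) (kk * hi)) with hY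
      have hmem : ∀ w ∈ W, ∃ y ∈ Y, dist w y ≤ 2 * rj := by
        intro w hw
        obtain ⟨y, hy, hd⟩ := hnear w hw
        refine ⟨y, ?_, hd⟩
        rw [hY, Finset.mem_filter]
        unfold Yl
        rw [Finset.mem_filter]
        refine ⟨⟨hy, ?_, ?_⟩, ?_⟩
        · intro u hu
          apply hw.2.1
          rw [Metric.mem_ball] at hu
          rw [Metric.mem_closedBall]
          have e1 := dist_triangle u y w
          rw [dist_comm y w] at e1
          rw [← hhi] at hu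
          linarith
        · have t1 := dist_triangle y w y0
          have t2 := dist_triangle w x y0
          have t3 := dist_triangle x w0 y0
          rw [dist_comm y w] at t1
          rw [dist_comm x w0] at t3
          have t4 := hw.2.2.1
          have t5 := hw0.2.2.1
          rw [← hhi]
          linarith
        · exact hT ω w y (3 * rj) (kk * hi) hw.1 (by linarith) (by linarith)
      have hcard : (Y.card : ℝ) ≤ 2 ^ (ε / 3 * j) * (K * 2 ^ (ε / 3 * j) * Gc a b σ kk *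
          (j + 3) * (2 ^ (j - i) : ℝ) ^ b) := hJ j hJj A hA y0 hy0 hy0L i hij hrd
      choose P hP1 hP2 using fun y => hN4 y r hr
      refine ⟨Y.biUnion P, ?_, ?_⟩
      · have h1 : ((Y.biUnion P).card : ℝ) ≤ Y.card * N4 := by
          exact_mod_cast Finset.card_biUnion_le_card_mul Y P N4 (fun y _ => hP1 y)
        have e0 : (2:ℝ) ^ (ε / 3 * j) * 2 ^ (ε / 3 * j) * 2 ^ (ε / 3 * j) = rj ^ (-ε) := by
          have : rj = 2 ^ (-(j:ℝ)) := by
            rw [hrj, Real.rpow_neg (by norm_num), Real.rpow_natCast, one_div, inv_pow]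
          rw [this, ← Real.rpow_mul (by norm_num), ← Real.rpow_add (by norm_num),
            ← Real.rpow_add (by norm_num)]
          congr 1; ring
        have e2 : rj ^ (-ε) ≤ r ^ (-ε) := Real.rpow_le_rpow_of_nonpos hr hj1 (by linarith)
        have e3 : (2 ^ (j - i) : ℝ) ≤ 2 * (h / r) := by
          have k1 : (2 ^ (j - i) : ℝ) * rj = hi := by
            rw [hhi, hrj, one_div, inv_pow, inv_pow]
            have : (2:ℝ) ^ j = 2 ^ (j - i) * 2 ^ i := by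
              rw [← pow_add]; congr 1; omega
            rw [this]
            field_simp
          have k2 : (2 ^ (j - i) : ℝ) * r ≤ 2 * h := by
            have k3 : (2 ^ (j - i) : ℝ) * r ≤ 2 ^ (j - i) * rj :=
              mul_le_mul_of_nonneg_left hj1 (by positivity)
            linarith
          rw [← mul_div_assoc, le_div_iff₀ hr]
          exact k2
        have e4 : (2 ^ (j - i) : ℝ) ^ b ≤ 2 ^ b * (h / r) ^ b := by
          rw [← Real.mul_rpow (by norm_num) (by positivity)]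
          exact Real.rpow_le_rpow (by positivity) e3 hb0
        have e5 := hc3' j
        calc ((Y.biUnion P).card : ℝ) ≤ Y.card * N4 := h1
          _ ≤ (2 ^ (ε / 3 * j) * (K * 2 ^ (ε / 3 * j) * Gc a b σ kk *
              (c3 * 2 ^ (ε / 3 * j)) * (2 ^ b * (h / r) ^ b))) * N4 := by
              apply mul_le_mul_of_nonneg_right _ (Nat.cast_nonneg _)
              refine hcard.trans ?_
              gcongr
          _ = N4 * (K * Gc a b σ kk * c3 * 2 ^ b) * ((2 ^ (ε / 3 * j) * 2 ^ (ε / 3 * j) *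
              2 ^ (ε / 3 * j)) * (h / r) ^ b) := by ring
          _ ≤ N4 * (K * Gc a b σ kk * c3 * 2 ^ b) * (r ^ (-ε) * (h / r) ^ b) := by
              rw [e0]
              gcongr
          _ ≤ (Λ1 + N1 + N2 + 1) * (r ^ (-ε) * (h / r) ^ b) := by
              apply mul_le_mul_of_nonneg_right _ (by positivity)
              rw [← hΛ1]
              linarith
      · intro w hw
        obtain ⟨y, hy, hd⟩ := hmem w hw
        have e1 : w ∈ Metric.closedBall y (4 * r) := by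
          rw [Metric.mem_closedBall]
          linarith
        obtain ⟨p, hp, hwp⟩ := Set.mem_iUnion₂.1 (hP2 y e1)
        exact Set.mem_iUnion₂.2 ⟨p, Finset.mem_biUnion.2 ⟨y, hy, hp⟩, hwp⟩
    · obtain ⟨P, hP, hcov⟩ := hN1 x r hr
      refine ⟨P, ?_, ?_⟩
      · have h2 : (P.card : ℝ) ≤ N1 := by exact_mod_cast hP
        exact (h2.trans (by linarith)).trans (le_mul_of_one_le_right (by positivity) hX1)
      · intro w hw
        apply hcov
        rw [Metric.mem_closedBall]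
        exact hw.2.2.1.trans hCr.le
  · obtain ⟨P, hP, hcov⟩ := hN2 0 r hr
    refine ⟨P, ?_, ?_⟩
    · have h2 : (P.card : ℝ) ≤ N2 := by exact_mod_cast hP
      exact (h2.trans (by linarith)).trans (le_mul_of_one_le_right (by positivity) hX1)
    · intro w hw
      apply hcov
      have e1 : w ∈ D := hw.2.1 (Metric.mem_closedBall_self hκ.le)
      have e2 : dist w 0 ≤ L0 := hL0 e1
      rw [Metric.mem_closedBall]
      have hq : (0:ℝ) < (1/2 : ℝ) ^ J := by positivity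
      have e3 : max L0 0 ≤ max L0 0 / (1/2 : ℝ) ^ J * r := by
        rw [div_mul_eq_mul_div, le_div_iff₀ hq]
        exact mul_le_mul_of_nonneg_left hrJ.le (le_max_right _ _)
      exact (e2.trans (le_max_left _ _)).trans e3

end Pool.Agent.N892.MA.D
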