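import Pool.Agent.N892.MA.Stm

/-!
Project MA, task E: from the `k`-point bounds on the lattice to the `k`-point bounds for the limits.
-/

set_option autoImplicit false

namespace Pool.Agent.N892.MA.E

open H974 H12S MeasureTheory Filter Topology

theorem okh : Ok (fun _ : Edg => (1 / 2 : ℝ)) := fun _ => by norm_num

theorem blk_subset (c : ℤ × ℤ) {a b : ℕ} (h : a ≤ b) : blk c a ⊆ blk c b := by
  unfold blk
  refine RE_subset ?_ ?_ ?_ ?_ <;> omega

/-- the events with a factor `64` between the radii -/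
theorem isArm' {σ C : ℝ} (hσ : 0 < σ) {A : ℤ × ℤ → ℕ → ℕ → Set Edg → Prop} (hA : IsArm σ C A) :
    IsArm σ (max C ((64 : ℝ) ^ σ)) (fun c s t F => 64 * s ≤ t → A c s t F) := by
  refine ⟨fun c s t hs hst F G hFG h h64 => hA.loc c s t hs hst F G hFG (h h64),
    fun c s t hs hst S hS => ?_⟩
  have hs0 : (0 : ℝ) < s := by exact_mod_cast hs
  have ht0 : (0 : ℝ) < t := by exact_mod_cast hs.trans hst
  have hq : 0 < (s : ℝ) / t := by positivity
  have hq' : 0 ≤ ((s : ℝ) / t) ^ σ := by positivity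
  by_cases h : 64 * s ≤ t
  · calc PQ (1/2) S (fun F => 64 * s ≤ t → A c s t ↑F)
        ≤ PQ (1/2) S (fun F => A c s t ↑F) := Pr_mono okh fun F _ h1 => h1 h
      _ ≤ C * ((s : ℝ) / t) ^ σ := hA.bd c s t hs hst S hS
      _ ≤ _ := mul_le_mul_of_nonneg_right (le_max_left _ _) hq'
  · have h1 : (1 : ℝ) ≤ 64 * ((s : ℝ) / t) := by
      rw [← mul_div_assoc, le_div_iff₀ ht0, one_mul]
      have h2 : t ≤ 64 * s := by omega
      exact_mod_cast h2
    calc PQ (1/2) S (fun F => 64 * s ≤ t → A c s t ↑F) ≤ 1 := Pr_le_one okh _ _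
      _ ≤ (64 * ((s : ℝ) / t)) ^ σ := Real.one_le_rpow h1 hσ.le
      _ = (64 : ℝ) ^ σ * ((s : ℝ) / t) ^ σ := Real.mul_rpow (by norm_num) hq.le
      _ ≤ _ := mul_le_mul_of_nonneg_right (le_max_right _ _) hq'

/-- the sizes -/
theorem sizes {r d δ : ℝ} (hδ : 0 < δ) (hδr : δ ≤ r) (hd : 256 * r ≤ d) :
    ⌈r / δ⌉₊ + 9 ≤ ⌊d / (8 * δ)⌋₊ ∧ ((⌈r / δ⌉₊ + 5 : ℕ) : ℝ) ≤ 7 * (r / δ) ∧
      (((⌈r / δ⌉₊ + 5 : ℕ) : ℝ) / ((⌊d / (8 * δ)⌋₊ - 2 : ℕ) : ℝ)) ≤ 256 * (r / d) := by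
  have hr : 0 < r := hδ.trans_le hδr
  have hd0 : 0 < d := by linarith
  have h2 : 1 ≤ r / δ := by
    rw [le_div_iff₀ hδ]
    linarith
  have h3 : (⌈r / δ⌉₊ : ℝ) < r / δ + 1 := Nat.ceil_lt_add_one (by positivity)
  have h4 : d / (8 * δ) < (⌊d / (8 * δ)⌋₊ : ℝ) + 1 := Nat.lt_floor_add_one _
  have h5 : (r / δ) * 32 ≤ d / (8 * δ) := by
    rw [div_mul_eq_mul_div, div_le_div_iff₀ hδ (by positivity)]
    nlinarith
  set a : ℕ := ⌈r / δ⌉₊ with ha
  set b : ℕ := ⌊d / (8 * δ)⌋₊ with hb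
  have h6 : (a : ℝ) + 9 < (b : ℝ) + 1 := by linarith
  have h7 : a + 9 < b + 1 := by exact_mod_cast h6
  refine ⟨by omega, by push_cast; linarith, ?_⟩
  have hN0 : (0 : ℝ) < ((b - 2 : ℕ) : ℝ) := by
    have : 0 < b - 2 := by omega
    exact_mod_cast this
  have hbc : ((b - 2 : ℕ) : ℝ) = (b : ℝ) - 2 := by
    rw [Nat.cast_sub (by omega)]
    norm_num
  rw [div_le_iff₀ hN0, hbc]
  push_cast
  have h9 : d / (16 * δ) ≤ (b : ℝ) - 2 := by
    have h10 : d / (16 * δ) = d / (8 * δ) / 2 := by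
      field_simp
      norm_num
    rw [h10]
    linarith
  have h11 : 256 * (r / d) * (d / (16 * δ)) = 16 * (r / δ) := by
    field_simp
    norm_num
  have h12 := mul_le_mul_of_nonneg_left h9 (by positivity : 0 ≤ 256 * (r / d))
  rw [h11] at h12
  linarith

theorem floor_dist {x y δ : ℝ} (hδ : 0 < δ) :
    |x - y| / δ - 1 ≤ (((⌊x / δ⌋ - ⌊y / δ⌋).natAbs : ℕ) : ℝ) := by
  have a1 := Int.floor_le (x / δ)
  have a2 := Int.lt_floor_add_one (x / δ)
  have b1 := Int.floor_le (y / δ)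
  have b2 := Int.lt_floor_add_one (y / δ)
  have h1 : |x - y| / δ = |x / δ - y / δ| := by
    rw [← sub_div, abs_div, abs_of_pos hδ]
  have h2 : (((⌊x / δ⌋ - ⌊y / δ⌋).natAbs : ℕ) : ℝ) = |((⌊x / δ⌋ : ℤ) : ℝ) - ((⌊y / δ⌋ : ℤ) : ℝ)| := by
    rw [Nat.cast_natAbs, Int.cast_abs, Int.cast_sub]
  rw [h1, h2]
  have h3 : |x / δ - y / δ| ≤ |((⌊x / δ⌋ : ℤ) : ℝ) - ((⌊y / δ⌋ : ℤ) : ℝ)| +
      |(x / δ - y / δ) - (((⌊x / δ⌋ : ℤ) : ℝ) - ((⌊y / δ⌋ : ℤ) : ℝ))| := by
    have := abs_add_le (((⌊x / δ⌋ : ℤ) : ℝ) - ((⌊y / δ⌋ : ℤ) : ℝ))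
      ((x / δ - y / δ) - (((⌊x / δ⌋ : ℤ) : ℝ) - ((⌊y / δ⌋ : ℤ) : ℝ)))
    rwa [add_sub_cancel] at this
  have h4 : |(x / δ - y / δ) - (((⌊x / δ⌋ : ℤ) : ℝ) - ((⌊y / δ⌋ : ℤ) : ℝ))| ≤ 1 := by
    rw [abs_le]
    constructor <;> linarith
  linarith

/-- distances on the lattice and in the plane -/
theorem nd_ge (o : ℤ) {δ : ℝ} (hδ : 0 < δ) (z w : ℂ) :
    dist z w / (2 * δ) - 1 ≤ ((nd (cn o δ z) (cn o δ w) : ℕ) : ℝ) := by
  have h1 : dist z w ≤ |z.re - w.re| + |z.im - w.im| := by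
    rw [Complex.dist_eq]
    have := Complex.norm_le_abs_re_add_abs_im (z - w)
    rwa [Complex.sub_re, Complex.sub_im] at this
  have e : (cn o δ z).2 - (cn o δ w).2 = ⌊z.im / δ⌋ - ⌊w.im / δ⌋ := by
    unfold cn
    simp only
    ring
  have hx := floor_dist (x := z.re) (y := w.re) hδ
  have hy := floor_dist (x := z.im) (y := w.im) hδ
  unfold nd
  rw [e, Nat.cast_max]
  change _ ≤ max (((⌊z.re / δ⌋ - ⌊w.re / δ⌋).natAbs : ℕ) : ℝ) _
  rcases le_total (|z.re - w.re|) (|z.im - w.im|) with h | h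
  · refine le_trans ?_ (le_max_right _ _)
    refine le_trans ?_ hy
    have h2 : dist z w / (2 * δ) ≤ |z.im - w.im| / δ := by
      rw [div_le_div_iff₀ (by positivity) hδ]
      nlinarith
    linarith
  · refine le_trans ?_ (le_max_left _ _)
    refine le_trans ?_ hx
    have h2 : dist z w / (2 * δ) ≤ |z.re - w.re| / δ := by
      rw [div_le_div_iff₀ (by positivity) hδ]
      nlinarith
    linarith

theorem ratio_le (o : ℤ) {r d δ : ℝ} (hδ : 0 < δ) (hδr : δ ≤ r) (hd : 256 * r ≤ d) (z w : ℂ) :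
    (((⌈r / δ⌉₊ + 5 : ℕ) : ℝ) / ((max (⌈r / δ⌉₊ + 5) (nd (cn o δ z) (cn o δ w)) : ℕ) : ℝ)) ≤
      256 * (r / max r (dist z w)) := by
  have hr : 0 < r := hδ.trans_le hδr
  obtain ⟨-, h7, -⟩ := sizes hδ hδr hd
  have hnd := nd_ge o hδ z w
  set a : ℕ := ⌈r / δ⌉₊ + 5 with ha
  set n : ℕ := nd (cn o δ z) (cn o δ w) with hn
  have ha0 : (0 : ℝ) < (a : ℝ) := by
    have : 0 < a := by omega
    exact_mod_cast this
  have hm0 : (0 : ℝ) < ((max a n : ℕ) : ℝ) := by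
    have : 0 < max a n := lt_max_of_lt_left (by omega)
    exact_mod_cast this
  by_cases h : dist z w ≤ 32 * r
  · have h1 : (a : ℝ) / ((max a n : ℕ) : ℝ) ≤ 1 := by
      rw [div_le_one hm0]
      exact_mod_cast le_max_left a n
    refine h1.trans ?_
    have hmx : 0 < max r (dist z w) := lt_max_of_lt_left hr
    rw [← mul_div_assoc, le_div_iff₀ hmx, one_mul]
    exact max_le (by linarith) (by linarith)
  · push Not at h
    have hD : 0 < dist z w := by linarith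
    have hmx : max r (dist z w) = dist z w := max_eq_right (by linarith)
    rw [hmx]
    have h2 : dist z w / (4 * δ) ≤ (n : ℝ) := by
      refine le_trans ?_ hnd
      have e : dist z w / (2 * δ) = dist z w / (4 * δ) + dist z w / (4 * δ) := by
        field_simp
        norm_num
      have : 1 ≤ dist z w / (4 * δ) := by
        rw [le_div_iff₀ (by positivity)]
        linarith
      linarith
    have h3 : dist z w / (4 * δ) ≤ ((max a n : ℕ) : ℝ) :=
      h2.trans (by exact_mod_cast le_max_right a n)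
    have h4 : 0 < dist z w / (4 * δ) := by positivity
    calc (a : ℝ) / ((max a n : ℕ) : ℝ) ≤ (7 * (r / δ)) / (dist z w / (4 * δ)) := by
          gcongr
      _ = 28 * (r / dist z w) := by
          field_simp
          norm_num
      _ ≤ 256 * (r / dist z w) := by
          have : 0 ≤ r / dist z w := by positivity
          linarith

theorem wt_nonneg (σ : ℝ) (d K : ℕ) : ∀ l : List (ℤ × ℤ), 0 ≤ wt σ d K l
  | [] => zero_le_one
  | c :: l => by
    have h1 : 0 ≤ (l.map fun b => ((d : ℝ) / (max d (nd c b) : ℕ)) ^ σ).sum := by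
      refine List.sum_nonneg fun x hx => ?_
      obtain ⟨b, -, rfl⟩ := List.mem_map.mp hx
      positivity
    have h2 : 0 ≤ ((d : ℝ) / K) ^ σ := by positivity
    exact mul_nonneg (add_nonneg h2 h1) (wt_nonneg σ d K l)

theorem wtc_nonneg {σ r d : ℝ} (hr : 0 < r) (hd : 0 < d) : ∀ l : List ℂ, 0 ≤ wtc σ r d l
  | [] => zero_le_one
  | z :: l => by
    have h1 : 0 ≤ (l.map fun w => (r / max r (dist z w)) ^ σ).sum := by
      refine List.sum_nonneg fun x hx => ?_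
      obtain ⟨b, -, rfl⟩ := List.mem_map.mp hx
      have : 0 < max r (dist z b) := lt_max_of_lt_left hr
      positivity
    have h2 : 0 ≤ (r / d) ^ σ := by positivity
    exact mul_nonneg (add_nonneg h2 h1) (wtc_nonneg hr hd l)

theorem wt_le (o : ℤ) {σ r d δ : ℝ} (hσ : 0 < σ) (hδ : 0 < δ) (hδr : δ ≤ r) (hd : 256 * r ≤ d) :
    ∀ l : List ℂ, wt σ (⌈r / δ⌉₊ + 5) (⌊d / (8 * δ)⌋₊ - 2) (l.map (cn o δ)) ≤
      ((256 : ℝ) ^ σ) ^ l.length * wtc σ r d l
  | [] => by simp [wt, wtc]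
  | z :: l => by
    have hr : 0 < r := hδ.trans_le hδr
    have hd0 : 0 < d := by linarith
    have ih := wt_le o hσ hδ hδr hd l
    obtain ⟨-, -, h3⟩ := sizes hδ hδr hd
    have hc0 : (0 : ℝ) < (256 : ℝ) ^ σ := by positivity
    set a : ℕ := ⌈r / δ⌉₊ + 5 with ha
    set K : ℕ := ⌊d / (8 * δ)⌋₊ - 2 with hK
    have e1 : wt σ a K ((z :: l).map (cn o δ)) = (((a : ℝ) / K) ^ σ +
        ((l.map (cn o δ)).map fun b => ((a : ℝ) / (max a (nd (cn o δ z) b) : ℕ)) ^ σ).sum) *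
          wt σ a K (l.map (cn o δ)) := rfl
    have e2 : wtc σ r d (z :: l) = ((r / d) ^ σ + (l.map fun w => (r / max r (dist z w)) ^ σ).sum) *
      wtc σ r d l := rfl
    rw [e1, e2, List.map_map, List.length_cons, pow_succ]
    have h4 : ((a : ℝ) / K) ^ σ ≤ (256 : ℝ) ^ σ * (r / d) ^ σ := by
      rw [← Real.mul_rpow (by norm_num) (by positivity)]
      exact Real.rpow_le_rpow (by positivity) h3 hσ.le
    have h5 : ∀ l' : List ℂ, (l'.map ((fun b => ((a : ℝ) / (max a (nd (cn o δ z) b) : ℕ)) ^ σ) ∘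
        (cn o δ))).sum ≤ (256 : ℝ) ^ σ * (l'.map fun w => (r / max r (dist z w)) ^ σ).sum := by
      intro l'
      induction l' with
      | nil => simp
      | cons w l' ih' =>
        rw [List.map_cons, List.map_cons, List.sum_cons, List.sum_cons, mul_add]
        refine add_le_add ?_ ih'
        have hmx : 0 < max r (dist z w) := lt_max_of_lt_left hr
        rw [← Real.mul_rpow (by norm_num) (by positivity)]
        exact Real.rpow_le_rpow (by positivity) (ratio_le o hδ hδr hd z w) hσ.le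
    have h6 : ((a : ℝ) / K) ^ σ + (l.map ((fun b => ((a : ℝ) / (max a (nd (cn o δ z) b) : ℕ)) ^ σ) ∘
        (cn o δ))).sum ≤ (256 : ℝ) ^ σ * ((r / d) ^ σ +
          (l.map fun w => (r / max r (dist z w)) ^ σ).sum) := by
      rw [mul_add]
      exact add_le_add h4 (h5 l)
    have h7 : 0 ≤ (r / d) ^ σ + (l.map fun w => (r / max r (dist z w)) ^ σ).sum := by
      refine add_nonneg (by positivity) (List.sum_nonneg fun x hx => ?_)
      obtain ⟨b, -, rfl⟩ := List.mem_map.mp hx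
      have : 0 < max r (dist z b) := lt_max_of_lt_left hr
      positivity
    refine (mul_le_mul h6 ih (wt_nonneg _ _ _ _) (mul_nonneg hc0.le h7)).trans (le_of_eq ?_)
    ring

theorem wtc_ge {σ r d : ℝ} (hσ : 0 < σ) (hr : 0 < r) (hd : 0 < d) (h : d ≤ 256 * r) :
    ∀ l : List ℂ, 1 ≤ ((256 : ℝ) ^ σ) ^ l.length * wtc σ r d l
  | [] => by simp [wtc]
  | z :: l => by
    have ih := wtc_ge hσ hr hd h l
    have e2 : wtc σ r d (z :: l) = ((r / d) ^ σ + (l.map fun w => (r / max r (dist z w)) ^ σ).sum) *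
      wtc σ r d l := rfl
    rw [e2, List.length_cons, pow_succ]
    have h1 : 1 ≤ (256 : ℝ) ^ σ * (r / d) ^ σ := by
      rw [← Real.mul_rpow (by norm_num) (by positivity)]
      refine Real.one_le_rpow ?_ hσ.le
      rw [← mul_div_assoc, le_div_iff₀ hd, one_mul]
      exact h
    have h2 : 0 ≤ (l.map fun w => (r / max r (dist z w)) ^ σ).sum := by
      refine List.sum_nonneg fun x hx => ?_
      obtain ⟨b, -, rfl⟩ := List.mem_map.mp hx
      have : 0 < max r (dist z b) := lt_max_of_lt_left hr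
      positivity
    have h3 : 1 ≤ (256 : ℝ) ^ σ * ((r / d) ^ σ +
        (l.map fun w => (r / max r (dist z w)) ^ σ).sum) := by
      rw [mul_add]
      have : 0 ≤ (256 : ℝ) ^ σ * (l.map fun w => (r / max r (dist z w)) ^ σ).sum := by positivity
      linarith
    calc (1 : ℝ) = 1 * 1 := by ring
      _ ≤ (((256 : ℝ) ^ σ) ^ l.length * wtc σ r d l) * ((256 : ℝ) ^ σ * ((r / d) ^ σ +
        (l.map fun w => (r / max r (dist z w)) ^ σ).sum)) := by
          exact mul_le_mul ih h3 zero_le_one (zero_le_one.trans ih)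
      _ = _ := by ring

/-- the deterministic part: all the annuli -/
theorem hole {o : ℤ} {δ : ℝ} {A : ℤ × ℤ → ℕ → ℕ → Set Edg → Prop} {D : Set ℂ} {r d : ℝ} {z : ℂ}
    {F : Finset Edg} (hδ : 0 < δ) (hδr : δ ≤ r) (hd : 256 * r ≤ d)
    (hball : Metric.ball z d ⊆ D)
    (hdet : ∀ r' d' : ℝ, δ ≤ r' → 256 * r' ≤ d' → r ≤ r' → d' ≤ d → Metric.ball z d' ⊆ D →
      A (cn o δ z) (⌈r' / δ⌉₊ + 5) (⌊d' / (8 * δ)⌋₊ - 2) ↑F) :
    HoleA (fun c s t F => 64 * s ≤ t → A c s t F) (cn o δ z) (⌈r / δ⌉₊ + 5)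
      (⌊d / (8 * δ)⌋₊ - 2) [] ↑F := by
  intro s t hs hst ht _ h64
  have hr : 0 < r := hδ.trans_le hδr
  have hd0 : 0 < d := by linarith
  obtain ⟨h9, -, -⟩ := sizes hδ hδr hd
  have h1 : (⌈r / δ⌉₊ : ℝ) ≤ ((s - 5 : ℕ) : ℝ) := by
    have : ⌈r / δ⌉₊ ≤ s - 5 := by omega
    exact_mod_cast this
  have h2 : r / δ ≤ ((s - 5 : ℕ) : ℝ) := (Nat.le_ceil _).trans h1
  have h3 : r ≤ ((s - 5 : ℕ) : ℝ) * δ := (div_le_iff₀ hδ).mp h2
  have h4 : ((t + 2 : ℕ) : ℝ) ≤ d / (8 * δ) := by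
    have h5 : t + 2 ≤ ⌊d / (8 * δ)⌋₊ := by omega
    have h6 : ((t + 2 : ℕ) : ℝ) ≤ (⌊d / (8 * δ)⌋₊ : ℝ) := by exact_mod_cast h5
    exact h6.trans (Nat.floor_le (by positivity))
  have h5 : ((t + 2 : ℕ) : ℝ) * (8 * δ) ≤ d := (le_div_iff₀ (by positivity)).mp h4
  have h6 : 256 * (((s - 5 : ℕ) : ℝ) * δ) ≤ ((t + 2 : ℕ) : ℝ) * (8 * δ) := by
    have h7 : 32 * (s - 5) ≤ t + 2 := by omega
    have h8 : (32 : ℝ) * ((s - 5 : ℕ) : ℝ) ≤ ((t + 2 : ℕ) : ℝ) := by exact_mod_cast h7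
    nlinarith
  have h7 := hdet (((s - 5 : ℕ) : ℝ) * δ) (((t + 2 : ℕ) : ℝ) * (8 * δ)) (hδr.trans h3) h6 h3 h5
    ((Metric.ball_subset_ball h5).trans hball)
  have e1 : ((s - 5 : ℕ) : ℝ) * δ / δ = ((s - 5 : ℕ) : ℝ) := by field_simp
  have e2 : ((t + 2 : ℕ) : ℝ) * (8 * δ) / (8 * δ) = ((t + 2 : ℕ) : ℝ) := by field_simp
  rw [e1, e2, Nat.ceil_natCast, Nat.floor_natCast] at h7
  have e3 : s - 5 + 5 = s := by omega
  have e4 : t + 2 - 2 = t := by omega
  rwa [e3, e4] at h7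

theorem t : Pool.Agent.N892.MA.S_E := by
  intro hB Ω _ _ _ _ o δ S Φ μs μ D Ev A σ C hσ hC hA hL hμ
  refine ⟨fun z r d => MeasurableSet.iUnion fun j => (hL.opn j z r d).measurableSet, fun k => ?_⟩
  obtain ⟨C', hC', hbd⟩ := hB σ (max C ((64 : ℝ) ^ σ)) hσ (lt_max_of_lt_left hC) k
  have hbd := hbd _ (isArm' hσ hA)
  have hc0 : (0 : ℝ) < ((256 : ℝ) ^ σ) ^ k := by positivity
  refine ⟨(C' + 1) * ((256 : ℝ) ^ σ) ^ k, by positivity, fun l hl r d hr hrd hball => ?_⟩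
  have hd0 : 0 < d := hr.trans_le hrd
  have hw := wtc_nonneg (σ := σ) hr hd0 l
  by_cases h256 : 256 * r ≤ d
  · have e1 : {ω : Ω | ∀ z ∈ l, ω ∈ ⋃ j, Ev j z r d} = ⋃ j : ℕ, {ω : Ω | ∀ z ∈ l, ω ∈ Ev j z r d} := by
      ext ω
      simp only [Set.mem_ofPred_eq, Set.mem_iUnion]
      constructor
      · intro h
        have h1 : ∀ l' : List ℂ, (∀ z ∈ l', ∃ j, ω ∈ Ev j z r d) →
            ∃ j, ∀ z ∈ l', ω ∈ Ev j z r d := by
          intro l'
          induction l' with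
          | nil => exact fun _ => ⟨0, fun z hz => by simp at hz⟩
          | cons w l' ih =>
            intro h'
            obtain ⟨j1, hj1⟩ := h' w List.mem_cons_self
            obtain ⟨j2, hj2⟩ := ih fun z hz => h' z (List.mem_cons_of_mem _ hz)
            refine ⟨max j1 j2, fun z hz => ?_⟩
            rcases List.mem_cons.mp hz with rfl | hz
            · exact hL.inc _ _ _ _ _ (le_max_left _ _) hj1
            · exact hL.inc _ _ _ _ _ (le_max_right _ _) (hj2 z hz)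
        exact h1 l h
      · rintro ⟨j, hj⟩ z hz
        exact ⟨j, hj z hz⟩
    have hmono : Monotone (fun j : ℕ => {ω : Ω | ∀ z ∈ l, ω ∈ Ev j z r d}) :=
      fun i j hij ω hω z hz => hL.inc _ _ _ _ _ hij (hω z hz)
    have hopen : ∀ (j : ℕ) (l' : List ℂ), IsOpen {ω : Ω | ∀ z ∈ l', ω ∈ Ev j z r d} := by
      intro j l'
      induction l' with
      | nil =>
        have : {ω : Ω | ∀ z ∈ ([] : List ℂ), ω ∈ Ev j z r d} = Set.univ := by
          ext ω; simp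
        rw [this]
        exact isOpen_univ
      | cons w l' ih =>
        have : {ω : Ω | ∀ z ∈ w :: l', ω ∈ Ev j z r d} =
            Ev j w r d ∩ {ω : Ω | ∀ z ∈ l', ω ∈ Ev j z r d} := by
          ext ω
          simp only [Set.mem_ofPred_eq, List.mem_cons, forall_eq_or_imp, Set.mem_inter_iff]
        rw [this]
        exact (hL.opn j w r d).inter ih
    rw [e1, hmono.measure_iUnion]
    refine iSup_le fun j => ?_
    refine (ProbabilityMeasure.le_liminf_measure_open_of_tendsto hμ (hopen j l)).trans ?_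
    refine liminf_le_of_frequently_le (Eventually.frequently ?_)
    have hev : ∀ᶠ i in atTop, δ i < r := hL.lim.eventually_lt_const hr
    filter_upwards [hev, hL.box, hL.det j] with i hi hbox hdet
    have hδ := hL.pos i
    have hδr := hi.le
    obtain ⟨h9, -, -⟩ := sizes hδ hδr h256
    refine (hL.law i _ (hopen j l)).trans (ENNReal.ofReal_le_ofReal ?_)
    have h1 : PQ (1/2) (S i) (fun F => Φ i F ∈ {ω : Ω | ∀ z ∈ l, ω ∈ Ev j z r d}) ≤
        PQ (1/2) (S i) (fun F => ∀ c ∈ l.map (cn o (δ i)),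
          HoleA (fun c s t F => 64 * s ≤ t → A c s t F) c (⌈r / δ i⌉₊ + 5)
            (⌊d / (8 * δ i)⌋₊ - 2) [] ↑F) := by
      refine Pr_mono okh fun F hF hE => ?_
      intro c hc
      obtain ⟨z, hz, rfl⟩ := List.mem_map.mp hc
      refine hole hδ hδr h256 (hball z hz) fun r' d' h2 h3 h4 h5 h6 => ?_
      exact hdet z r' d' h2 h3 h6 F hF (hL.mono _ _ _ _ _ _ h4 h5 (hE z hz))
    have h2 := hbd (l.map (cn o (δ i))) (by rw [List.length_map, hl]) (⌈r / δ i⌉₊ + 5)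
      (⌊d / (8 * δ i)⌋₊ - 2) (by omega) (by omega) (S i) (fun c hc => by
        obtain ⟨z, hz, rfl⟩ := List.mem_map.mp hc
        exact (blk_subset _ (by omega)).trans (hbox z d (by linarith) (hball z hz)))
    have h3 := wt_le o hσ hδ hδr h256 l
    rw [hl] at h3
    calc PQ (1/2) (S i) (fun F => Φ i F ∈ {ω : Ω | ∀ z ∈ l, ω ∈ Ev j z r d})
        ≤ C' * wt σ (⌈r / δ i⌉₊ + 5) (⌊d / (8 * δ i)⌋₊ - 2) (l.map (cn o (δ i))) := h1.trans h2
      _ ≤ C' * (((256 : ℝ) ^ σ) ^ k * wtc σ r d l) := by gcongr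
      _ ≤ (C' + 1) * ((256 : ℝ) ^ σ) ^ k * wtc σ r d l := by
          have : 0 ≤ ((256 : ℝ) ^ σ) ^ k * wtc σ r d l := mul_nonneg hc0.le hw
          linarith
  · push Not at h256
    have h1 := wtc_ge hσ hr hd0 h256.le l
    rw [hl] at h1
    have h2 : (1 : ℝ) ≤ (C' + 1) * ((256 : ℝ) ^ σ) ^ k * wtc σ r d l := by
      have h3 : 0 ≤ C' * (((256 : ℝ) ^ σ) ^ k * wtc σ r d l) :=
        mul_nonneg hC'.le (mul_nonneg hc0.le hw)
      linarith
    refine (prob_le_one).trans ?_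
    rw [← ENNReal.ofReal_one]
    exact ENNReal.ofReal_le_ofReal h2

end Pool.Agent.N892.MA.E
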