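import Pool.Agent.N892.MA.Pk

/-!
The dimensions of the images of subsets of `T` under all functions of class `C^(1,α)`.
-/

set_option autoImplicit false

namespace Pool.Agent.N892.MA

open MeasureTheory Metric Set Filter Topology
open Pool.Agent.N892.UP (packDim upperBoxDim CovBy)
open Pool.Agent.N892.AC (Lines ln co foot)
open scoped ENNReal NNReal

/-- Local coverings for functions. -/
theorem fun_cov {T D : Set ℂ} {b : ℝ} (hb : 0 ≤ b) (h : CntP T D Lines b) (hD : IsOpen D)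
    {g : ℂ → ℝ} {U : Set ℂ} (hg : HolderC1 g U) {x0 : ℂ} (hx0 : x0 ∈ U) (hx0D : x0 ∈ D)
    (hreg : fderiv ℝ g x0 ≠ 0) :
    ∃ ρ : ℝ, 0 < ρ ∧ ∀ ε' : ℝ, 0 < ε' → ∃ C : ℝ, 0 < C ∧ ∀ r : ℝ, 0 < r → r ≤ 1 → ∀ c : ℝ,
      CovB {z | z ∈ T ∩ ball x0 ρ ∧ |g z - c| ≤ r} r (C * r ^ (-(b + ε'))) := by
  obtain ⟨ρ0, α, M, hρ0, hρ1, hα, hα1, hM, hnear⟩ := near_line hg hx0 hreg
  obtain ⟨ρ2, hρ2, hsub⟩ := Metric.isOpen_iff.1 hD x0 hx0D
  obtain ⟨ρ, hρdef⟩ : ∃ ρ : ℝ, ρ = min ρ0 (ρ2 / 4) := ⟨_, rfl⟩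
  have hρ : 0 < ρ := by rw [hρdef]; positivity
  have hρρ0 : ρ ≤ ρ0 := by rw [hρdef]; exact min_le_left _ _
  have hρρ2 : ρ ≤ ρ2 / 4 := by rw [hρdef]; exact min_le_right _ _
  refine ⟨ρ, hρ, fun ε' hε' => ?_⟩
  have hm : 1 < 1 + α := by linarith
  have hin : ∀ z ∈ ball x0 ρ, ∀ w, dist z w ≤ ρ → w ∈ D := by
    intro z hz w hw
    apply hsub
    rw [mem_ball] at hz ⊢
    have h2 := dist_triangle_left w x0 z
    linarith
  refine loc_cov hb h (κ := ρ) hρ (K := T ∩ ball x0 ρ) inter_subset_left ?_ (x0 := x0) ?_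
    (L := fun (c : ℝ) r => {z | z ∈ T ∩ ball x0 ρ ∧ |g z - c| ≤ r}) ?_ ?_ (m := 1 + α)
    (M := M * 2 ^ (1 + α)) (q0 := min 1 (ρ / (M * 2 ^ (1 + α)))) hm (by positivity)
    (by positivity) ?_ hε'
  · rintro z ⟨-, hz⟩ w hw
    exact hin z hz w (by rw [dist_comm]; exact mem_closedBall.1 hw)
  · rintro z ⟨-, hz⟩
    rw [mem_closedBall]
    have := mem_ball.1 hz
    linarith
  · rintro c r h' hrh z ⟨hz, hz2⟩
    exact ⟨hz, hz2.trans hrh⟩
  · rintro c r z ⟨hz, -⟩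
    exact hz
  · rintro c p r hr hrq ⟨x, ⟨hxT, hxc⟩, hxp⟩
    have e1 : r ≤ 1 := hrq.trans (min_le_left _ _)
    have e2 : r ≤ ρ / (M * 2 ^ (1 + α)) := hrq.trans (min_le_right _ _)
    have hh0 : 0 < r ^ (1 / (1 + α)) := by positivity
    have hhm : (2 * r ^ (1 / (1 + α))) ^ (1 + α) = 2 ^ (1 + α) * r := by
      rw [Real.mul_rpow (by norm_num) hh0.le, ← Real.rpow_mul hr.le,
        one_div_mul_cancel (by positivity), Real.rpow_one]
    obtain ⟨u, t, hu, hut⟩ := hnear x (ball_subset_ball hρρ0 hxT.2) c (2 * r ^ (1 / (1 + α)))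
      (by positivity)
    refine ⟨ln u t, ⟨u, t, hu, rfl⟩, ?_⟩
    rintro z ⟨⟨hzT, hzc⟩, hzp⟩
    have h2 := hut z (ball_subset_ball hρρ0 hzT.2) (by
      have := dist_triangle_right z x p
      have h3 := mem_closedBall.1 hxp
      have h4 := mem_closedBall.1 hzp
      linarith) (by
      rw [hhm]
      have : (1:ℝ) ≤ 2 ^ (1 + α) := Real.one_le_rpow (by norm_num) (by positivity)
      nlinarith)
    rw [hhm] at h2
    have h5 : |co u z - t| ≤ M * 2 ^ (1 + α) * r := by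
      calc |co u z - t| ≤ M * (2 ^ (1 + α) * r) := h2
        _ = _ := by ring
    obtain ⟨f1, f2⟩ := foot hu z t
    refine ⟨_, ⟨f1, hin z hzT.2 _ ?_⟩, by rw [f2]; exact h5⟩
    rw [f2]
    refine h5.trans ?_
    rw [le_div_iff₀ (by positivity)] at e2
    linarith

/-- The bounds for all functions of class `C^(1,α)` without critical points. -/
def FunBd (T D : Set ℂ) (b : ℝ) : Prop :=
  ∀ (U : Set ℂ) (g : ℂ → ℝ), HolderC1 g U → (∀ x ∈ U, fderiv ℝ g x ≠ 0) →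
    ∀ E ⊆ T ∩ U ∩ D,
      (dimH (g '' E) ≤ dimH E ∧ dimH E ≤ dimH (g '' E) + ENNReal.ofReal b) ∧
      (packDim (g '' E) ≤ packDim E ∧ packDim E ≤ packDim (g '' E) + ENNReal.ofReal b)

theorem lip_local {g : ℂ → ℝ} {U : Set ℂ} (hg : HolderC1 g U) {x : ℂ} (hx : x ∈ U) :
    ∃ ρ : ℝ, 0 < ρ ∧ ∃ C : ℝ≥0, LipschitzOnWith C g (ball x ρ) := by
  obtain ⟨ρ, α, C, hρ, hρ1, hα, hα1, hC, hd, hH, hT⟩ := taylor hg hx
  refine ⟨ρ, hρ, (‖fderiv ℝ g x‖ + C).toNNReal, ?_⟩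
  apply (convex_ball x ρ).lipschitzOnWith_of_nnnorm_fderiv_le hd
  intro y hy
  rw [← NNReal.coe_le_coe, Real.coe_toNNReal _ (by positivity), coe_nnnorm]
  have h1 := hH y hy x (mem_ball_self hρ)
  have h2 : ‖y - x‖ ^ α ≤ 1 := by
    apply Real.rpow_le_one (norm_nonneg _) _ hα.le
    rw [← dist_eq_norm]
    have := mem_ball.1 hy
    linarith
  have h3 : ‖fderiv ℝ g y‖ ≤ ‖fderiv ℝ g x‖ + ‖fderiv ℝ g y - fderiv ℝ g x‖ := by
    have := norm_add_le (fderiv ℝ g x) (fderiv ℝ g y - fderiv ℝ g x)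
    rwa [add_sub_cancel] at this
  have h4 : C * ‖y - x‖ ^ α ≤ C * 1 := mul_le_mul_of_nonneg_left h2 hC
  linarith

theorem funBd_of {T D : Set ℂ} {b : ℝ} (hb : 0 ≤ b) (h : CntP T D Lines b) (hD : IsOpen D) :
    FunBd T D b := by
  intro U g hg hreg E hE
  have hloc : ∀ x ∈ E, ∃ ρ : ℝ, 0 < ρ ∧ (∃ C : ℝ≥0, LipschitzOnWith C g (ball x ρ)) ∧
      ∀ ε' : ℝ, 0 < ε' → ∃ C : ℝ, 0 < C ∧ ∀ r : ℝ, 0 < r → r ≤ 1 → ∀ c : ℝ,
        CovB {z | z ∈ T ∩ ball x ρ ∧ |g z - c| ≤ r} r (C * r ^ (-(b + ε'))) := by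
    intro x hx
    obtain ⟨⟨hxT, hxU⟩, hxD⟩ := hE hx
    obtain ⟨ρ1, hρ1, C, hC⟩ := lip_local hg hxU
    obtain ⟨ρ2, hρ2, hcov⟩ := fun_cov hb h hD hg hxU hxD (hreg x hxU)
    refine ⟨min ρ1 ρ2, by positivity, ⟨C, hC.mono (ball_subset_ball (min_le_left _ _))⟩,
      fun ε' hε' => ?_⟩
    obtain ⟨C', hC', hh⟩ := hcov ε' hε'
    refine ⟨C', hC', fun r hr hr1 c => (hh r hr hr1 c).mono ?_ le_rfl⟩
    rintro z ⟨⟨hz1, hz2⟩, hz3⟩
    exact ⟨⟨hz1, ball_subset_ball (min_le_right _ _) hz2⟩, hz3⟩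
  choose! ρ hρ hlip hcov using hloc
  obtain ⟨t, htE, htc, ht⟩ := TopologicalSpace.countable_cover_nhdsWithin
    (f := fun x => ball x (ρ x)) (s := E)
    (fun x hx => mem_nhdsWithin_of_mem_nhds (ball_mem_nhds x (hρ x hx)))
  refine ⟨⟨?_, ?_⟩, ?_, ?_⟩
  · apply dimH_image_le_of_locally_lipschitzOn
    intro x hx
    obtain ⟨C, hC⟩ := hlip x hx
    exact ⟨C, E ∩ ball x (ρ x), inter_mem_nhdsWithin _ (ball_mem_nhds x (hρ x hx)),
      hC.mono inter_subset_right⟩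
  · by_contra hcon
    push Not at hcon
    obtain ⟨x, hx, hx2⟩ := exists_mem_nhdsWithin_lt_dimH_of_lt_dimH hcon
    have h1 := hx2 (E ∩ ball x (ρ x)) (inter_mem_nhdsWithin _ (ball_mem_nhds x (hρ x hx)))
    have h2 := dim_of_cov hb (hcov x hx) (E := E ∩ ball x (ρ x))
      (fun z hz => ⟨(hE hz.1).1.1, hz.2⟩)
    have h3 : dimH (g '' (E ∩ ball x (ρ x))) ≤ dimH (g '' E) :=
      dimH_mono (image_mono inter_subset_left)
    have h4 := h2.trans (add_le_add_left h3 (ENNReal.ofReal b))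
    exact absurd (h1.trans_le h4) (lt_irrefl _)
  · refine packDim_of_countable (t := t) (B := fun x => g '' (E ∩ ball x (ρ x))) htc ?_ ?_
    · rintro _ ⟨z, hz, rfl⟩
      obtain ⟨x, hx, hzx⟩ := mem_iUnion₂.1 (ht hz)
      exact mem_iUnion₂.2 ⟨x, hx, z, ⟨hz, hzx⟩, rfl⟩
    · intro x hx
      obtain ⟨C, hC⟩ := hlip x (htE hx)
      refine (packDim_mono inter_subset_right).trans ?_
      refine (packDim_image (hC.mono inter_subset_right)).trans ?_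
      exact packDim_mono inter_subset_left
  · refine packDim_of_countable (t := t) (B := fun x => ball x (ρ x)) htc ht ?_
    intro x hx
    refine (pack_of_cov hb (hcov x (htE hx)) (E := E ∩ ball x (ρ x))
      (fun z hz => ⟨(hE hz.1).1.1, hz.2⟩)).trans ?_
    gcongr
    exact packDim_mono (image_mono inter_subset_left)

end Pool.Agent.N892.MA
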