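import Pool.Agent.N892.MA.Cop

/-!
From the `k`-point bounds to all functions and all images: general random sets.
-/

set_option autoImplicit false

namespace Pool.Agent.N892.MA

open MeasureTheory Metric Set Filter Topology
open Pool.Agent.N892.UP (packDim upperBoxDim CovBy)
open Pool.Agent.N892.AC (Lines ln Cop Reg aff Ent)
open scoped ENNReal NNReal

theorem FunBd.iUnion {T : ℕ → Set ℂ} {D : Set ℂ} {b : ℝ} (h : ∀ n, FunBd (T n) D b) :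
    FunBd (⋃ n, T n) D b := by
  intro U g hg hreg E hE
  have hE' : E = ⋃ n, E ∩ T n := by
    rw [← inter_iUnion]
    exact (inter_eq_left.2 fun z hz => (hE hz).1.1).symm
  have hn : ∀ n, E ∩ T n ⊆ T n ∩ U ∩ D := fun n z hz => ⟨⟨hz.2, (hE hz.1).1.2⟩, (hE hz.1).2⟩
  have himg : g '' E = ⋃ n, g '' (E ∩ T n) := by
    conv_lhs => rw [hE']
    rw [image_iUnion]
  have hmono : ∀ n, g '' (E ∩ T n) ⊆ g '' E := fun n => image_mono inter_subset_left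
  refine ⟨⟨?_, ?_⟩, ?_, ?_⟩
  · rw [himg, dimH_iUnion]
    exact iSup_le fun n => (h n U g hg hreg _ (hn n)).1.1.trans (dimH_mono inter_subset_left)
  · conv_lhs => rw [hE']
    rw [dimH_iUnion]
    refine iSup_le fun n => (h n U g hg hreg _ (hn n)).1.2.trans ?_
    exact add_le_add_left (dimH_mono (hmono n)) _
  · rw [himg]
    exact packDim_iUnion fun n => (h n U g hg hreg _ (hn n)).2.1.trans
      (packDim_mono inter_subset_left)
  · conv_lhs => rw [hE']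
    refine packDim_iUnion fun n => (h n U g hg hreg _ (hn n)).2.2.trans ?_
    gcongr
    exact packDim_mono (hmono n)

theorem FunBd.mono {T T' D : Set ℂ} {b : ℝ} (h : FunBd T D b) (hT : T' ⊆ T) : FunBd T' D b := by
  intro U g hg hreg E hE
  exact h U g hg hreg E fun z hz => ⟨⟨hT (hE hz).1.1, (hE hz).1.2⟩, (hE hz).2⟩

theorem CopBd.mono {T T' D S S' : Set ℂ} {b : ℝ} (h : CopBd T D S b) (hT : T' ⊆ T)
    (hS : S' ⊆ S) : CopBd T' D S' b := by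
  intro U φ hφ hinj
  have hsub : T' ∩ D ∩ φ '' (S' ∩ U) ⊆ T ∩ D ∩ φ '' (S ∩ U) := by
    rintro z ⟨⟨h1, h2⟩, h3⟩
    exact ⟨⟨hT h1, h2⟩, image_mono (inter_subset_inter_left _ hS) h3⟩
  exact ⟨(dimH_mono hsub).trans (h U φ hφ hinj).1, (packDim_mono hsub).trans (h U φ hφ hinj).2⟩

theorem CopBd.iUnion {T : ℕ → Set ℂ} {D S : Set ℂ} {b : ℝ} (h : ∀ n, CopBd (T n) D S b) :
    CopBd (⋃ n, T n) D S b := by
  intro U φ hφ hinj
  have hsub : (⋃ n, T n) ∩ D ∩ φ '' (S ∩ U) ⊆ ⋃ n, (T n ∩ D ∩ φ '' (S ∩ U)) := by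
    rintro z ⟨⟨h1, h2⟩, h3⟩
    obtain ⟨n, hn⟩ := mem_iUnion.1 h1
    exact mem_iUnion.2 ⟨n, ⟨hn, h2⟩, h3⟩
  constructor
  · refine (dimH_mono hsub).trans ?_
    rw [dimH_iUnion]
    exact iSup_le fun n => (h n U φ hφ hinj).1
  · exact (packDim_mono hsub).trans (packDim_iUnion fun n => (h n U φ hφ hinj).2)

theorem CopBd.iUnion' {T D : Set ℂ} {S : ℕ → Set ℂ} {b : ℝ} (h : ∀ n, CopBd T D (S n) b) :
    CopBd T D (⋃ n, S n) b := by
  intro U φ hφ hinj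
  have hsub : T ∩ D ∩ φ '' ((⋃ n, S n) ∩ U) ⊆ ⋃ n, (T ∩ D ∩ φ '' (S n ∩ U)) := by
    rintro z ⟨h1, s, ⟨hs, hsU⟩, rfl⟩
    obtain ⟨n, hn⟩ := mem_iUnion.1 hs
    exact mem_iUnion.2 ⟨n, h1, s, ⟨hn, hsU⟩, rfl⟩
  constructor
  · refine (dimH_mono hsub).trans ?_
    rw [dimH_iUnion]
    exact iSup_le fun n => (h n U φ hφ hinj).1
  · exact (packDim_mono hsub).trans (packDim_iUnion fun n => (h n U φ hφ hinj).2)

/-- The plane is regular with exponent two. -/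
theorem reg_univ : Reg univ 2 := by
  intro ε hε
  refine ⟨16, fun x r h hr hr1 hrh => ?_⟩
  obtain ⟨P, h1, h2⟩ := covB_ball x hr hrh
  refine ⟨P, h1.trans ?_, inter_subset_right.trans h2⟩
  have h3 : 1 ≤ r ^ (-ε) := Real.one_le_rpow_of_pos_of_le_one_of_nonpos hr hr1 (by linarith)
  have h4 : (h / r) ^ (2:ℝ) = (h / r) ^ 2 := by rw [← Real.rpow_natCast]; norm_num
  rw [h4]
  have h5 : 0 ≤ (h / r) ^ 2 := by positivity
  nlinarith

theorem univ_cop : univ ∈ Cop univ (((0:ℕ):ℝ) + 1) := by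
  refine ⟨1, 0, 0, by simp, by simp, by simp, by simp, ?_⟩
  ext z
  simp only [mem_univ, mem_image, true_and, true_iff]
  exact ⟨z, by unfold aff; simp⟩

/-- Coverings of all parts of `T` imply regularity. -/
theorem reg_of {T D : Set ℂ} {b : ℝ} (hb : 0 ≤ b) (h : CntP T D {univ} b)
    (hD : Bornology.IsBounded D) {κ : ℝ} (hκ : 0 < κ) : Reg (T ∩ DepD D κ) b := by
  classical
  intro ε hε
  obtain ⟨Λ, hΛ, H⟩ := h κ hκ ε hε
  obtain ⟨L, hL⟩ := hD.subset_closedBall 0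
  obtain ⟨L', hL'⟩ : ∃ L' : ℝ, L' = max L 1 := ⟨_, rfl⟩
  have hL'1 : 1 ≤ L' := by rw [hL']; exact le_max_right _ _
  have hdep : DepD D κ ⊆ D := fun z hz => hz (mem_closedBall_self hκ.le)
  have hDL : D ⊆ closedBall 0 L' := hL.trans (closedBall_subset_closedBall (by
    rw [hL']; exact le_max_left _ _))
  -- discs of radius at most one
  have small : ∀ (x : ℂ) (r h' : ℝ), 0 < r → r ≤ h' → h' ≤ 1 →
      CovB ((T ∩ DepD D κ) ∩ closedBall x h') r (Λ * (r ^ (-ε) * (h' / r) ^ b)) := by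
    intro x r h' hr hrh hh
    refine (H univ (mem_singleton _) x r h' hr hrh hh).mono ?_ le_rfl
    rintro z ⟨⟨hzT, hzD⟩, hzx⟩
    exact ⟨hzT, hzD, mem_closedBall.1 hzx, z, ⟨mem_univ _, hdep hzD⟩, by
      rw [dist_self]; exact hr.le⟩
  refine ⟨16 * L' ^ 2 * Λ, fun x r h' hr hr1 hrh => ?_⟩
  rcases le_or_gt h' 1 with hh | hh
  · obtain ⟨P, h1, h2⟩ := small x r h' hr hrh hh
    refine ⟨P, h1.trans ?_, h2⟩
    have hh0 : 0 < h' := hr.trans_le hrh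
    have h5 : 0 ≤ Λ * (r ^ (-ε) * (h' / r) ^ b) := by positivity
    have h6 : 1 ≤ 16 * L' ^ 2 := by nlinarith
    calc Λ * (r ^ (-ε) * (h' / r) ^ b) = 1 * (Λ * (r ^ (-ε) * (h' / r) ^ b)) := (one_mul _).symm
      _ ≤ 16 * L' ^ 2 * (Λ * (r ^ (-ε) * (h' / r) ^ b)) := by gcongr
      _ = _ := by ring
  · have h1 : CovB (T ∩ DepD D κ) 1 (16 * (L' / 1) ^ 2) :=
      (covB_ball 0 one_pos hL'1).mono ((inter_subset_right.trans hdep).trans hDL) le_rfl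
    have h2 : CovB (T ∩ DepD D κ) r (16 * (L' / 1) ^ 2 * (Λ * (r ^ (-ε) * (1 / r) ^ b))) :=
      h1.trans (by positivity) fun p => small p r 1 hr hr1 le_rfl
    obtain ⟨P, h3, h4⟩ := h2
    refine ⟨P, h3.trans ?_, inter_subset_left.trans h4⟩
    rw [div_one]
    have h5 : (1 / r) ^ b ≤ (h' / r) ^ b := by
      apply Real.rpow_le_rpow (by positivity) _ hb
      exact div_le_div_of_nonneg_right hh.le hr.le
    calc 16 * L' ^ 2 * (Λ * (r ^ (-ε) * (1 / r) ^ b))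
        ≤ 16 * L' ^ 2 * (Λ * (r ^ (-ε) * (h' / r) ^ b)) := by gcongr
      _ = _ := by ring

section
variable {Ω : Type} [MeasurableSpace Ω] {μ : Measure Ω} [IsProbabilityMeasure μ]

/-- The coverings, almost surely. -/
theorem cntP_ae (hSD : S_D) (hSC : S_C) {D : Set ℂ} {σ : ℝ} {Ev : ℂ → ℝ → ℝ → Set Ω}
    (hbd : Bornology.IsBounded D) (hσ : 0 < σ) (hKP : KP μ D σ Ev) {T : Ω → Set ℂ} {η : ℝ}
    (hη : 0 < η)
    (hT : ∀ (ω : Ω) (w z : ℂ) (r d : ℝ), w ∈ T ω → dist w z < r → d + r ≤ η → ω ∈ Ev z r d)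
    {𝓢 : Set (Set ℂ)} {a : ℝ} (ha : 0 < a) (ha2 : a ≤ 2) (hE : EntD D 𝓢 a) :
    ∀ᵐ ω ∂μ, CntP (T ω) D 𝓢 (max (a - σ) 0) := by
  have h : ∀ᵐ ω ∂μ, ∀ n i : ℕ, ∃ Λ : ℝ, 0 < Λ ∧ ∀ S ∈ 𝓢, ∀ (x : ℂ) (r h : ℝ),
      0 < r → r ≤ h → h ≤ 1 →
        CovB {w | w ∈ T ω ∧ w ∈ DepD D (1 / ((n:ℝ) + 1)) ∧ dist w x ≤ h ∧
          ∃ z ∈ S ∩ D, dist w z ≤ r} r
          (Λ * (r ^ (-(1 / ((i:ℝ) + 1))) * (h / r) ^ (max (a - σ) 0))) := by
    rw [ae_all_iff]; intro n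
    rw [ae_all_iff]; intro i
    exact hSD hSC Ω μ D σ Ev T η 𝓢 a hbd hσ hKP hη hT ha ha2 hE _ (by positivity) _ (by positivity)
  filter_upwards [h] with ω hω
  exact cntP_of hω

/-- **All functions, all images.** -/
theorem all_ae (hSD : S_D) (hSC : S_C) {D : Set ℂ} {σ : ℝ} {Ev : ℂ → ℝ → ℝ → Set Ω}
    (hbd : Bornology.IsBounded D) (hop : IsOpen D) (hσ : 0 < σ) (hσ2 : σ < 2)
    (hKP : KP μ D σ Ev) {T : ℕ → Ω → Set ℂ}
    (hT : ∀ (n : ℕ) (ω : Ω) (w z : ℂ) (r d : ℝ), w ∈ T n ω → dist w z < r →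
      d + r ≤ 1 / ((n:ℝ) + 1) → ω ∈ Ev z r d)
    (hL : EntD D Lines 1)
    (hCop : ∀ (S : Set ℂ) (a m : ℝ), Reg S a → 1 ≤ m → EntD D (Cop S m) a) :
    (∀ᵐ ω ∂μ, FunBd (⋃ n, T n ω) D (max (1 - σ) 0)) ∧
    (∀ (S : Set ℂ) (a : ℝ), 0 < a → a ≤ 2 → Reg S a →
      ∀ᵐ ω ∂μ, CopBd (⋃ n, T n ω) D S (max (a - σ) 0)) ∧
    (∀ᵐ ω ∂μ, ∀ n k : ℕ, Reg (T n ω ∩ DepD D (1 / ((k:ℝ) + 1))) (2 - σ)) := by
  refine ⟨?_, ?_, ?_⟩
  · have h : ∀ᵐ ω ∂μ, ∀ n, CntP (T n ω) D Lines (max (1 - σ) 0) := by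
      rw [ae_all_iff]; intro n
      exact cntP_ae hSD hSC hbd hσ hKP (T := T n) (η := 1 / ((n:ℝ) + 1)) (by positivity) (hT n)
        one_pos (by norm_num) hL
    filter_upwards [h] with ω hω
    exact FunBd.iUnion fun n => funBd_of (le_max_right _ _) (hω n) hop
  · intro S a ha ha2 hS
    have h : ∀ᵐ ω ∂μ, ∀ n m : ℕ, CntP (T n ω) D (Cop S ((m:ℝ) + 1)) (max (a - σ) 0) := by
      rw [ae_all_iff]; intro n
      rw [ae_all_iff]; intro m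
      exact cntP_ae hSD hSC hbd hσ hKP (T := T n) (η := 1 / ((n:ℝ) + 1)) (by positivity) (hT n)
        ha ha2 (hCop S a _ hS (by
          have : (0:ℝ) ≤ m := Nat.cast_nonneg m
          linarith))
    filter_upwards [h] with ω hω
    exact CopBd.iUnion fun n => copBd_of (le_max_right _ _) (hω n) hop
  · rw [ae_all_iff]; intro n
    have h := cntP_ae hSD hSC hbd hσ hKP (T := T n) (η := 1 / ((n:ℝ) + 1)) (by positivity) (hT n)
      two_pos le_rfl (hCop univ 2 _ reg_univ (show (1:ℝ) ≤ ((0:ℕ):ℝ) + 1 by simp))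
    filter_upwards [h] with ω hω k
    rw [max_eq_left (by linarith)] at hω
    exact reg_of (by linarith) (hω.mono (Subset.refl _) (singleton_subset_iff.2 univ_cop)) hbd
      (by positivity)

end

end Pool.Agent.N892.MA
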