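import Pool.Agent.N892.MA.Cov

/-!
Iteration over super-exponential scales.
-/

set_option autoImplicit false

namespace Pool.Agent.N892.MA

open MeasureTheory Metric Set Filter Topology
open scoped ENNReal NNReal

/-- If the sets of a decreasing family are covered, inside the discs of radius `h = r ^ (1 / m)`, by
`C r ^ (-ε) (h / r) ^ b` discs of radius `r`, then they are covered by `C r ^ (-(b + ε'))` discs. -/
theorem iter {ι : Type} (L : ι → ℝ → Set ℂ) (hL : ∀ c r h, r ≤ h → L c r ⊆ L c h) {b m ε' : ℝ}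
    (hb : 0 ≤ b) (hm : 1 < m) (hε' : 0 < ε')
    (h0 : ∀ q : ℝ, 0 < q → ∃ C0 : ℝ, ∀ r : ℝ, q ≤ r → r ≤ 1 → ∀ c, CovB (L c r) r C0)
    (h1 : ∃ C1 q1 : ℝ, 0 < C1 ∧ 0 < q1 ∧ ∀ r : ℝ, 0 < r → r ≤ q1 → ∀ c p,
      CovB (L c r ∩ closedBall p (r ^ (1 / m))) r
        (C1 * (r ^ (-(ε' * (1 - 1 / m) / 2)) * (r ^ (1 / m) / r) ^ b))) :
    ∃ C : ℝ, 0 < C ∧ ∀ r : ℝ, 0 < r → r ≤ 1 → ∀ c, CovB (L c r) r (C * r ^ (-(b + ε'))) := by
  obtain ⟨C1, q1, hC1, hq1, H⟩ := h1
  have hm0 : 0 < m := by linarith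
  have hm1 : 0 < 1 - 1 / m := by
    rw [sub_pos, div_lt_one hm0]; exact hm
  set ε : ℝ := ε' * (1 - 1 / m) / 2 with hε
  have hε0 : 0 < ε := by positivity
  set q : ℝ := min (min q1 (1/2)) ((1 / C1) ^ (1 / ε)) with hq
  have hq0 : 0 < q := by positivity
  have hqq1 : q ≤ q1 := (min_le_left _ _).trans (min_le_left _ _)
  have hqh : q ≤ 1/2 := (min_le_left _ _).trans (min_le_right _ _)
  have hqC : ∀ r : ℝ, 0 < r → r ≤ q → C1 * r ^ ε ≤ 1 := by
    intro r hr hrq
    calc C1 * r ^ ε ≤ C1 * ((1 / C1) ^ (1 / ε)) ^ ε := by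
          gcongr
          exact hrq.trans (min_le_right _ _)
      _ = 1 := by
          rw [← Real.rpow_mul (by positivity), one_div_mul_cancel hε0.ne', Real.rpow_one]
          field_simp
  obtain ⟨C0, hC0⟩ := h0 q hq0
  set C : ℝ := max C0 1 with hC
  have hC0' : 0 < C := lt_max_of_lt_right one_pos
  refine ⟨C, hC0', ?_⟩
  -- induction on the number of steps
  have key : ∀ n : ℕ, ∀ r : ℝ, 0 < r → r ≤ 1 → q ^ (m ^ n) ≤ r → ∀ c,
      CovB (L c r) r (C * r ^ (-(b + ε'))) := by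
    intro n
    induction n with
    | zero =>
      intro r hr hr1 hqr c
      rw [pow_zero, Real.rpow_one] at hqr
      refine (hC0 r hqr hr1 c).mono (Subset.refl _) ?_
      have h2 : 1 ≤ r ^ (-(b + ε')) := by
        rw [Real.rpow_neg hr.le]
        exact (one_le_inv₀ (by positivity)).2 (Real.rpow_le_one hr.le hr1 (by positivity))
      calc C0 ≤ C * 1 := by rw [mul_one]; exact le_max_left _ _
        _ ≤ _ := mul_le_mul_of_nonneg_left h2 hC0'.le
    | succ n ih =>
      intro r hr hr1 hqr c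
      rcases le_or_gt q r with hcase | hcase
      · -- large radius
        refine (hC0 r hcase hr1 c).mono (Subset.refl _) ?_
        have h2 : 1 ≤ r ^ (-(b + ε')) := by
          rw [Real.rpow_neg hr.le]
          exact (one_le_inv₀ (by positivity)).2 (Real.rpow_le_one hr.le hr1 (by positivity))
        calc C0 ≤ C * 1 := by rw [mul_one]; exact le_max_left _ _
          _ ≤ _ := mul_le_mul_of_nonneg_left h2 hC0'.le
      · obtain ⟨h, hh⟩ : ∃ h : ℝ, h = r ^ (1 / m) := ⟨_, rfl⟩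
        have hh0 : 0 < h := by rw [hh]; positivity
        have hh1 : h ≤ 1 := by rw [hh]; exact Real.rpow_le_one hr.le hr1 (by positivity)
        have hrh : r ≤ h := by
          rw [hh]
          calc r = r ^ (1:ℝ) := (Real.rpow_one r).symm
            _ ≤ r ^ (1 / m) := Real.rpow_le_rpow_of_exponent_ge hr hr1 (by
                rw [div_le_one hm0]; exact hm.le)
        have hqh' : q ^ (m ^ n) ≤ h := by
          rw [hh]
          calc q ^ (m ^ n) = (q ^ (m ^ (n + 1))) ^ (1 / m) := by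
                rw [← Real.rpow_mul hq0.le, pow_succ]
                congr 1
                field_simp
            _ ≤ r ^ (1 / m) := Real.rpow_le_rpow (by positivity) hqr (by positivity)
        have a1 := ih h hh0 hh1 hqh' c
        have a2 := a1.mono (hL c r h hrh) le_rfl
        have hpos : 0 ≤ C1 * (r ^ (-ε) * (h / r) ^ b) := by positivity
        refine (a2.trans (r := r) hpos fun p => ?_).mono (Subset.refl _) ?_
        · have := H r hr (hcase.le.trans hqq1) c p
          rw [← hh] at this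
          exact this
        · -- the numbers
          have e1 : h ^ (-(b + ε')) * (h / r) ^ b = h ^ (-ε') * r ^ (-b) := by
            rw [Real.div_rpow hh0.le hr.le, neg_add, Real.rpow_add hh0, Real.rpow_neg hr.le]
            have : h ^ (-b) * h ^ b = 1 := by rw [← Real.rpow_add hh0]; simp
            calc h ^ (-b) * h ^ (-ε') * (h ^ b / r ^ b) =
                (h ^ (-b) * h ^ b) * h ^ (-ε') * (r ^ b)⁻¹ := by ring
              _ = _ := by rw [this, one_mul]
          have e2 : h ^ (-ε') = r ^ (-(ε' / m)) := by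
            rw [hh, ← Real.rpow_mul hr.le]; congr 1; ring
          have e3 : -(ε' / m) = -ε' + 2 * ε := by
            rw [hε]; field_simp; ring
          have e4 : r ^ (-ε) * (r ^ (-ε') * r ^ (2 * ε)) = r ^ ε * r ^ (-ε') := by
            rw [← Real.rpow_add hr, ← Real.rpow_add hr, ← Real.rpow_add hr]; congr 1; ring
          have e5 : r ^ (-(b + ε')) = r ^ (-ε') * r ^ (-b) := by
            rw [← Real.rpow_add hr]; congr 1; ring
          calc C * h ^ (-(b + ε')) * (C1 * (r ^ (-ε) * (h / r) ^ b))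
              = C * C1 * r ^ (-ε) * (h ^ (-(b + ε')) * (h / r) ^ b) := by ring
            _ = C * (C1 * (r ^ (-ε) * (r ^ (-ε') * r ^ (2 * ε)))) * r ^ (-b) := by
                rw [e1, e2, e3, Real.rpow_add hr]; ring
            _ = C * (C1 * r ^ ε) * (r ^ (-ε') * r ^ (-b)) := by rw [e4]; ring
            _ ≤ C * 1 * (r ^ (-ε') * r ^ (-b)) := by
                have := hqC r hr hcase.le
                gcongr
            _ = C * r ^ (-(b + ε')) := by rw [mul_one, e5]
  intro r hr hr1 c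
  obtain ⟨n, hn⟩ : ∃ n : ℕ, q ^ (m ^ n) ≤ r := by
    have h2 : Tendsto (fun n : ℕ => q ^ (m ^ n)) atTop (𝓝 0) := by
      have h3 : Tendsto (fun n : ℕ => m ^ n) atTop atTop := tendsto_pow_atTop_atTop_of_one_lt hm
      exact (tendsto_rpow_atTop_of_base_lt_one q (by linarith) (by linarith)).comp h3
    have h4 := h2.eventually (gt_mem_nhds hr)
    obtain ⟨n, hn⟩ := h4.exists
    exact ⟨n, hn.le⟩
  exact key n r hr hr1 hn c

/-- From coverings of inverse images to dimensions. -/
theorem dim_of_cov {g : ℂ → ℝ} {K : Set ℂ} {b : ℝ} (hb : 0 ≤ b)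
    (h : ∀ ε : ℝ, 0 < ε → ∃ C : ℝ, 0 < C ∧ ∀ r : ℝ, 0 < r → r ≤ 1 → ∀ c : ℝ,
      CovB {z | z ∈ K ∧ |g z - c| ≤ r} r (C * r ^ (-(b + ε)))) {E : Set ℂ} (hE : E ⊆ K) :
    dimH E ≤ dimH (g '' E) + ENNReal.ofReal b := by
  have hfin : dimH E ≤ 2 := by
    refine (dimH_mono (subset_univ E)).trans ?_
    rw [Real.dimH_univ_eq_finrank, Complex.finrank_real_complex]
    norm_num
  have step : ∀ η : ℝ, 0 < η → η < 1 → ENNReal.ofReal (1 - η) * dimH E ≤
      dimH (g '' E) + ENNReal.ofReal (b + η) := by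
    intro η hη hη1
    obtain ⟨C, hC, hcov⟩ := h η hη
    refine AC.dim_inv (X := ℂ) (Y := ℝ) (F := g) (K := K) (b := b + η) (c := 1 - η) (C := C)
      (d0 := (1/2 : ℝ) ^ (1 / η)) (by positivity) (by linarith) hC (by positivity) ?_ hE
    intro d hd hd0 J hJ
    have hd1 : d ≤ 1 := hd0.trans (Real.rpow_le_one (by norm_num) (by norm_num) (by positivity))
    have h2d : 2 * d ≤ d ^ (1 - η) := by
      have h3 : d ^ η ≤ 1/2 := by
        calc d ^ η ≤ ((1/2 : ℝ) ^ (1 / η)) ^ η := Real.rpow_le_rpow hd.le hd0 hη.le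
          _ = 1/2 := by
            rw [← Real.rpow_mul (by norm_num), one_div_mul_cancel hη.ne', Real.rpow_one]
      have h4 : d = d ^ (1 - η) * d ^ η := by
        rw [← Real.rpow_add hd]; simp
      have h5 : 0 < d ^ (1 - η) := by positivity
      nlinarith
    rcases (g ⁻¹' J ∩ K).eq_empty_or_nonempty with h0 | ⟨z0, hz0, hz0K⟩
    · rw [h0]
      refine ((CovB.empty (r := d) (N := C * d ^ (-(b + η))) (by positivity)).cv hd.le).mono
        (Subset.refl _) h2d le_rfl
    · refine ((hcov d hd hd1 (g z0)).cv hd.le).mono ?_ h2d le_rfl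
      rintro z ⟨hz, hzK⟩
      refine ⟨hzK, ?_⟩
      have h6 := (edist_le_ediam_of_mem (s := J) hz hz0).trans hJ
      rw [edist_dist, Real.dist_eq] at h6
      exact (ENNReal.ofReal_le_ofReal_iff hd.le).1 h6
  refine ENNReal.le_of_forall_pos_le_add fun ε hε _ => ?_
  have hε' : (0:ℝ) < ε := hε
  set η : ℝ := min (ε / 3) (1/2) with hη
  have hη0 : 0 < η := by positivity
  have h1 := step η hη0 (by have := min_le_right (ε / 3 : ℝ) (1/2); linarith)
  have h2 : dimH E ≤ ENNReal.ofReal (1 - η) * dimH E + ENNReal.ofReal (2 * η) := by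
    have e : (1 : ℝ≥0∞) = ENNReal.ofReal (1 - η) + ENNReal.ofReal η := by
      rw [← ENNReal.ofReal_add (by have := min_le_right (ε / 3 : ℝ) (1/2); linarith) hη0.le]
      simp
    calc dimH E = (ENNReal.ofReal (1 - η) + ENNReal.ofReal η) * dimH E := by rw [← e, one_mul]
      _ = ENNReal.ofReal (1 - η) * dimH E + ENNReal.ofReal η * dimH E := by rw [add_mul]
      _ ≤ ENNReal.ofReal (1 - η) * dimH E + ENNReal.ofReal η * 2 := by gcongr
      _ = _ := by
          congr 1
          rw [mul_comm 2 η, ENNReal.ofReal_mul hη0.le]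
          norm_num
  calc dimH E ≤ ENNReal.ofReal (1 - η) * dimH E + ENNReal.ofReal (2 * η) := h2
    _ ≤ dimH (g '' E) + ENNReal.ofReal (b + η) + ENNReal.ofReal (2 * η) := by gcongr
    _ = dimH (g '' E) + (ENNReal.ofReal b + ENNReal.ofReal (3 * η)) := by
        rw [add_assoc, ← ENNReal.ofReal_add (by positivity) (by positivity),
          ← ENNReal.ofReal_add hb (by positivity)]
        congr 2; ring
    _ ≤ dimH (g '' E) + (ENNReal.ofReal b + ε) := by
        gcongr
        rw [← ENNReal.ofReal_coe_nnreal]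
        apply ENNReal.ofReal_le_ofReal
        have := min_le_left (ε / 3 : ℝ) (1/2)
        linarith
    _ = _ := by rw [add_assoc]

/-- Upper box dimension. -/
theorem box_of_cov {A : Set ℂ} {b : ℝ} (hb : 0 ≤ b)
    (h : ∀ ε : ℝ, 0 < ε → ∃ C : ℝ, 0 < C ∧ ∀ r : ℝ, 0 < r → r ≤ 1 →
      CovB A r (C * r ^ (-(b + ε)))) : UP.upperBoxDim A ≤ ENNReal.ofReal b := by
  refine ENNReal.le_of_forall_pos_le_add fun ε hε _ => ?_
  have hε' : (0:ℝ) < ε := hε
  obtain ⟨C, hC, hcov⟩ := h (ε / 2) (by positivity)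
  set s : ℝ := b + ε with hs
  have hs0 : 0 < s := by positivity
  have hev : ∀ᶠ r in 𝓝[>] (0:ℝ), UP.CovBy A r (r ^ (-((s.toNNReal : ℝ≥0) : ℝ))) := by
    have h1 : ∀ᶠ r in 𝓝[>] (0:ℝ), r < 1 := by
      filter_upwards [Ioo_mem_nhdsGT (one_pos (α := ℝ))] with r hr using hr.2
    have h2 : ∀ᶠ r in 𝓝[>] (0:ℝ), r < (1 / C) ^ (1 / (ε / 2) : ℝ) := by
      have : (0:ℝ) < (1 / C) ^ (1 / (ε / 2) : ℝ) := by positivity
      filter_upwards [Ioo_mem_nhdsGT this] with r hr using hr.2
    filter_upwards [h1, h2, self_mem_nhdsWithin] with r k1 k2 k3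
    have k3 : (0:ℝ) < r := k3
    refine ((hcov r k3 k1.le).mono (Subset.refl _) ?_).covBy
    rw [Real.coe_toNNReal _ hs0.le]
    have k5 : C * r ^ (ε / 2 : ℝ) ≤ 1 := by
      calc C * r ^ (ε / 2 : ℝ) ≤ C * ((1 / C) ^ (1 / (ε / 2) : ℝ)) ^ (ε / 2 : ℝ) := by gcongr
        _ = 1 := by
            rw [← Real.rpow_mul (by positivity), one_div_mul_cancel (by positivity), Real.rpow_one]
            field_simp
    have k6 : r ^ (-(b + ε / 2)) = r ^ (ε / 2 : ℝ) * r ^ (-s) := by
      rw [← Real.rpow_add k3, hs]; congr 1; ring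
    rw [k6]
    have k7 : 0 ≤ r ^ (-s) := by positivity
    nlinarith
  unfold UP.upperBoxDim
  refine (iInf₂_le s.toNNReal hev).trans (le_of_eq ?_)
  have : ((s.toNNReal : ℝ≥0) : ℝ≥0∞) = ENNReal.ofReal s := rfl
  rw [this, hs, ENNReal.ofReal_add hb hε'.le, ENNReal.ofReal_coe_nnreal]

end Pool.Agent.N892.MA
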