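import Pool.Agent.N892.MA.Iter
import Pool.Agent.N892.MA.Cal
import Pool.Agent.N892.AC.Dim

/-!
Local coverings of the sets close to smooth copies of the sets of a family.
-/

set_option autoImplicit false

namespace Pool.Agent.N892.MA

open MeasureTheory Metric Set Filter Topology
open scoped ENNReal NNReal

/-- The coverings of the part of `T` near the sets of the family `𝓢`. -/
def CntP (T D : Set ℂ) (𝓢 : Set (Set ℂ)) (b : ℝ) : Prop :=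
  ∀ κ : ℝ, 0 < κ → ∀ ε : ℝ, 0 < ε → ∃ Λ : ℝ, 0 < Λ ∧ ∀ S ∈ 𝓢, ∀ (x : ℂ) (r h : ℝ),
    0 < r → r ≤ h → h ≤ 1 →
      CovB {w | w ∈ T ∧ w ∈ DepD D κ ∧ dist w x ≤ h ∧ ∃ z ∈ S ∩ D, dist w z ≤ r} r
        (Λ * (r ^ (-ε) * (h / r) ^ b))

theorem CntP.mono {T T' D : Set ℂ} {𝓢 𝓢' : Set (Set ℂ)} {b : ℝ} (h : CntP T D 𝓢 b)
    (hT : T' ⊆ T) (hS : 𝓢' ⊆ 𝓢) : CntP T' D 𝓢' b := by
  intro κ hκ ε hε
  obtain ⟨Λ, hΛ, H⟩ := h κ hκ ε hε
  refine ⟨Λ, hΛ, fun S hS' x r h' hr hrh hh => (H S (hS hS') x r h' hr hrh hh).mono ?_ le_rfl⟩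
  rintro w ⟨h1, h2⟩
  exact ⟨hT h1, h2⟩

theorem depD_mono {D : Set ℂ} {κ κ' : ℝ} (h : κ' ≤ κ) : DepD D κ ⊆ DepD D κ' :=
  fun _ hz => (closedBall_subset_closedBall h).trans hz

/-- From countably many conditions. -/
theorem cntP_of {T D : Set ℂ} {𝓢 : Set (Set ℂ)} {b : ℝ}
    (h : ∀ n i : ℕ, ∃ Λ : ℝ, 0 < Λ ∧ ∀ S ∈ 𝓢, ∀ (x : ℂ) (r h : ℝ),
      0 < r → r ≤ h → h ≤ 1 →
        CovB {w | w ∈ T ∧ w ∈ DepD D (1 / ((n:ℝ) + 1)) ∧ dist w x ≤ h ∧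
          ∃ z ∈ S ∩ D, dist w z ≤ r} r (Λ * (r ^ (-(1 / ((i:ℝ) + 1))) * (h / r) ^ b))) :
    CntP T D 𝓢 b := by
  intro κ hκ ε hε
  obtain ⟨n, hn⟩ := exists_nat_one_div_lt hκ
  obtain ⟨i, hi⟩ := exists_nat_one_div_lt hε
  obtain ⟨Λ, hΛ, H⟩ := h n i
  refine ⟨Λ, hΛ, fun S hS x r h' hr hrh hh => (H S hS x r h' hr hrh hh).mono ?_ ?_⟩
  · rintro w ⟨h1, h2, h3⟩
    exact ⟨h1, depD_mono hn.le h2, h3⟩
  · have hh0 : 0 < h' := hr.trans_le hrh
    have : r ^ (-(1 / ((i:ℝ) + 1))) ≤ r ^ (-ε) :=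
      Real.rpow_le_rpow_of_exponent_ge hr (hrh.trans hh) (by linarith)
    gcongr

/-- **Local coverings.** -/
theorem loc_cov {T D : Set ℂ} {𝓢 : Set (Set ℂ)} {b : ℝ} (hb : 0 ≤ b) (h : CntP T D 𝓢 b)
    {K : Set ℂ} {κ : ℝ} (hκ : 0 < κ) (hKT : K ⊆ T) (hKD : K ⊆ DepD D κ) {x0 : ℂ}
    (hKb : K ⊆ closedBall x0 1) {ι : Type} (L : ι → ℝ → Set ℂ)
    (hL : ∀ c r h, r ≤ h → L c r ⊆ L c h) (hLK : ∀ c r, L c r ⊆ K) {m M q0 : ℝ} (hm : 1 < m)
    (hM : 0 < M) (hq0 : 0 < q0)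
    (hflat : ∀ (c : ι) (p : ℂ) (r : ℝ), 0 < r → r ≤ q0 →
      (L c r ∩ closedBall p (r ^ (1 / m))).Nonempty → ∃ S ∈ 𝓢,
        ∀ z ∈ L c r ∩ closedBall p (r ^ (1 / m)), ∃ z' ∈ S ∩ D, dist z z' ≤ M * r)
    {ε' : ℝ} (hε' : 0 < ε') :
    ∃ C : ℝ, 0 < C ∧ ∀ r : ℝ, 0 < r → r ≤ 1 → ∀ c, CovB (L c r) r (C * r ^ (-(b + ε'))) := by
  have hm0 : 0 < m := by linarith
  have hm1 : 0 < 1 - 1 / m := by
    rw [sub_pos, div_lt_one hm0]; exact hm
  refine iter L hL hb hm hε' ?_ ?_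
  · intro q hq
    refine ⟨16 * (1 / q) ^ 2, fun r hqr hr1 c => ?_⟩
    have hr : 0 < r := hq.trans_le hqr
    refine (covB_ball x0 hr hr1).mono ((hLK c r).trans hKb) ?_
    gcongr
  · set ε : ℝ := ε' * (1 - 1 / m) / 2 with hε
    have hε0 : 0 < ε := by positivity
    obtain ⟨Λ, hΛ, H⟩ := h κ hκ ε hε0
    set M' : ℝ := max M 1 with hM'
    have hM'1 : 1 ≤ M' := le_max_right _ _
    have hM'0 : 0 < M' := by linarith
    refine ⟨Λ * (16 * M' ^ 2), min (min q0 1) ((1 / M') ^ (1 / (1 - 1 / m))), by positivity,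
      by positivity, ?_⟩
    intro r hr hrq c p
    have e1 : r ≤ q0 := hrq.trans ((min_le_left _ _).trans (min_le_left _ _))
    have e2 : r ≤ 1 := hrq.trans ((min_le_left _ _).trans (min_le_right _ _))
    have e3 : r ≤ (1 / M') ^ (1 / (1 - 1 / m)) := hrq.trans (min_le_right _ _)
    set h' : ℝ := r ^ (1 / m) with hh'
    have hh0 : 0 < h' := by positivity
    have hh1 : h' ≤ 1 := Real.rpow_le_one hr.le e2 (by positivity)
    have hMr : M' * r ≤ h' := by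
      have k1 : r ^ (1 - 1 / m) ≤ 1 / M' := by
        calc r ^ (1 - 1 / m) ≤ ((1 / M') ^ (1 / (1 - 1 / m))) ^ (1 - 1 / m) :=
              Real.rpow_le_rpow hr.le e3 hm1.le
          _ = 1 / M' := by
              rw [← Real.rpow_mul (by positivity), one_div_mul_cancel hm1.ne', Real.rpow_one]
      have k2 : r = r ^ (1 - 1 / m) * h' := by
        rw [hh', ← Real.rpow_add hr]; simp
      calc M' * r = M' * r ^ (1 - 1 / m) * h' := by rw [mul_assoc, ← k2]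
        _ ≤ M' * (1 / M') * h' := by gcongr
        _ = h' := by rw [mul_one_div_cancel hM'0.ne', one_mul]
    rcases (L c r ∩ closedBall p h').eq_empty_or_nonempty with h0 | hne
    · rw [h0]
      exact CovB.empty (by positivity)
    · obtain ⟨S, hS, hfl⟩ := hflat c p r hr e1 hne
      have a1 := H S hS p (M' * r) h' (by positivity) hMr hh1
      have a2 : CovB (L c r ∩ closedBall p h') (M' * r)
          (Λ * ((M' * r) ^ (-ε) * (h' / (M' * r)) ^ b)) := by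
        refine a1.mono ?_ le_rfl
        rintro z ⟨hz, hzp⟩
        obtain ⟨z', hz', hd⟩ := hfl z ⟨hz, hzp⟩
        refine ⟨hKT (hLK _ _ hz), hKD (hLK _ _ hz), mem_closedBall.1 hzp, z', hz', hd.trans ?_⟩
        gcongr
        exact le_max_left _ _
      have hrM : r ≤ M' * r := by nlinarith
      refine (a2.radius hr hrM).mono (Subset.refl _) ?_
      have k3 : M' * r / r = M' := by field_simp
      rw [k3]
      have k4 : (M' * r) ^ (-ε) ≤ r ^ (-ε) :=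
        Real.rpow_le_rpow_of_nonpos hr hrM (by linarith)
      have k5 : (h' / (M' * r)) ^ b ≤ (h' / r) ^ b := by
        apply Real.rpow_le_rpow (by positivity) _ hb
        exact div_le_div_of_nonneg_left hh0.le hr hrM
      calc Λ * ((M' * r) ^ (-ε) * (h' / (M' * r)) ^ b) * (16 * M' ^ 2)
          ≤ Λ * (r ^ (-ε) * (h' / r) ^ b) * (16 * M' ^ 2) := by gcongr
        _ = Λ * (16 * M' ^ 2) * (r ^ (-ε) * (h' / r) ^ b) := by ring

end Pool.Agent.N892.MA
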