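import Pool.Agent.N892.MA.Loc

/-!
Packing dimensions.
-/

set_option autoImplicit false

namespace Pool.Agent.N892.MA

open MeasureTheory Metric Set Filter Topology
open Pool.Agent.N892.UP (packDim upperBoxDim CovBy)
open scoped ENNReal NNReal

section
variable {X Y : Type*} [PseudoMetricSpace X] [PseudoMetricSpace Y]

theorem packDim_mono {A B : Set X} (h : A ⊆ B) : packDim A ≤ packDim B := by
  unfold UP.packDim
  refine le_iInf₂ fun U hU => ?_
  exact iInf₂_le U (h.trans hU)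

theorem packDim_le_box (A : Set X) : packDim A ≤ upperBoxDim A := by
  unfold UP.packDim
  refine (iInf₂_le (fun _ : ℕ => A) (subset_iUnion (fun _ : ℕ => A) 0)).trans ?_
  exact iSup_le fun _ => le_rfl

theorem packDim_iUnion {A : ℕ → Set X} {s : ℝ≥0∞} (h : ∀ n, packDim (A n) ≤ s) :
    packDim (⋃ n, A n) ≤ s := by
  refine ENNReal.le_of_forall_pos_le_add fun ε hε hs => ?_
  have h1 : ∀ n, ∃ U : ℕ → Set X, A n ⊆ ⋃ k, U k ∧ ∀ k, upperBoxDim (U k) ≤ s + ε := by
    intro n
    have h2 : packDim (A n) < s + ε :=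
      (h n).trans_lt (ENNReal.lt_add_right hs.ne (by exact_mod_cast hε.ne'))
    unfold UP.packDim at h2
    obtain ⟨U, h2'⟩ := iInf_lt_iff.1 h2
    obtain ⟨hU, h3⟩ := iInf_lt_iff.1 h2'
    exact ⟨U, hU, fun k => (le_iSup (fun k => upperBoxDim (U k)) k).trans h3.le⟩
  choose U hU1 hU2 using h1
  unfold UP.packDim
  refine (iInf₂_le (fun j : ℕ => U (Nat.unpair j).1 (Nat.unpair j).2) ?_).trans
    (iSup_le fun j => hU2 _ _)
  intro x hx
  obtain ⟨n, hn⟩ := mem_iUnion.1 hx
  obtain ⟨k, hk⟩ := mem_iUnion.1 (hU1 n hn)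
  refine mem_iUnion.2 ⟨Nat.pair n k, ?_⟩
  simp only [Nat.unpair_pair]
  exact hk

theorem packDim_of_countable {ι : Type*} {t : Set ι} (ht : t.Countable) {A : Set X}
    {B : ι → Set X} (hA : A ⊆ ⋃ i ∈ t, B i) {s : ℝ≥0∞} (h : ∀ i ∈ t, packDim (A ∩ B i) ≤ s) :
    packDim A ≤ s := by
  rcases t.eq_empty_or_nonempty with h0 | hne
  · subst h0
    have : A = ∅ := by
      apply subset_empty_iff.1
      simpa using hA
    rw [this]
    have h1 : packDim (∅ : Set X) ≤ 0 := by
      refine (packDim_le_box _).trans ?_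
      unfold UP.upperBoxDim
      refine (iInf₂_le 0 ?_).trans (by simp)
      refine Eventually.of_forall fun r => ⟨∅, empty_subset _, ?_⟩
      simp
    exact h1.trans zero_le
  · obtain ⟨f, hf⟩ := ht.exists_eq_range hne
    have h2 : A ⊆ ⋃ n, A ∩ B (f n) := by
      intro x hx
      obtain ⟨i, hi, hxi⟩ := mem_iUnion₂.1 (hA hx)
      rw [hf] at hi
      obtain ⟨n, rfl⟩ := hi
      exact mem_iUnion.2 ⟨n, hx, hxi⟩
    refine (packDim_mono h2).trans (packDim_iUnion fun n => h _ ?_)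
    rw [hf]; exact mem_range_self n

/-- Box dimensions of Lipschitz images. -/
theorem box_image {F : X → Y} {A : Set X} {C : ℝ≥0} (hF : LipschitzOnWith C F A) :
    upperBoxDim (F '' A) ≤ upperBoxDim A := by
  classical
  unfold UP.upperBoxDim
  refine le_iInf₂ fun s hs => ?_
  refine ENNReal.le_of_forall_pos_le_add fun ε hε _ => ?_
  have hε' : (0:ℝ) < ε := hε
  set L : ℝ := 2 * C + 1 with hL
  have hL0 : 0 < L := by positivity
  have hev : ∀ᶠ r in 𝓝[>] (0:ℝ), CovBy (F '' A) r (r ^ (-((s + ε : ℝ≥0) : ℝ))) := by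
    have h1 : Tendsto (fun r : ℝ => r / L) (𝓝[>] 0) (𝓝[>] 0) := by
      rw [tendsto_nhdsWithin_iff]
      constructor
      · have : Tendsto (fun r : ℝ => r / L) (𝓝 0) (𝓝 (0 / L)) := by
          exact (continuous_id.div_const L).tendsto 0
        rw [zero_div] at this
        exact this.mono_left nhdsWithin_le_nhds
      · filter_upwards [self_mem_nhdsWithin] with r hr
        exact div_pos hr hL0
    have h2 : ∀ᶠ r in 𝓝[>] (0:ℝ), L ^ ((s:ℝ)) * r ^ (ε : ℝ) ≤ 1 := by
      have h3 : Tendsto (fun r : ℝ => L ^ ((s:ℝ)) * r ^ (ε : ℝ)) (𝓝[>] 0) (𝓝 0) := by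
        have h4 := ((Real.continuousAt_rpow_const 0 (ε:ℝ) (Or.inr hε'.le)).tendsto.const_mul
          (L ^ (s:ℝ))).mono_left (nhdsWithin_le_nhds (s := Ioi 0))
        rw [Real.zero_rpow hε'.ne', mul_zero] at h4
        exact h4
      filter_upwards [h3.eventually (gt_mem_nhds one_pos)] with r hr using hr.le
    filter_upwards [h1.eventually hs, h2, self_mem_nhdsWithin] with r k1 k2 k3
    have k3 : 0 < r := k3
    obtain ⟨P, p1, p2⟩ := k1
    set P' := P.filter (fun p => (A ∩ closedBall p (r / L)).Nonempty) with hP'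
    have hch : ∀ p ∈ P', ∃ a, a ∈ A ∩ closedBall p (r / L) := fun p hp => (Finset.mem_filter.1 hp).2
    rcases A.eq_empty_or_nonempty with hA0 | ⟨a0, -⟩
    · refine ⟨∅, by rw [hA0, image_empty]; exact empty_subset _, ?_⟩
      simp only [Finset.card_empty, Nat.cast_zero]
      positivity
    · have : Nonempty X := ⟨a0⟩
      choose! e he using hch
      refine ⟨P'.image (F ∘ e), ?_, ?_⟩
      · rintro _ ⟨a, ha, rfl⟩
        obtain ⟨p, hp, hap⟩ := mem_iUnion₂.1 (p1 ha)
        have hp' : p ∈ P' := Finset.mem_filter.2 ⟨hp, a, ha, hap⟩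
        refine mem_iUnion₂.2 ⟨F (e p), Finset.mem_image_of_mem _ hp', ?_⟩
        rw [mem_closedBall]
        have h5 := hF.dist_le_mul a ha (e p) (he p hp').1
        have h6 := dist_triangle_right a (e p) p
        have h7 := mem_closedBall.1 hap
        have h8 := mem_closedBall.1 (he p hp').2
        calc dist (F a) (F (e p)) ≤ C * dist a (e p) := h5
          _ ≤ C * (2 * (r / L)) := by gcongr; linarith
          _ = (2 * C) * r / L := by ring
          _ ≤ r := by
              rw [div_le_iff₀ hL0, hL]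
              nlinarith
      · have h9 : ((P'.image (F ∘ e)).card : ℝ) ≤ P.card := by
          exact_mod_cast Finset.card_image_le.trans (Finset.card_filter_le _ _)
        refine h9.trans (p2.trans ?_)
        rw [Real.div_rpow k3.le hL0.le, Real.rpow_neg hL0.le, div_inv_eq_mul]
        have h10 : r ^ (-(s:ℝ)) = r ^ (ε:ℝ) * r ^ (-((s + ε : ℝ≥0) : ℝ)) := by
          rw [← Real.rpow_add k3]; congr 1; push_cast; ring
        rw [h10]
        have h11 : 0 ≤ r ^ (-((s + ε : ℝ≥0) : ℝ)) := by positivity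
        nlinarith
  refine (iInf₂_le (s + ε) hev).trans (le_of_eq ?_)
  push_cast
  rfl

theorem packDim_image {F : X → Y} {A : Set X} {C : ℝ≥0} (hF : LipschitzOnWith C F A) :
    packDim (F '' A) ≤ packDim A := by
  conv_rhs => unfold UP.packDim
  refine le_iInf₂ fun U hU => ?_
  unfold UP.packDim
  refine (iInf₂_le (fun n => F '' (A ∩ U n)) ?_).trans (iSup_mono fun n => ?_)
  · rintro _ ⟨a, ha, rfl⟩
    obtain ⟨n, hn⟩ := mem_iUnion.1 (hU ha)
    exact mem_iUnion.2 ⟨n, a, ⟨ha, hn⟩, rfl⟩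
  · refine (box_image (hF.mono inter_subset_left)).trans ?_
    unfold UP.upperBoxDim
    refine le_iInf₂ fun s hs => iInf₂_le s ?_
    filter_upwards [hs] with r hr
    obtain ⟨P, p1, p2⟩ := hr
    exact ⟨P, inter_subset_right.trans p1, p2⟩

end

/-- From coverings of inverse images to packing dimensions. -/
theorem pack_of_cov {g : ℂ → ℝ} {K : Set ℂ} {b : ℝ} (hb : 0 ≤ b)
    (h : ∀ ε : ℝ, 0 < ε → ∃ C : ℝ, 0 < C ∧ ∀ r : ℝ, 0 < r → r ≤ 1 → ∀ c : ℝ,
      CovB {z | z ∈ K ∧ |g z - c| ≤ r} r (C * r ^ (-(b + ε)))) {E : Set ℂ} (hE : E ⊆ K) :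
    packDim E ≤ packDim (g '' E) + ENNReal.ofReal b := by
  classical
  have box : ∀ V : Set ℝ, upperBoxDim {z | z ∈ K ∧ g z ∈ V} ≤
      upperBoxDim V + ENNReal.ofReal b := by
    intro V
    conv_rhs => unfold UP.upperBoxDim
    rw [ENNReal.iInf_add]
    refine le_iInf fun s => ?_
    rw [ENNReal.iInf_add]
    refine le_iInf fun hs => ?_
    refine ENNReal.le_of_forall_pos_le_add fun ε hε _ => ?_
    have hε' : (0:ℝ) < ε := hε
    obtain ⟨C, hC, hcov⟩ := h (ε / 2) (by positivity)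
    set t : ℝ≥0 := s + b.toNNReal + ε with ht
    have hev : ∀ᶠ r in 𝓝[>] (0:ℝ), CovBy {z | z ∈ K ∧ g z ∈ V} r (r ^ (-(t : ℝ))) := by
      have h1 : ∀ᶠ r in 𝓝[>] (0:ℝ), r < 1 := by
        filter_upwards [Ioo_mem_nhdsGT (one_pos (α := ℝ))] with r hr using hr.2
      have h2 : ∀ᶠ r in 𝓝[>] (0:ℝ), C * r ^ (ε / 2 : ℝ) ≤ 1 := by
        have h3 : Tendsto (fun r : ℝ => C * r ^ (ε / 2 : ℝ)) (𝓝[>] 0) (𝓝 0) := by
          have h4 := ((Real.continuousAt_rpow_const 0 (ε / 2 : ℝ)
            (Or.inr (by positivity))).tendsto.const_mul C).mono_left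
              (nhdsWithin_le_nhds (s := Ioi 0))
          rw [Real.zero_rpow (by positivity), mul_zero] at h4
          exact h4
        filter_upwards [h3.eventually (gt_mem_nhds one_pos)] with r hr using hr.le
      filter_upwards [hs, h1, h2, self_mem_nhdsWithin] with r k0 k1 k2 k3
      have k3 : 0 < r := k3
      obtain ⟨P, p1, p2⟩ := k0
      choose Q q1 q2 using fun c : ℝ => hcov r k3 k1.le c
      refine ⟨P.biUnion Q, ?_, ?_⟩
      · rintro z ⟨hzK, hzV⟩
        obtain ⟨c, hc, hzc⟩ := mem_iUnion₂.1 (p1 hzV)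
        obtain ⟨y, hy, hzy⟩ := mem_iUnion₂.1 (q2 c ⟨hzK, by
          rw [← Real.dist_eq]; exact mem_closedBall.1 hzc⟩)
        exact mem_iUnion₂.2 ⟨y, Finset.mem_biUnion.2 ⟨c, hc, hy⟩, hzy⟩
      · have h5 : ((P.biUnion Q).card : ℝ) ≤ ∑ c ∈ P, ((Q c).card : ℝ) := by
          exact_mod_cast Finset.card_biUnion_le
        have h6 : ∑ c ∈ P, ((Q c).card : ℝ) ≤ ∑ _c ∈ P, C * r ^ (-(b + ε / 2)) :=
          Finset.sum_le_sum fun c _ => q1 c
        rw [Finset.sum_const, nsmul_eq_mul] at h6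
        have h7 : (P.card : ℝ) * (C * r ^ (-(b + ε / 2))) ≤
            r ^ (-(s:ℝ)) * (C * r ^ (-(b + ε / 2))) := by gcongr
        refine h5.trans (h6.trans (h7.trans ?_))
        have h8 : r ^ (-(s:ℝ)) * r ^ (-(b + ε / 2)) = r ^ (ε / 2 : ℝ) * r ^ (-(t:ℝ)) := by
          rw [← Real.rpow_add k3, ← Real.rpow_add k3, ht]
          congr 1
          push_cast
          rw [Real.coe_toNNReal _ hb]
          ring
        calc r ^ (-(s:ℝ)) * (C * r ^ (-(b + ε / 2)))
            = C * (r ^ (-(s:ℝ)) * r ^ (-(b + ε / 2))) := by ring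
          _ = C * r ^ (ε / 2 : ℝ) * r ^ (-(t:ℝ)) := by rw [h8]; ring
          _ ≤ 1 * r ^ (-(t:ℝ)) := by gcongr
          _ = _ := one_mul _
    unfold UP.upperBoxDim
    refine (iInf₂_le t hev).trans (le_of_eq ?_)
    rw [ht]
    push_cast
    rfl
  conv_rhs => unfold UP.packDim
  rw [ENNReal.iInf_add]
  refine le_iInf fun U => ?_
  rw [ENNReal.iInf_add]
  refine le_iInf fun hU => ?_
  unfold UP.packDim
  refine (iInf₂_le (fun n => {z | z ∈ K ∧ g z ∈ U n}) ?_).trans (iSup_le fun n => ?_)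
  · intro z hz
    obtain ⟨n, hn⟩ := mem_iUnion.1 (hU (mem_image_of_mem g hz))
    exact mem_iUnion.2 ⟨n, hE hz, hn⟩
  · refine (box (U n)).trans ?_
    gcongr
    exact le_iSup (fun n => upperBoxDim (U n)) n

end Pool.Agent.N892.MA
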