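import Pool.Agent.N892.MA.Arm
import Pool.Agent.N892.MA.Gen
import Pool.Agent.N892.MA.A
import Pool.Agent.N892.MA.B
import Pool.Agent.N892.MA.C
import Pool.Agent.N892.MA.D
import Pool.Agent.N892.MA.E
import Pool.Agent.W92.DP.Dich
import Pool.Agent.TH990.FU.Ex3

/-!
The exploration path in a rectangle: double points and accessible points.
-/

set_option autoImplicit false

namespace Pool.Agent.N892.MA

open H974 H12S H389NS H984P H984N MeasureTheory Filter Topology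
open Pool.Agent.W92.DP Pool.Agent.W424.OD Pool.Agent.W462.DPL
open Pool.Agent.TH990.FU (Ev3 Ev3_anti E3U E3U_of Acc preE_open detE)
open Pool.Agent.N892.AC (Lines Cop Reg cop_ent lines_ent)
open scoped ENNReal NNReal

theorem D_bounded (R : Rect) : Bornology.IsBounded R.D := by
  rw [Metric.isBounded_iff_subset_closedBall 0]
  exact ⟨R.A + R.B + R.H + 1, fun z hz => by
    rw [Metric.mem_closedBall, dist_zero_right]
    exact Pool.Agent.N892.AC.D_norm R hz⟩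

theorem box_rect (R : Rect) {z : ℂ} {d δ : ℝ} (hδ : 0 < δ) (hd : 64 * δ ≤ d)
    (hball : Metric.ball z d ⊆ R.D) : blk (cn 1 δ z) ⌊d / (8 * δ)⌋₊ ⊆ (R.dm δ).edges := by
  obtain ⟨b1, b2, b3, b4⟩ := dom_box R hδ hd hball
  exact RE_subset b1.le b2.le b3.le b4.le

/-- The events for double points. -/
def EvD (_ : ℕ) (z : ℂ) (r d : ℝ) : Set X := {p | 0 < d → p ∈ Ev z r (d / 2)}

theorem lat4 (R : Rect) {δ : ℕ → ℝ} (hδ : ∀ i, 0 < δ i) (hlim : Tendsto δ atTop (𝓝 0)) :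
    Lat 1 δ (fun i => (R.dm (δ i)).edges) (fun i F => (R.curve (δ i) F, R.time (δ i) F))
      (fun i => R.law (δ i)) R.D EvD Arm4 := by
  obtain ⟨κ, S, δ0, hκ, hS, hδ0, hδ1, hsh⟩ := R.shape
  refine ⟨hδ, hlim, ?_, ?_, ?_, ?_, ?_, ?_⟩
  · intro i U hU
    rw [R.law_apply (δ i) hU.measurableSet]
    exact le_rfl
  · intro j z r d
    by_cases hd : 0 < d
    · have : EvD j z r d = Ev z r (d / 2) := by
        ext p; exact ⟨fun h => h hd, fun h _ => h⟩
      rw [this]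
      exact Ev_open _ _ _
    · have : EvD j z r d = Set.univ := by
        ext p; exact ⟨fun _ => Set.mem_univ _, fun _ h => absurd h hd⟩
      rw [this]
      exact isOpen_univ
  · intro j j' z r d _
    exact le_rfl
  · intro j z r r' d d' hr hd p hp hd'
    obtain ⟨s, u, t, h1, h2, h3, h4⟩ := hp (hd'.trans_le hd)
    exact ⟨s, u, t, h1, h2.trans_le hr, h3.trans_le hr, by linarith⟩
  · refine Eventually.of_forall fun i z d hd hball => box_rect R (hδ i) hd hball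
  · intro j
    filter_upwards [hlim.eventually (gt_mem_nhds hδ0)] with i hi z r d hr hd hball F hF hE
    have hδi := hδ i
    have hr0 : 0 < r := hδi.trans_le hr
    exact det st_U R hδi hr hd hball (hsh (δ i) hδi hi.le).ok hF (hE (by linarith))

/-- The events for accessible points. -/
def EvA (j : ℕ) (z : ℂ) (r d : ℝ) : Set X :=
  {p | 0 < d → p.1 ∈ Ev3 z r (d / 2) (1 / ((j:ℝ) + 1))}

theorem lat3 (R : Rect) {δ : ℕ → ℝ} (hδ : ∀ i, 0 < δ i) (hlim : Tendsto δ atTop (𝓝 0)) :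
    Lat 1 δ (fun i => (R.dm (δ i)).edges) (fun i F => (R.curve (δ i) F, R.time (δ i) F))
      (fun i => R.law (δ i)) R.D EvA Arm3 := by
  obtain ⟨κ, S, δ0, hκ, hS, hδ0, hδ1, hsh⟩ := R.shape
  refine ⟨hδ, hlim, ?_, ?_, ?_, ?_, ?_, ?_⟩
  · intro i U hU
    rw [R.law_apply (δ i) hU.measurableSet]
    exact le_rfl
  · intro j z r d
    by_cases hd : 0 < d
    · have : EvA j z r d = (fun p : X => p.1) ⁻¹' Ev3 z r (d / 2) (1 / ((j:ℝ) + 1)) := by
        ext p; exact ⟨fun h => h hd, fun h _ => h⟩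
      rw [this]
      exact preE_open _ _ _ _
    · have : EvA j z r d = Set.univ := by
        ext p; exact ⟨fun _ => Set.mem_univ _, fun _ h => absurd h hd⟩
      rw [this]
      exact isOpen_univ
  · intro j j' z r d hj p hp hd
    exact Ev3_anti (Nat.one_div_le_one_div hj) (hp hd)
  · intro j z r r' d d' hr hd p hp hd'
    obtain ⟨⟨s, hs⟩, ⟨s', hs'⟩, g, h1, h2, h3⟩ := hp (hd'.trans_le hd)
    exact ⟨⟨s, hs.trans_le hr⟩, ⟨s', by linarith⟩, g, h1.trans_le hr, by linarith, h3⟩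
  · refine Eventually.of_forall fun i z d hd hball => box_rect R (hδ i) hd hball
  · intro j
    have hpos : 0 < min δ0 (1 / ((j:ℝ) + 1) / 8) := lt_min hδ0 (by positivity)
    filter_upwards [hlim.eventually (gt_mem_nhds hpos)] with i hi z r d hr hd hball F hF hE
    have hδi := hδ i
    have hr0 : 0 < r := hδi.trans_le hr
    have k1 := hi.le.trans (min_le_left _ _)
    have k2 := hi.le.trans (min_le_right _ _)
    exact detE R hδi hr hd (by linarith) hball (hsh (δ i) hδi k1).ok hF (hE (by linarith))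

section
variable (R : Rect) {δ : ℕ → ℝ} (hδ : ∀ i, 0 < δ i) (hlim : Tendsto δ atTop (𝓝 0))
  {μ : ProbabilityMeasure X} (hμ : Tendsto (fun i => R.law (δ i)) atTop (𝓝 μ))
include hδ hlim hμ

theorem kp4 : KP (μ : Measure X) R.D (5/4) (fun z r d => ⋃ j, EvD j z r d) := by
  obtain ⟨C, hC, hA⟩ := isArm4
  exact E.t (B.t A.t) X 1 δ _ _ _ μ R.D EvD Arm4 (5/4) C (by norm_num) hC hA (lat4 R hδ hlim) hμ

theorem kp3 (hU : U3) : KP (μ : Measure X) R.D (2/3) (fun z r d => ⋃ j, EvA j z r d) := by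
  obtain ⟨C, hC, hA⟩ := isArm3 hU
  exact E.t (B.t A.t) X 1 δ _ _ _ μ R.D EvA Arm3 (2/3) C (by norm_num) hC hA (lat3 R hδ hlim) hμ

/-- Double points. -/
theorem all4 :
    (∀ᵐ p ∂(μ : Measure X), FunBd (⋃ n : ℕ, DPt (1 / ((n:ℝ) + 1)) p.1) R.D 0) ∧
    (∀ (S : Set ℂ) (a : ℝ), 0 < a → a ≤ 2 → Reg S a →
      ∀ᵐ p ∂(μ : Measure X), CopBd (⋃ n : ℕ, DPt (1 / ((n:ℝ) + 1)) p.1) R.D S
        (max (a - 5/4) 0)) ∧
    (∀ᵐ p ∂(μ : Measure X), ∀ n k : ℕ,
      Reg (DPt (1 / ((n:ℝ) + 1)) p.1 ∩ DepD R.D (1 / ((k:ℝ) + 1))) (3/4)) := by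
  have h := all_ae D.t C.t (D_bounded R) (Pool.Agent.TH990.FU.D_open R) (by norm_num)
    (by norm_num) (kp4 R hδ hlim hμ) (T := fun n (p : X) => DPt (1 / ((n:ℝ) + 1)) p.1) (by
      intro n p w z r d hw hwz hrd
      refine Set.mem_iUnion.2 ⟨0, fun hd => ?_⟩
      exact Ev_of_DPt hw hwz (by linarith)) (lines_ent R)
    (fun S a m hS hm => cop_ent R hS hm)
  have e1 : max ((1:ℝ) - 5/4) 0 = 0 := by norm_num
  have e2 : (2:ℝ) - 5/4 = 3/4 := by norm_num
  rw [e1, e2] at h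
  exact h

/-- Accessible points. -/
theorem all3 (hU : U3) :
    (∀ᵐ p ∂(μ : Measure X), FunBd (⋃ n : ℕ, Acc (1 / ((n:ℝ) + 1)) p.1) R.D (1/3)) ∧
    (∀ (S : Set ℂ) (a : ℝ), 0 < a → a ≤ 2 → Reg S a →
      ∀ᵐ p ∂(μ : Measure X), CopBd (⋃ n : ℕ, Acc (1 / ((n:ℝ) + 1)) p.1) R.D S
        (max (a - 2/3) 0)) ∧
    (∀ᵐ p ∂(μ : Measure X), ∀ n k : ℕ,
      Reg (Acc (1 / ((n:ℝ) + 1)) p.1 ∩ DepD R.D (1 / ((k:ℝ) + 1))) (4/3)) := by
  have h := all_ae D.t C.t (D_bounded R) (Pool.Agent.TH990.FU.D_open R) (by norm_num)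
    (by norm_num) (kp3 R hδ hlim hμ hU) (T := fun n (p : X) => Acc (1 / ((n:ℝ) + 1)) p.1) (by
      intro n p w z r d hw hwz hrd
      by_cases hd : 0 < d
      · have h1 := E3U_of (ρ := d / 2) hw hwz (by linarith)
        unfold E3U at h1
        obtain ⟨j, hj⟩ := Set.mem_iUnion.1 h1
        exact Set.mem_iUnion.2 ⟨j, fun _ => hj⟩
      · exact Set.mem_iUnion.2 ⟨0, fun h1 => absurd h1 hd⟩) (lines_ent R)
    (fun S a m hS hm => cop_ent R hS hm)
  have e1 : max ((1:ℝ) - 2/3) 0 = 1/3 := by norm_num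
  have e2 : (2:ℝ) - 2/3 = 4/3 := by norm_num
  rw [e1, e2] at h
  exact h

end

end Pool.Agent.N892.MA
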