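import Pool.Agent.W92.DP.Defs

/-!
Project MA: points with several arms near all the sets of a family. Definitions and statements.
-/

set_option autoImplicit false

namespace Pool.Agent.N892.MA

open H974 H12S MeasureTheory Filter Topology

/-! ### The lattice -/

/-- The sup distance of two vertices. -/
def nd (c b : ℤ × ℤ) : ℕ := max (c.1 - b.1).natAbs (c.2 - b.2).natAbs

/-- Events `A c s t` in annuli (centre `c`, radii `s ≤ t`) which depend only on the edges near the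
annulus and whose probability is at most `C (s / t) ^ σ`. -/
structure IsArm (σ C : ℝ) (A : ℤ × ℤ → ℕ → ℕ → Set Edg → Prop) : Prop where
  loc : ∀ (c : ℤ × ℤ) (s t : ℕ), 1 ≤ s → s ≤ t → ∀ F G : Set Edg,
    F ∩ ↑(blk c (t + 1) \ blk c (s - 1)) = G ∩ ↑(blk c (t + 1) \ blk c (s - 1)) →
    A c s t F → A c s t G
  bd : ∀ (c : ℤ × ℤ) (s t : ℕ), 1 ≤ s → s ≤ t → ∀ S : Finset Edg, blk c (t + 1) ⊆ S →
    PQ (1/2) S (fun F => A c s t ↑F) ≤ C * ((s : ℝ) / t) ^ σ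

/-- All the annuli with radii in `[d, K]` avoiding the intervals of the list `I`. -/
def HoleA (A : ℤ × ℤ → ℕ → ℕ → Set Edg → Prop) (c : ℤ × ℤ) (d K : ℕ) (I : List (ℕ × ℕ))
    (F : Set Edg) : Prop :=
  ∀ s t : ℕ, d ≤ s → s ≤ t → t ≤ K → (∀ p ∈ I, t < p.1 ∨ p.2 < s) → A c s t F

/-- MA/A: one point, with forbidden intervals of radii. -/
def S_A : Prop := ∀ σ C : ℝ, 0 < σ → 0 < C → ∀ m : ℕ, ∃ C' : ℝ, 0 < C' ∧
  ∀ A : ℤ × ℤ → ℕ → ℕ → Set Edg → Prop, IsArm σ C A → ∀ (c : ℤ × ℤ) (I : List (ℕ × ℕ)),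
    I.length ≤ m → (∀ p ∈ I, p.1 ≤ p.2 ∧ p.2 ≤ 3 * p.1) → ∀ d K : ℕ, 1 ≤ d → d ≤ K →
    ∀ S : Finset Edg, blk c (K + 1) ⊆ S →
      PQ (1/2) S (fun F => HoleA A c d K I ↑F) ≤ C' * ((d : ℝ) / K) ^ σ

/-- The weight of a list of points. -/
noncomputable def wt (σ : ℝ) (d K : ℕ) : List (ℤ × ℤ) → ℝ
  | [] => 1
  | c :: l => (((d : ℝ) / K) ^ σ + (l.map fun b => ((d : ℝ) / (max d (nd c b) : ℕ)) ^ σ).sum) *
      wt σ d K l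

/-- MA/B: `k` points. -/
def S_B : Prop := ∀ σ C : ℝ, 0 < σ → 0 < C → ∀ k : ℕ, ∃ C' : ℝ, 0 < C' ∧
  ∀ A : ℤ × ℤ → ℕ → ℕ → Set Edg → Prop, IsArm σ C A → ∀ l : List (ℤ × ℤ), l.length = k →
    ∀ d K : ℕ, 1 ≤ d → d ≤ K → ∀ S : Finset Edg, (∀ c ∈ l, blk c (K + 1) ⊆ S) →
      PQ (1/2) S (fun F => ∀ c ∈ l, HoleA A c d K [] ↑F) ≤ C' * wt σ d K l

/-! ### Random sets of the plane -/

/-- The weight of a list of points of the plane. -/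
noncomputable def wtc (σ r d : ℝ) : List ℂ → ℝ
  | [] => 1
  | z :: l => ((r / d) ^ σ + (l.map fun w => (r / max r (dist z w)) ^ σ).sum) * wtc σ r d l

/-- Random events `Ev z r d` (`r` small, `d` large: arms from the disc `B(z, r)` to the distance
`d`) with the `k`-point bounds for all `k`. -/
structure KP {Ω : Type} [MeasurableSpace Ω] (μ : Measure Ω) (D : Set ℂ) (σ : ℝ)
    (Ev : ℂ → ℝ → ℝ → Set Ω) : Prop where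
  meas : ∀ z r d, MeasurableSet (Ev z r d)
  bd : ∀ k : ℕ, ∃ C : ℝ, 0 < C ∧ ∀ l : List ℂ, l.length = k → ∀ r d : ℝ, 0 < r → r ≤ d →
    (∀ z ∈ l, Metric.ball z d ⊆ D) →
      μ {ω | ∀ z ∈ l, ω ∈ Ev z r d} ≤ ENNReal.ofReal (C * wtc σ r d l)

/-- The centre of the lattice boxes (`o = 1` for the exploration path, `o = 0` for clusters). -/
noncomputable def cn (o : ℤ) (δ : ℝ) (z : ℂ) : ℤ × ℤ := (⌊z.re / δ⌋, ⌊z.im / δ⌋ - o)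

/-- The lattice approximations. -/
structure Lat {Ω : Type} [TopologicalSpace Ω] [MeasurableSpace Ω] [OpensMeasurableSpace Ω]
    (o : ℤ) (δ : ℕ → ℝ) (S : ℕ → Finset Edg) (Φ : ℕ → Finset Edg → Ω)
    (μs : ℕ → ProbabilityMeasure Ω) (D : Set ℂ) (Ev : ℕ → ℂ → ℝ → ℝ → Set Ω)
    (A : ℤ × ℤ → ℕ → ℕ → Set Edg → Prop) : Prop where
  pos : ∀ i, 0 < δ i
  lim : Tendsto δ atTop (𝓝 0)
  law : ∀ (i : ℕ) (U : Set Ω), IsOpen U →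
    (μs i : Measure Ω) U ≤ ENNReal.ofReal (PQ (1/2) (S i) (fun F => Φ i F ∈ U))
  opn : ∀ j z r d, IsOpen (Ev j z r d)
  inc : ∀ j j' z r d, j ≤ j' → Ev j z r d ⊆ Ev j' z r d
  mono : ∀ j z r r' d d', r ≤ r' → d' ≤ d → Ev j z r d ⊆ Ev j z r' d'
  box : ∀ᶠ i in atTop, ∀ (z : ℂ) (d : ℝ), 64 * δ i ≤ d → Metric.ball z d ⊆ D →
    blk (cn o (δ i) z) ⌊d / (8 * δ i)⌋₊ ⊆ S i
  det : ∀ j, ∀ᶠ i in atTop, ∀ (z : ℂ) (r d : ℝ), δ i ≤ r → 256 * r ≤ d → Metric.ball z d ⊆ D →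
    ∀ F ⊆ S i, Φ i F ∈ Ev j z r d →
      A (cn o (δ i) z) (⌈r / δ i⌉₊ + 5) (⌊d / (8 * δ i)⌋₊ - 2) ↑F

/-- MA/E: the `k`-point bounds for the limits. -/
def S_E : Prop := S_B → ∀ (Ω : Type) [TopologicalSpace Ω] [MeasurableSpace Ω]
  [OpensMeasurableSpace Ω] [HasOuterApproxClosed Ω] (o : ℤ) (δ : ℕ → ℝ) (S : ℕ → Finset Edg)
  (Φ : ℕ → Finset Edg → Ω) (μs : ℕ → ProbabilityMeasure Ω) (μ : ProbabilityMeasure Ω) (D : Set ℂ)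
  (Ev : ℕ → ℂ → ℝ → ℝ → Set Ω) (A : ℤ × ℤ → ℕ → ℕ → Set Edg → Prop) (σ C : ℝ), 0 < σ → 0 < C →
  IsArm σ C A → Lat o δ S Φ μs D Ev A → Tendsto μs atTop (𝓝 μ) →
    KP (μ : Measure Ω) D σ (fun z r d => ⋃ j, Ev j z r d)

/-- The weight of a list, general form. -/
noncomputable def wl {ι : Type} (α : ℝ) (m : ι → ι → ℝ) : List ι → ℝ
  | [] => 1
  | y :: l => (α + (l.map (m y)).sum) * wl α m l

open Classical in
/-- MA/C: moments. -/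
def S_C : Prop := ∀ (Ω : Type) [MeasurableSpace Ω] (μ : Measure Ω) [IsProbabilityMeasure μ]
  (ι : Type) (Y : Finset ι) (E : ι → Set Ω) (k : ℕ) (C α M : ℝ) (m : ι → ι → ℝ),
  (∀ y, MeasurableSet (E y)) → 0 ≤ C → 0 ≤ α → 0 < M → (∀ y u, 0 ≤ m y u) →
  (∀ l : List ι, l.length = k → (∀ y ∈ l, y ∈ Y) →
    μ {ω | ∀ y ∈ l, ω ∈ E y} ≤ ENNReal.ofReal (C * wl α m l)) →
  (∀ u ∈ Y, ∑ y ∈ Y, m y u ≤ M) → Y.card * α ≤ M → ∀ t : ℝ, 0 < t →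
    μ {ω | t * M < ((Y.filter fun y => ω ∈ E y).card : ℝ)} ≤
      ENNReal.ofReal (C * (k + 1) ^ k * (1 / t) ^ k)

open Classical in
/-- The sets of the family `𝓢` are covered in `D`, at every scale `r`, by polynomially many nets
which are uniformly regular with exponent `a`, up to a factor `r ^ (-ε)`. -/
def EntD (D : Set ℂ) (𝓢 : Set (Set ℂ)) (a : ℝ) : Prop :=
  ∀ ε : ℝ, 0 < ε → ∃ K c : ℝ, ∀ r : ℝ, 0 < r → r ≤ 1 → ∃ 𝒜 : Finset (Finset ℂ),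
    (𝒜.card : ℝ) ≤ K * r ^ (-c) ∧
    (∀ A ∈ 𝒜, ∀ (z : ℂ) (h : ℝ), r ≤ h →
      ((A.filter (fun y => dist y z ≤ h)).card : ℝ) ≤ K * r ^ (-ε) * (h / r) ^ a) ∧
    (∀ S ∈ 𝓢, ∃ A ∈ 𝒜, ∀ z ∈ S ∩ D, ∃ y ∈ A, dist z y ≤ r)

/-- `A` is covered by at most `N` closed discs of radius `r`. -/
def CovB (A : Set ℂ) (r N : ℝ) : Prop :=
  ∃ P : Finset ℂ, (P.card : ℝ) ≤ N ∧ A ⊆ ⋃ p ∈ P, Metric.closedBall p r

/-- The points of depth at least `κ`. -/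
def DepD (D : Set ℂ) (κ : ℝ) : Set ℂ := {z | Metric.closedBall z κ ⊆ D}

/-- MA/D: the points of a random set near the sets of a family. -/
def S_D : Prop := S_C → ∀ (Ω : Type) [MeasurableSpace Ω] (μ : Measure Ω) [IsProbabilityMeasure μ]
  (D : Set ℂ) (σ : ℝ) (Ev : ℂ → ℝ → ℝ → Set Ω) (T : Ω → Set ℂ) (η : ℝ) (𝓢 : Set (Set ℂ)) (a : ℝ),
  Bornology.IsBounded D → 0 < σ → KP μ D σ Ev → 0 < η →
  (∀ (ω : Ω) (w z : ℂ) (r d : ℝ), w ∈ T ω → dist w z < r → d + r ≤ η → ω ∈ Ev z r d) →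
  0 < a → a ≤ 2 → EntD D 𝓢 a → ∀ κ : ℝ, 0 < κ → ∀ ε : ℝ, 0 < ε →
    ∀ᵐ ω ∂μ, ∃ Λ : ℝ, 0 < Λ ∧ ∀ S ∈ 𝓢, ∀ (x : ℂ) (r h : ℝ), 0 < r → r ≤ h → h ≤ 1 →
      CovB {w | w ∈ T ω ∧ w ∈ DepD D κ ∧ dist w x ≤ h ∧ ∃ z ∈ S ∩ D, dist w z ≤ r} r
        (Λ * (r ^ (-ε) * (h / r) ^ (max (a - σ) 0)))

end Pool.Agent.N892.MA
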